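import Mathlib

set_option autoImplicit false

namespace Pool.Agent.H317Z.GammaTrdeg

open Complex IntermediateField Cardinal

/-- If every element of `S` is algebraic over the field generated by `T`, the field generated
by `S` has transcendence degree at most the cardinality of `T`. -/
theorem trdeg_adjoin_le {K A : Type} [Field K] [Field A] [Algebra K A] (S T : Set A)
    (h : ∀ z ∈ S, IsAlgebraic (IntermediateField.adjoin K T) z) :
    Algebra.trdeg K (IntermediateField.adjoin K S) ≤ #T := by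
  set L := IntermediateField.adjoin K T with hL
  set E : IntermediateField L A := algebraicClosure L A with hE
  have hle : IntermediateField.adjoin K S ≤ E.restrictScalars K := by
    rw [IntermediateField.adjoin_le_iff]
    intro z hz
    exact (mem_algebraicClosure_iff).2 (h z hz)
  have h1 : Algebra.trdeg K (IntermediateField.adjoin K S) ≤
      Algebra.trdeg K (E.restrictScalars K) :=
    trdeg_le_of_injective (IntermediateField.inclusion hle) (IntermediateField.inclusion_injective hle)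
  have h2 : Algebra.trdeg K (E.restrictScalars K) = Algebra.trdeg K E := rfl
  have h3 : Algebra.trdeg K L + Algebra.trdeg L E = Algebra.trdeg K E := trdeg_add_eq K L
  have h4 : Algebra.trdeg L E = 0 := trdeg_eq_zero
  have h5 : Algebra.trdeg K L ≤ #T := by
    let s : Set L := Subtype.val ⁻¹' T
    have hs : #s ≤ #T := Cardinal.mk_preimage_of_injective _ _ Subtype.val_injective
    have htop : IntermediateField.adjoin K s = ⊤ := by
      apply IntermediateField.lift_injective L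
      rw [IntermediateField.lift_adjoin, IntermediateField.lift_top]
      have : Subtype.val '' s = T := by
        apply Set.image_preimage_eq_of_subset
        intro z hz
        exact ⟨⟨z, IntermediateField.subset_adjoin K T hz⟩, rfl⟩
      rw [this]
    have halg : Algebra.IsAlgebraic (Algebra.adjoin K s) L := by
      constructor
      intro x
      have hx : x ∈ IntermediateField.adjoin K s := by rw [htop]; trivial
      obtain ⟨a, ha, b, hb, hab⟩ := IntermediateField.mem_adjoin_iff_div.mp hx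
      rw [hab, div_eq_mul_inv]
      exact (isAlgebraic_algebraMap (⟨a, ha⟩ : Algebra.adjoin K s)).mul
        (isAlgebraic_algebraMap (⟨b, hb⟩ : Algebra.adjoin K s)).inv
    exact (Algebra.IsAlgebraic.trdeg_le_cardinalMk K s).trans hs
  rw [h2, ← h3, h4, add_zero] at h1
  exact h1.trans h5

theorem gamma_ne (a q : ℕ) (ha : 0 < a) (hq : 0 < q) : Complex.Gamma ((a : ℂ) / (q : ℂ)) ≠ 0 := by
  apply Complex.Gamma_ne_zero_of_re_pos
  have : ((a : ℂ) / (q : ℂ)) = (((a : ℝ) / (q : ℝ) : ℝ) : ℂ) := by push_cast; rfl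
  rw [this, Complex.ofReal_re]
  positivity

/-- The classical product of three duplication formulas. -/
theorem gamma_prod_real :
    Real.Gamma (1 / 14) * Real.Gamma (9 / 14) * Real.Gamma (11 / 14)
      = 4 * (Real.sqrt Real.pi) ^ 3 := by
  have h1 := Real.Gamma_mul_Gamma_add_half (1 / 14)
  have h2 := Real.Gamma_mul_Gamma_add_half (1 / 7)
  have h3 := Real.Gamma_mul_Gamma_add_half (2 / 7)
  norm_num at h1 h2 h3
  have p1 : 0 < Real.Gamma (1 / 7) := Real.Gamma_pos_of_pos (by norm_num)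
  have p2 : 0 < Real.Gamma (2 / 7) := Real.Gamma_pos_of_pos (by norm_num)
  have p4 : 0 < Real.Gamma (4 / 7) := Real.Gamma_pos_of_pos (by norm_num)
  have hp : (2 : ℝ) ^ ((6 : ℝ) / 7) * (2 : ℝ) ^ ((5 : ℝ) / 7) * (2 : ℝ) ^ ((3 : ℝ) / 7) = 4 := by
    rw [← Real.rpow_add (by norm_num), ← Real.rpow_add (by norm_num)]
    norm_num
  have key : (Real.Gamma (1 / 14) * Real.Gamma (9 / 14) * Real.Gamma (11 / 14)) *
      (Real.Gamma (1 / 7) * Real.Gamma (2 / 7) * Real.Gamma (4 / 7)) =
      (4 * (Real.sqrt Real.pi) ^ 3) *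
      (Real.Gamma (1 / 7) * Real.Gamma (2 / 7) * Real.Gamma (4 / 7)) := by
    calc _ = (Real.Gamma (1 / 14) * Real.Gamma (4 / 7)) * (Real.Gamma (1 / 7) * Real.Gamma (9 / 14))
            * (Real.Gamma (2 / 7) * Real.Gamma (11 / 14)) := by ring
      _ = _ := by
        rw [h1, h2, h3, ← hp]; ring
  exact mul_right_cancel₀ (by positivity) key

theorem sin_algebraic (a q : ℕ) (hq : 0 < q) :
    IsAlgebraic ℚ (Complex.sin (Real.pi * ((a : ℂ) / (q : ℂ)))) := by
  have hq' : (q : ℂ) ≠ 0 := by exact_mod_cast hq.ne'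
  have hu : ∀ w : ℂ, w ^ (2 * q) = 1 → IsAlgebraic ℚ w := by
    intro w hw
    apply IsAlgebraic.of_pow (n := 2 * q) (by omega)
    rw [hw]; exact isAlgebraic_one
  have e1 : IsAlgebraic ℚ (Complex.exp (-(Real.pi * ((a : ℂ) / (q : ℂ))) * I)) := by
    apply hu
    rw [← Complex.exp_nat_mul]
    have : ((2 * q : ℕ) : ℂ) * (-(Real.pi * ((a : ℂ) / (q : ℂ))) * I)
        = ((-(a : ℤ) : ℤ) : ℂ) * (2 * Real.pi * I) := by
      push_cast; field_simp
    rw [this, Complex.exp_int_mul_two_pi_mul_I]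
  have e2 : IsAlgebraic ℚ (Complex.exp ((Real.pi * ((a : ℂ) / (q : ℂ))) * I)) := by
    apply hu
    rw [← Complex.exp_nat_mul]
    have : ((2 * q : ℕ) : ℂ) * ((Real.pi * ((a : ℂ) / (q : ℂ))) * I)
        = (((a : ℤ) : ℤ) : ℂ) * (2 * Real.pi * I) := by
      push_cast; field_simp
    rw [this, Complex.exp_int_mul_two_pi_mul_I]
  have eI : IsAlgebraic ℚ (I : ℂ) := by
    apply IsAlgebraic.of_pow (n := 4) (by norm_num)
    rw [Complex.I_pow_four]; exact isAlgebraic_one
  have e2' : IsAlgebraic ℚ (2 : ℂ) := by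
    simpa using (isAlgebraic_natCast (R := ℚ) (A := ℂ) 2)
  unfold Complex.sin
  rw [div_eq_mul_inv]
  exact ((e1.sub e2).mul eI).mul e2'.inv

theorem main :
    Algebra.trdeg ℚ (IntermediateField.adjoin ℚ
      ({(Real.pi : ℂ)} ∪ {z : ℂ | ∃ a : ℕ, 1 ≤ a ∧ a ≤ 14 - 1 ∧ Nat.gcd a 14 = 1 ∧
        z = Complex.Gamma ((a : ℂ) / ((14 : ℕ) : ℂ))})) ≤ 3 := by
  set T : Set ℂ := {(Real.pi : ℂ), Complex.Gamma (((3 : ℕ) : ℂ) / ((14 : ℕ) : ℂ)),
    Complex.Gamma (((5 : ℕ) : ℂ) / ((14 : ℕ) : ℂ))} with hT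
  have hTc : #T ≤ 3 := by
    have h1 : T.encard ≤ 3 := by
      refine (Set.encard_insert_le _ _).trans ?_
      refine (add_le_add_left ((Set.encard_insert_le _ _).trans
        (add_le_add_left (Set.encard_singleton _).le _)) _).trans ?_
      norm_num
    have hfin : T.Finite := by rw [hT]; exact Set.toFinite _
    rw [← hfin.cast_ncard_eq] at h1
    have h2 : T.ncard ≤ 3 := by exact_mod_cast h1
    rw [← Set.cast_ncard hfin]
    exact_mod_cast h2
  refine (trdeg_adjoin_le _ T ?_).trans hTc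
  set L := IntermediateField.adjoin ℚ T with hL
  have memalg : ∀ z ∈ T, IsAlgebraic L z := fun z hz =>
    isAlgebraic_algebraMap (⟨z, IntermediateField.subset_adjoin ℚ T hz⟩ : L)
  have hpi : IsAlgebraic L (Real.pi : ℂ) := memalg _ (by simp [hT])
  have h3 : IsAlgebraic L (Complex.Gamma (((3 : ℕ) : ℂ) / ((14 : ℕ) : ℂ))) :=
    memalg _ (by simp [hT])
  have h5 : IsAlgebraic L (Complex.Gamma (((5 : ℕ) : ℂ) / ((14 : ℕ) : ℂ))) :=
    memalg _ (by simp [hT])
  have refl : ∀ a b : ℕ, 0 < a → a + b = 14 →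
      IsAlgebraic L (Complex.Gamma ((a : ℂ) / ((14 : ℕ) : ℂ))) →
      IsAlgebraic L (Complex.Gamma ((b : ℂ) / ((14 : ℕ) : ℂ))) := by
    intro a b ha hab hal
    have hb : (b : ℂ) / ((14 : ℕ) : ℂ) = 1 - (a : ℂ) / ((14 : ℕ) : ℂ) := by
      have : (a : ℂ) + b = 14 := by exact_mod_cast hab
      push_cast; field_simp; linear_combination this
    have hr := Complex.Gamma_mul_Gamma_one_sub ((a : ℂ) / ((14 : ℕ) : ℂ))
    have hne := gamma_ne a 14 ha (by norm_num)
    have : Complex.Gamma ((b : ℂ) / ((14 : ℕ) : ℂ)) =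
        (Real.pi : ℂ) * (Complex.sin (Real.pi * ((a : ℂ) / ((14 : ℕ) : ℂ))))⁻¹ *
          (Complex.Gamma ((a : ℂ) / ((14 : ℕ) : ℂ)))⁻¹ := by
      rw [hb, ← div_eq_mul_inv (Real.pi : ℂ), ← hr]; field_simp
    rw [this]
    exact (hpi.mul ((sin_algebraic a 14 (by norm_num)).tower_top L).inv).mul hal.inv
  have h11 := refl 3 11 (by norm_num) (by norm_num) h3
  have h9 := refl 5 9 (by norm_num) (by norm_num) h5
  have h1 : IsAlgebraic L (Complex.Gamma (((1 : ℕ) : ℂ) / ((14 : ℕ) : ℂ))) := by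
    have hprod : Complex.Gamma (((1 : ℕ) : ℂ) / ((14 : ℕ) : ℂ)) *
        Complex.Gamma (((9 : ℕ) : ℂ) / ((14 : ℕ) : ℂ)) *
        Complex.Gamma (((11 : ℕ) : ℂ) / ((14 : ℕ) : ℂ)) =
        4 * ((Real.sqrt Real.pi : ℝ) : ℂ) ^ 3 := by
      have := congrArg (fun x : ℝ => (x : ℂ)) gamma_prod_real
      simp only [Complex.ofReal_mul, ← Complex.Gamma_ofReal] at this
      push_cast at this ⊢
      exact this
    have hs : IsAlgebraic L ((Real.sqrt Real.pi : ℝ) : ℂ) := by
      apply IsAlgebraic.of_pow (n := 2) (by norm_num)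
      rw [← Complex.ofReal_pow, Real.sq_sqrt Real.pi_pos.le]
      exact hpi
    have h4 : IsAlgebraic L (4 : ℂ) := by
      simpa using (isAlgebraic_natCast (R := L) (A := ℂ) 4)
    have n9 := gamma_ne 9 14 (by norm_num) (by norm_num)
    have n11 := gamma_ne 11 14 (by norm_num) (by norm_num)
    have : Complex.Gamma (((1 : ℕ) : ℂ) / ((14 : ℕ) : ℂ)) =
        4 * ((Real.sqrt Real.pi : ℝ) : ℂ) ^ 3 *
          (Complex.Gamma (((9 : ℕ) : ℂ) / ((14 : ℕ) : ℂ)))⁻¹ *
          (Complex.Gamma (((11 : ℕ) : ℂ) / ((14 : ℕ) : ℂ)))⁻¹ := by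
      rw [← hprod]; field_simp
    rw [this]
    exact ((h4.mul (hs.pow 3)).mul h9.inv).mul h11.inv
  have h13 := refl 1 13 (by norm_num) (by norm_num) h1
  rintro z (hz | ⟨a, ha1, ha2, hg, rfl⟩)
  · rw [Set.mem_singleton_iff.mp hz]; exact hpi
  · have ha3 : a ≤ 13 := by omega
    interval_cases a <;> first | assumption | (exfalso; revert hg; decide)

end Pool.Agent.H317Z.GammaTrdeg
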