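import Mathlib

set_option autoImplicit false

namespace Pool.Agent.H317Z.Gur

open Set Cardinal Pointwise BoundedContinuousFunction

/-- Linear functionals of norm at most one. -/
def DB (Y : Type) [NormedAddCommGroup Y] [NormedSpace ℝ Y] : Type :=
  {u : Y →ₗ[ℝ] ℝ // ∀ y, |u y| ≤ ‖y‖}

/-- Hahn-Banach along a linear map. -/
lemma hb {E Y : Type} [AddCommGroup E] [Module ℝ E] [NormedAddCommGroup Y] [NormedSpace ℝ Y]
    (T : E →ₗ[ℝ] Y) (f : E →ₗ[ℝ] ℝ) (h : ∀ e, |f e| ≤ ‖T e‖) :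
    ∃ k : DB Y, ∀ e, k.1 (T e) = f e := by
  have hker : LinearMap.ker T ≤ LinearMap.ker f := by
    intro e he
    have := h e
    rw [LinearMap.mem_ker.1 he, norm_zero] at this
    exact abs_nonpos_iff.1 this
  let f0 : LinearMap.range T →ₗ[ℝ] ℝ :=
    ((LinearMap.ker T).liftQ f hker) ∘ₗ T.quotKerEquivRange.symm.toLinearMap
  have hf0 : ∀ e, f0 ⟨T e, LinearMap.mem_range_self T e⟩ = f e := by
    intro e
    simp [f0, LinearMap.quotKerEquivRange_symm_apply_image]
  obtain ⟨g, hg1, hg2⟩ := exists_extension_of_le_sublinear (⟨LinearMap.range T, f0⟩ : Y →ₗ.[ℝ] ℝ)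
    (fun y => ‖y‖) (fun c hc x => by rw [norm_smul, Real.norm_eq_abs, abs_of_pos hc])
    (fun x y => norm_add_le x y) (by
      rintro ⟨_, e, rfl⟩
      exact (le_of_eq (hf0 e)).trans ((le_abs_self _).trans (h e)))
  refine ⟨⟨g, fun y => abs_le.2 ⟨?_, hg2 y⟩⟩, fun e => ?_⟩
  · have := hg2 (-y)
    rw [map_neg, norm_neg] at this
    linarith
  · exact (hg1 ⟨T e, LinearMap.mem_range_self T e⟩).trans (hf0 e)

lemma exists_norming {Y : Type} [NormedAddCommGroup Y] [NormedSpace ℝ Y] (y : Y) :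
    ∃ k : DB Y, k.1 y = ‖y‖ := by
  obtain ⟨k, hk⟩ := hb (LinearMap.toSpanSingleton ℝ Y y) (LinearMap.toSpanSingleton ℝ ℝ ‖y‖)
    (fun c => by simp [norm_smul, abs_mul])
  exact ⟨k, by simpa using hk 1⟩

/-- The action of isometries on functionals. -/
def dualAct (Y : Type) [NormedAddCommGroup Y] [NormedSpace ℝ Y] :
    (Y ≃ₗᵢ[ℝ] Y) →* Equiv.Perm (DB Y) where
  toFun φ :=
    { toFun := fun u => ⟨u.1 ∘ₗ φ.symm.toLinearEquiv.toLinearMap, fun y => by
        simpa using u.2 (φ.symm y)⟩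
      invFun := fun u => ⟨u.1 ∘ₗ φ.toLinearEquiv.toLinearMap, fun y => by
        simpa using u.2 (φ y)⟩
      left_inv := fun u => Subtype.ext (LinearMap.ext fun y => by simp)
      right_inv := fun u => Subtype.ext (LinearMap.ext fun y => by simp) }
  map_one' := by
    ext u
    exact Subtype.ext (LinearMap.ext fun y => rfl)
  map_mul' φ ψ := by
    ext u
    exact Subtype.ext (LinearMap.ext fun y => rfl)

lemma dualAct_apply {Y : Type} [NormedAddCommGroup Y] [NormedSpace ℝ Y] (φ : Y ≃ₗᵢ[ℝ] Y)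
    (u : DB Y) (y : Y) : (dualAct Y φ u).1 (φ y) = u.1 y := by
  simp [dualAct]

/-- Permutations of the base of a surjection lift to a thickening of its total space. -/
lemma exists_lift {S B : Type} (π : S → B) (hπ : Function.Surjective π) :
    ∃ L : Equiv.Perm B →* Equiv.Perm (S × (ℕ ⊕ S)), ∀ σ ω, π (L σ ω).1 = σ (π ω.1) := by
  have hC : ℵ₀ ≤ #(ℕ ⊕ S) := Cardinal.aleph0_le_mk _
  have hS : #S ≤ #(ℕ ⊕ S) := Cardinal.mk_le_of_injective Sum.inr_injective
  have key : ∀ c : B, Nonempty ({a : S × (ℕ ⊕ S) // π a.1 = c} ≃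
      {b : B × (ℕ ⊕ S) // b.1 = c}) := by
    intro c
    obtain ⟨s, hs⟩ := hπ c
    apply Cardinal.eq.1
    have h1 : #{a : S × (ℕ ⊕ S) // π a.1 = c} = #(ℕ ⊕ S) := by
      apply le_antisymm
      · refine (Cardinal.mk_subtype_le _).trans ?_
        rw [Cardinal.mk_prod, Cardinal.lift_id, Cardinal.lift_id]
        exact (Cardinal.mul_eq_right hC hS (Cardinal.mk_ne_zero_iff.2 ⟨s⟩)).le
      · exact Cardinal.mk_le_of_injective (f := fun x => ⟨(s, x), hs⟩)
          fun x y h => by simpa using h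
    have h2 : #{b : B × (ℕ ⊕ S) // b.1 = c} = #(ℕ ⊕ S) := by
      apply le_antisymm
      · refine Cardinal.mk_le_of_injective (f := fun x => x.1.2) ?_
        rintro ⟨⟨a, b⟩, rfl⟩ ⟨⟨a', b'⟩, h'⟩ h
        simp only at h h'
        simp [h, h']
      · exact Cardinal.mk_le_of_injective (f := fun x => ⟨(c, x), rfl⟩)
          fun x y h => by simpa using h
    rw [h1, h2]
  let e : S × (ℕ ⊕ S) ≃ B × (ℕ ⊕ S) :=
    Equiv.ofFiberEquiv (f := fun a : S × (ℕ ⊕ S) => π a.1) (g := fun b : B × (ℕ ⊕ S) => b.1)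
      fun c => (key c).some
  have he : ∀ a, (e a).1 = π a.1 := fun a =>
    Equiv.ofFiberEquiv_map (f := fun a : S × (ℕ ⊕ S) => π a.1)
      (g := fun b : B × (ℕ ⊕ S) => b.1) _ a
  let L0 : Equiv.Perm B →* Equiv.Perm (B × (ℕ ⊕ S)) :=
    { toFun := fun σ => Equiv.prodCongr σ (Equiv.refl _)
      map_one' := by ext x <;> simp
      map_mul' := fun σ τ => by ext x <;> simp }
  refine ⟨e.symm.permCongrHom.toMonoidHom.comp L0, fun σ ω => ?_⟩
  rw [← he, ← he]
  simp [L0]

/-- A finite ball of a group, with a tapering weight and a permutation extending the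
multiplication by `t`. -/
lemma exists_ball {P : Type} [Group P] (H : Subgroup P) (hH : (H : Set P).Finite) (t : P)
    (η : ℝ) (hη : 0 < η) :
    ∃ (Z : Type) (_ : Finite Z) (val : Z → P) (z0 : Z) (β : H →* Equiv.Perm Z) (τ : Equiv.Perm Z)
      (w : Z → ℝ), val z0 = 1 ∧ w z0 = 1 ∧ (∀ z, 0 ≤ w z) ∧ (∀ z, w z ≤ 1) ∧
      (∀ h z, val (β h z) = h * val z) ∧ (∀ h z, w (β h z) = w z) ∧
      ∀ z, (val (τ z) = t * val z ∧ |w (τ z) - w z| ≤ η) ∨ (w z = 0 ∧ w (τ z) = 0) := by
  classical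
  obtain ⟨N, hN⟩ := exists_nat_one_div_lt hη
  obtain ⟨B, B0, Bs⟩ : ∃ B : ℕ → Set P, B 0 = H ∧
      ∀ m, B (m + 1) = (H : Set P) * (B m ∪ ({t} * B m ∪ {t⁻¹} * B m)) :=
    ⟨fun m => Nat.rec (motive := fun _ => Set P) (H : Set P)
      (fun _ A => (H : Set P) * (A ∪ ({t} * A ∪ {t⁻¹} * A))) m, rfl, fun _ => rfl⟩
  have Bone : (1 : P) ∈ B 0 := by rw [B0]; exact H.one_mem
  have Bfin : ∀ m, (B m).Finite := fun m => by
    induction m with
    | zero => rw [B0]; exact hH
    | succ m ih =>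
      rw [Bs]
      exact hH.mul (ih.union (((finite_singleton _).mul ih).union ((finite_singleton _).mul ih)))
  have BH : ∀ m, ∀ h ∈ H, ∀ x ∈ B m, h * x ∈ B m := fun m h hh x hx => by
    cases m with
    | zero => rw [B0] at hx ⊢; exact H.mul_mem hh hx
    | succ m =>
      rw [Bs] at hx ⊢
      obtain ⟨a, ha, b, hb, rfl⟩ := hx
      exact ⟨h * a, H.mul_mem hh ha, b, hb, by simp [mul_assoc]⟩
  have BH' : ∀ m, ∀ h ∈ H, ∀ x, h * x ∈ B m ↔ x ∈ B m := fun m h hh x =>
    ⟨fun hx => by simpa using BH m h⁻¹ (H.inv_mem hh) _ hx, BH m h hh x⟩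
  have B1 : ∀ m, ∀ x ∈ B m, x ∈ B (m + 1) := fun m x hx => by
    rw [Bs]; exact ⟨1, H.one_mem, x, Or.inl hx, by simp⟩
  have B2 : ∀ m, ∀ x ∈ B m, t * x ∈ B (m + 1) := fun m x hx => by
    rw [Bs]; exact ⟨1, H.one_mem, t * x, Or.inr (Or.inl ⟨t, rfl, x, hx, rfl⟩), by simp⟩
  have B3 : ∀ m, ∀ x ∈ B m, t⁻¹ * x ∈ B (m + 1) := fun m x hx => by
    rw [Bs]; exact ⟨1, H.one_mem, t⁻¹ * x, Or.inr (Or.inr ⟨t⁻¹, rfl, x, hx, rfl⟩), by simp⟩
  have Bmono : Monotone B := monotone_nat_of_le_succ fun m x hx => B1 m x hx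
  let c : P → ℕ := fun x => ((Finset.range (N + 1)).filter fun m => x ∈ B m).card
  have cle : ∀ x, c x ≤ N + 1 := fun x =>
    (Finset.card_filter_le _ _).trans (Finset.card_range _).le
  have cstep : ∀ x y, (∀ m, x ∈ B m → y ∈ B (m + 1)) → c x ≤ c y + 1 := fun x y h => by
    have : ((Finset.range (N + 1)).filter fun m => x ∈ B m).map ⟨Nat.succ, Nat.succ_injective⟩ ⊆
        insert (N + 1) ((Finset.range (N + 1)).filter fun m => y ∈ B m) := by
      intro k hk
      simp only [Finset.mem_map, Finset.mem_filter, Finset.mem_range,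
        Function.Embedding.coeFn_mk] at hk
      obtain ⟨m, ⟨hm1, hm2⟩, rfl⟩ := hk
      simp only [Finset.mem_insert, Finset.mem_filter, Finset.mem_range]
      by_cases e : m = N
      · left; omega
      · right; exact ⟨by omega, h m hm2⟩
    have h2 := (Finset.card_le_card this).trans (Finset.card_insert_le _ _)
    rwa [Finset.card_map] at h2
  have czero : ∀ x, x ∉ B N → c x = 0 := fun x hx => by
    simp only [c, Finset.card_eq_zero, Finset.filter_eq_empty_iff, Finset.mem_range]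
    intro m hm hxm
    exact hx (Bmono (by omega : m ≤ N) hxm)
  let Z : Type := B (N + 1)
  haveI : Finite Z := (Bfin (N + 1)).to_subtype
  let p : Z → Prop := fun z => z.1 ∈ B N ∨ t * z.1 ∈ B N
  let q : Z → Prop := fun z => t⁻¹ * z.1 ∈ B N ∨ z.1 ∈ B N
  let e : {z // p z} ≃ {z // q z} :=
    { toFun := fun z => ⟨⟨t * z.1.1, z.2.elim (B2 N _) (B1 N _)⟩, by
        simpa [q] using z.2⟩
      invFun := fun z => ⟨⟨t⁻¹ * z.1.1, z.2.elim (B1 N _) (B3 N _)⟩, by
        simpa [p] using z.2⟩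
      left_inv := fun z => by ext; simp
      right_inv := fun z => by ext; simp }
  let β : H →* Equiv.Perm Z :=
    { toFun := fun h =>
        { toFun := fun z => ⟨h * z.1, BH _ h h.2 _ z.2⟩
          invFun := fun z => ⟨(h⁻¹ : H) * z.1, BH _ _ (h⁻¹).2 _ z.2⟩
          left_inv := fun z => Subtype.ext (by simp)
          right_inv := fun z => Subtype.ext (by simp) }
      map_one' := by ext z; simp
      map_mul' := fun a b => by ext z; simp [mul_assoc] }
  have hN1 : (0 : ℝ) < (N : ℝ) + 1 := by positivity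
  refine ⟨Z, inferInstance, Subtype.val, ⟨1, Bmono (Nat.zero_le _) Bone⟩, β, e.extendSubtype,
    fun z => (c z.1 : ℝ) / (N + 1), rfl, ?_, fun z => by positivity, fun z => ?_,
    fun h z => rfl, fun h z => ?_, fun z => ?_⟩
  · have : c 1 = N + 1 := by
      simp only [c]
      rw [Finset.filter_true_of_mem, Finset.card_range]
      intro m _
      exact Bmono (Nat.zero_le _) Bone
    simp only [this]
    push_cast
    field_simp
  · rw [div_le_one hN1]
    exact_mod_cast cle z.1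
  · have : c (β h z).1 = c z.1 := by
      simp only [c]
      congr 1
      ext m
      simp only [Finset.mem_filter]
      exact and_congr_right fun _ => BH' m h h.2 z.1
    simp only [this]
  · by_cases hz : p z
    · left
      have e1 : (e.extendSubtype z).1 = t * z.1 := by
        rw [e.extendSubtype_apply_of_mem z hz]; rfl
      refine ⟨e1, ?_⟩
      beta_reduce
      rw [e1, ← sub_div, abs_div, abs_of_pos hN1]
      refine le_trans (div_le_div_of_nonneg_right ?_ hN1.le) hN.le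
      have a1 := cstep z.1 (t * z.1) fun m hm => B2 m _ hm
      have a2 := cstep (t * z.1) z.1 fun m hm => by simpa using B3 m _ hm
      have a1' : (c z.1 : ℝ) ≤ c (t * z.1) + 1 := by exact_mod_cast a1
      have a2' : (c (t * z.1) : ℝ) ≤ c z.1 + 1 := by exact_mod_cast a2
      rw [abs_le]
      constructor <;> linarith
    · right
      have h2 := e.extendSubtype_not_mem z hz
      simp only [p, q, not_or] at hz h2
      simp [czero _ hz.1, czero _ h2.2]

/-- An index set with the discrete topology. -/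
structure Idx (Ω Z : Type) : Type where
  /-- base point -/
  fst : Ω
  /-- position -/
  snd : Z

instance (Ω Z : Type) : TopologicalSpace (Idx Ω Z) := ⊥
instance (Ω Z : Type) : DiscreteTopology (Idx Ω Z) := ⟨rfl⟩

/-- Composition with a permutation of the second coordinate. -/
def shift (Ω : Type) {Z : Type} (σ : Equiv.Perm Z) : C(Idx Ω Z, Idx Ω Z) :=
  ⟨fun i => ⟨i.1, σ i.2⟩, continuous_of_discreteTopology⟩

/-- The permutation action on bounded functions. -/
noncomputable def permAct (Ω Z : Type) :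
    Equiv.Perm Z →* ((Idx Ω Z →ᵇ ℝ) ≃ₗᵢ[ℝ] (Idx Ω Z →ᵇ ℝ)) where
  toFun σ :=
    { toFun := fun f => f.compContinuous (shift Ω σ⁻¹)
      invFun := fun f => f.compContinuous (shift Ω σ)
      map_add' := fun f g => rfl
      map_smul' := fun c f => rfl
      left_inv := fun f => by ext i; simp [shift]
      right_inv := fun f => by ext i; simp [shift]
      norm_map' := fun f => by
        apply le_antisymm (norm_compContinuous_le _ _)
        have : f = (f.compContinuous (shift Ω σ⁻¹)).compContinuous (shift Ω σ) := by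
          ext i; simp [shift]
        conv_lhs => rw [this]
        exact norm_compContinuous_le _ _ }
  map_one' := by ext f i; rfl
  map_mul' σ τ := by ext f i; rfl

lemma permAct_apply {Ω Z : Type} (σ : Equiv.Perm Z) (f : Idx Ω Z →ᵇ ℝ) (ω : Ω) (z : Z) :
    permAct Ω Z σ f ⟨ω, σ z⟩ = f ⟨ω, z⟩ := by
  change f ⟨ω, σ⁻¹ (σ z)⟩ = f ⟨ω, z⟩
  simp

/-- The embedding given by a norming family of weighted functionals. -/
lemma exists_embed {Ω Z Y : Type} [NormedAddCommGroup Y] [NormedSpace ℝ Y]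
    (w : Z → ℝ) (w0 : ∀ z, 0 ≤ w z) (w1 : ∀ z, w z ≤ 1) (U : Ω → Z → DB Y)
    (z0 : Z) (hz0 : w z0 = 1) (hU : ∀ u, ∃ ω, U ω z0 = u) :
    ∃ j : Y →ₗᵢ[ℝ] (Idx Ω Z →ᵇ ℝ), ∀ y ω z, j y ⟨ω, z⟩ = w z * (U ω z).1 y := by
  have bd : ∀ (y : Y) (i : Idx Ω Z), ‖w i.2 * (U i.1 i.2).1 y‖ ≤ ‖y‖ := fun y i => by
    rw [Real.norm_eq_abs, abs_mul, abs_of_nonneg (w0 _)]
    exact (mul_le_of_le_one_left (abs_nonneg _) (w1 _)).trans ((U i.1 i.2).2 y)
  refine ⟨{ toFun := fun y => ofNormedAddCommGroupDiscrete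
              (fun i : Idx Ω Z => w i.2 * (U i.1 i.2).1 y) ‖y‖ (bd y)
            map_add' := fun x y => by ext i; simp [mul_add]
            map_smul' := fun c x => by ext i; simp; ring
            norm_map' := fun y => ?_ }, fun y ω z => rfl⟩
  apply le_antisymm
  · exact (norm_le (norm_nonneg y)).2 (bd y)
  · obtain ⟨k, hk⟩ := exists_norming y
    obtain ⟨ω, hω⟩ := hU k
    refine le_trans ?_ (norm_coe_le_norm _ (⟨ω, z0⟩ : Idx Ω Z))
    change ‖y‖ ≤ ‖w z0 * (U ω z0).1 y‖
    rw [hz0, hω, hk, one_mul, norm_norm]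

end Pool.Agent.H317Z.Gur
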