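import Pool.Agent.H317Z.GurStep

set_option autoImplicit false

namespace Pool.Agent.H317Z.Gur

open Set Filter Topology

variable {G : Type} [NormedAddCommGroup G] [NormedSpace ℝ G]

lemma Gam_mono : Monotone Gam := fun _ _ h =>
  Subgroup.closure_mono (image_mono fun _ hi => lt_of_lt_of_le hi h)

lemma Gam_eventually (w : FreeGroup ℕ) : ∀ᶠ n in atTop, w ∈ Gam n := by
  induction w using FreeGroup.induction_on with
  | C1 => exact Eventually.of_forall fun n => (Gam n).one_mem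
  | of i =>
    filter_upwards [eventually_gt_atTop i] with n hn
    exact Subgroup.subset_closure ⟨i, hn, rfl⟩
  | inv_of i h => filter_upwards [h] with n hn using (Gam n).inv_mem hn
  | mul x y hx hy => filter_upwards [hx, hy] with n h1 h2 using (Gam n).mul_mem h1 h2

/-- The free vector space on words and marks. -/
abbrev V : Type := (FreeGroup ℕ × ℕ) →₀ ℝ

/-- The action of words on `V`. -/
noncomputable def act (u : FreeGroup ℕ) : V ≃ₗ[ℝ] V :=
  Finsupp.domLCongr (Equiv.prodCongr (Equiv.mulLeft u) (Equiv.refl ℕ))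

lemma act_single (u w : FreeGroup ℕ) (i : ℕ) (c : ℝ) :
    act u (Finsupp.single (w, i) c) = Finsupp.single (u * w, i) c := by
  simp [act]

lemma act_mul (u u' : FreeGroup ℕ) (v : V) : act (u * u') v = act u (act u' v) := by
  induction v using Finsupp.induction_linear with
  | zero => simp
  | add f g hf hg => simp only [map_add, hf, hg]
  | single p c => obtain ⟨w, i⟩ := p; simp only [act_single, mul_assoc]

/-- The part of `V` seen at stage `n`. -/
noncomputable def Vn (n : ℕ) : Submodule ℝ V :=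
  Submodule.span ℝ {v | ∃ w ∈ Gam n, ∃ i < n, v = Finsupp.single (w, i) 1}

lemma Vn_mono : Monotone Vn := fun _ _ h => Submodule.span_mono (by
  rintro _ ⟨w, hw, i, hi, rfl⟩
  exact ⟨w, Gam_mono h hw, i, lt_of_lt_of_le hi h, rfl⟩)

lemma Vn_eventually (v : V) : ∀ᶠ n in atTop, v ∈ Vn n := by
  induction v using Finsupp.induction_linear with
  | zero => exact Eventually.of_forall fun n => (Vn n).zero_mem
  | add f g hf hg => filter_upwards [hf, hg] with n h1 h2 using (Vn n).add_mem h1 h2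
  | single p c =>
    obtain ⟨w, i⟩ := p
    filter_upwards [Gam_eventually w, eventually_gt_atTop i] with n h1 h2
    have : (Finsupp.single (w, i) c : V) = c • Finsupp.single (w, i) 1 := by simp
    rw [this]
    exact (Vn n).smul_mem c (Submodule.subset_span ⟨w, h1, i, h2, rfl⟩)

lemma act_mem {n : ℕ} {u : FreeGroup ℕ} (hu : u ∈ Gam n) {v : V} (hv : v ∈ Vn n) :
    act u v ∈ Vn n := by
  induction hv using Submodule.span_induction with
  | mem x hx =>
    obtain ⟨w, hw, i, hi, rfl⟩ := hx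
    rw [act_single]
    exact Submodule.subset_span ⟨u * w, (Gam n).mul_mem hu hw, i, hi, rfl⟩
  | zero => simp
  | add x y _ _ hx hy => rw [map_add]; exact (Vn n).add_mem hx hy
  | smul c x _ hx => rw [map_smul]; exact (Vn n).smul_mem c hx

/-- Evaluation at a stage. -/
noncomputable def Stage.L {ε : ℝ} (S : Stage G ε) : V →ₗ[ℝ] S.X :=
  Finsupp.linearCombination ℝ fun p : FreeGroup ℕ × ℕ => S.ρ p.1 (S.pt p.2)

lemma Stage.L_single {ε : ℝ} (S : Stage G ε) (w : FreeGroup ℕ) (i : ℕ) (c : ℝ) :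
    S.L (Finsupp.single (w, i) c) = c • S.ρ w (S.pt i) := by
  simp [Stage.L]

lemma Stage.L_act {ε : ℝ} (S : Stage G ε) (u : FreeGroup ℕ) (v : V) :
    S.L (act u v) = S.ρ u (S.L v) := by
  induction v using Finsupp.induction_linear with
  | zero => simp
  | add f g hf hg => simp only [map_add, hf, hg]
  | single p c =>
    obtain ⟨w, i⟩ := p
    simp [act_single, Stage.L_single]

lemma Stage.L_mem {ε : ℝ} (S : Stage G ε) (v : V) : S.L v ∈ S.Q := by
  induction v using Finsupp.induction_linear with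
  | zero => simp
  | add f g hf hg => rw [map_add]; exact S.Q.add_mem hf hg
  | single p c =>
    obtain ⟨w, i⟩ := p
    rw [Stage.L_single]
    exact S.Q.smul_mem c (S.inv _ _ (S.pt_mem i))

lemma Link.facts {ε ε' : ℝ} {S : Stage G ε} {S' : Stage G ε'} {n : ℕ} {g : G ≃ₗᵢ[ℝ] G} {d : G}
    (h : Link S S' n g d) :
    (∀ v ∈ Vn n, ‖S'.L v‖ = ‖S.L v‖ ∧ ‖S'.ψ (S'.L v) - S.ψ (S.L v)‖ ≤ 2 * ε * ‖S.L v‖ ∧
      ‖S'.ψ (S'.L (act (FreeGroup.of n) v)) - g (S.ψ (S.L v))‖ ≤ 6 * ε * ‖S.L v‖) ∧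
    (∀ w ∈ Gam n, S.ρ w = 1 → S'.ρ w = 1) ∧
    S'.ψ (S'.L (Finsupp.single (1, n) 1)) = d ∧ ‖S'.L (Finsupp.single (1, n) 1)‖ = ‖d‖ := by
  obtain ⟨j, h1, h2, h3, h4, h5, h6, h7⟩ := h
  have e : ∀ v ∈ Vn n, S'.L v = j (S.L v) := by
    intro v hv
    induction hv using Submodule.span_induction with
    | mem x hx =>
      obtain ⟨w, hw, i, hi, rfl⟩ := hx
      rw [Stage.L_single, Stage.L_single, one_smul, one_smul, h1 w hw, h3 i (ne_of_lt hi)]
    | zero => simp
    | add x y _ _ hx hy => simp only [map_add, hx, hy]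
    | smul c x _ hx => simp only [map_smul, hx]
  refine ⟨fun v hv => ⟨?_, ?_, ?_⟩, h2, ?_, ?_⟩
  · rw [e v hv, j.norm_map]
  · rw [e v hv]; exact h6 _ (S.L_mem v)
  · rw [Stage.L_act, e v hv]; exact h7 _ (S.L_mem v)
  · simpa [Stage.L_single] using h4
  · simpa [Stage.L_single] using h5

/-- The trivial stage. -/
noncomputable def stage0 (G : Type) [NormedAddCommGroup G] [NormedSpace ℝ G] (ε : ℝ) :
    Stage G ε where
  X := ℝ
  ρ := 1
  fin := (Set.finite_singleton 1).subset (by rintro _ ⟨w, rfl⟩; rfl)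
  Q := ⊥
  fd := inferInstance
  inv := fun w q hq => by simpa using hq
  ψ := 0
  iso := fun q hq => by
    rw [(Submodule.mem_bot ℝ).1 hq]; simp
  pt := fun _ => 0
  pt_mem := fun _ => Submodule.zero_mem _

lemma exists_dense_iso [TopologicalSpace.SeparableSpace G] :
    ∃ gs : ℕ → (G ≃ₗᵢ[ℝ] G), ∀ (g : G ≃ₗᵢ[ℝ] G) (s : Finset G) (ε : ℝ), 0 < ε →
      ∃ k, ∀ x ∈ s, ‖gs k x - g x‖ < ε := by
  haveI : SecondCountableTopology G := UniformSpace.secondCountable_of_separable G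
  let D := TopologicalSpace.denseSeq G
  have hD : DenseRange D := TopologicalSpace.denseRange_denseSeq G
  let E : (G ≃ₗᵢ[ℝ] G) → (ℕ → G) := fun g i => g (D i)
  haveI : Nonempty (range E) := ⟨⟨E 1, 1, rfl⟩⟩
  let A := TopologicalSpace.denseSeq (range E)
  have hA : DenseRange A := TopologicalSpace.denseRange_denseSeq _
  refine ⟨fun k => (A k).2.choose, fun g s ε hε => ?_⟩
  have hx : ∀ x : G, ∃ i, ‖x - D i‖ < ε / 3 := fun x => by
    obtain ⟨i, hi⟩ := hD.exists_dist_lt x (by linarith : 0 < ε / 3)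
    exact ⟨i, by rwa [dist_eq_norm] at hi⟩
  choose i hi using hx
  let U : Set (range E) := ⋂ x ∈ s, {a | ‖a.1 (i x) - g (D (i x))‖ < ε / 3}
  have hU : IsOpen U := isOpen_biInter_finset fun x _ =>
    isOpen_lt ((((continuous_apply (i x)).comp continuous_subtype_val).sub continuous_const).norm)
      continuous_const
  obtain ⟨k, hk⟩ := hA.exists_mem_open hU ⟨⟨E g, g, rfl⟩, by
    simp only [U, mem_iInter]
    intro x _
    simp [E]
    linarith⟩
  refine ⟨k, fun x hx => ?_⟩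
  have h1 : ‖(A k).1 (i x) - g (D (i x))‖ < ε / 3 := by
    simp only [U, mem_iInter] at hk
    exact hk x hx
  set g' := (A k).2.choose with hg'
  have h2 : (A k).1 (i x) = g' (D (i x)) := by
    rw [← (A k).2.choose_spec]
  rw [h2] at h1
  have h3 : ‖g' x - g' (D (i x))‖ < ε / 3 := by rw [← map_sub, g'.norm_map]; exact hi x
  have h4 : ‖g (D (i x)) - g x‖ < ε / 3 := by
    rw [← map_sub, g.norm_map, norm_sub_rev]; exact hi x
  have := norm_sub_le_norm_sub_add_norm_sub (g' x) (g' (D (i x))) (g x)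
  have := norm_sub_le_norm_sub_add_norm_sub (g' (D (i x))) (g (D (i x))) (g x)
  linarith

theorem main [CompleteSpace G] [TopologicalSpace.SeparableSpace G]
    (hG : ∀ (F : Type) [NormedAddCommGroup F] [NormedSpace ℝ F] [FiniteDimensional ℝ F]
      (E : Submodule ℝ F) (T : E →ₗᵢ[ℝ] G) (ε : ℝ), 0 < ε →
      ∃ S : F →ₗ[ℝ] G, (∀ x : E, S (x : F) = T x) ∧
        ∀ x : F, (1 - ε) * ‖x‖ ≤ ‖S x‖ ∧ ‖S x‖ ≤ (1 + ε) * ‖x‖) :
    ∃ H : Subgroup (G ≃ₗᵢ[ℝ] G),
      (∀ s : Finset (G ≃ₗᵢ[ℝ] G),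
          (↑s : Set (G ≃ₗᵢ[ℝ] G)) ⊆ (H : Set (G ≃ₗᵢ[ℝ] G)) →
          ((Subgroup.closure (↑s : Set (G ≃ₗᵢ[ℝ] G)) : Subgroup (G ≃ₗᵢ[ℝ] G)) :
            Set (G ≃ₗᵢ[ℝ] G)).Finite) ∧
      (∀ g : G ≃ₗᵢ[ℝ] G, ∀ s : Finset G, ∀ ε : ℝ, 0 < ε →
          ∃ h ∈ H, ∀ x ∈ s, ‖h x - g x‖ < ε) := by
  classical
  obtain ⟨gs, hgs⟩ := exists_dense_iso (G := G)
  let D := TopologicalSpace.denseSeq G
  have hD : DenseRange D := TopologicalSpace.denseRange_denseSeq G
  let e : ℕ → ℝ := fun n => (1 / 2) ^ n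
  have e0 : ∀ n, 0 < e n := fun n => by positivity
  have e1 : ∀ n, e n ≤ 1 := fun n => pow_le_one₀ (by norm_num) (by norm_num)
  have es : ∀ n, e (n + 1) = e n / 2 := fun n => by simp only [e]; ring
  have elim : Tendsto e atTop (𝓝 0) :=
    tendsto_pow_atTop_nhds_zero_of_lt_one (by norm_num) (by norm_num)
  have step := fun (n : ℕ) (S : Stage G (e n)) =>
    exists_step hG (e0 n) (e1 n) (e0 (n + 1)) (e1 (n + 1)) S n (gs (Nat.unpair n).1)
      (D (Nat.unpair n).1)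
  choose nxt hnxt using step
  obtain ⟨S, hS⟩ : ∃ S : (n : ℕ) → Stage G (e n), ∀ n, S (n + 1) = nxt n (S n) :=
    ⟨fun n => Nat.rec (motive := fun n => Stage G (e n)) (stage0 G _) nxt n, fun _ => rfl⟩
  have link : ∀ n, Link (S n) (S (n + 1)) n (gs (Nat.unpair n).1) (D (Nat.unpair n).1) :=
    fun n => hS n ▸ hnxt n (S n)
  let Φ : ℕ → V →ₗ[ℝ] G := fun n => (S n).ψ ∘ₗ (S n).L
  have Pc : ∀ n, ∀ v ∈ Vn n, ∀ m, ‖(S (n + m)).L v‖ = ‖(S n).L v‖ := by
    intro n v hv m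
    induction m with
    | zero => rfl
    | succ m ih =>
      rw [← ih]
      exact ((link (n + m)).facts.1 v (Vn_mono (Nat.le_add_right n m) hv)).1
  have geo : ∀ n, ∀ v ∈ Vn n, ∀ m, dist (Φ (n + m) v) (Φ (n + (m + 1)) v)
      ≤ (2 * e n * ‖(S n).L v‖) * (1 / 2) ^ m := by
    intro n v hv m
    have := ((link (n + m)).facts.1 v (Vn_mono (Nat.le_add_right n m) hv)).2.1
    rw [Pc n v hv m] at this
    rw [dist_comm, dist_eq_norm]
    refine this.trans (le_of_eq ?_)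
    simp only [e, pow_add]; ring
  have conv : ∀ v, ∃ y, Tendsto (fun m => Φ m v) atTop (𝓝 y) := fun v => by
    obtain ⟨n, hn⟩ := (Vn_eventually v).exists
    obtain ⟨y, hy⟩ := cauchySeq_tendsto_of_complete
      (cauchySeq_of_le_geometric (1 / 2) _ (by norm_num) (geo n v hn))
    refine ⟨y, (tendsto_add_atTop_iff_nat n).1 ?_⟩
    simpa only [add_comm] using hy
  choose f hf using conv
  let Ψ : V →ₗ[ℝ] G := linearMapOfTendsto f Φ (tendsto_pi_nhds.2 hf)
  have hΨ : ∀ v, Tendsto (fun m => Φ m v) atTop (𝓝 (Ψ v)) := hf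
  have hΨ' : ∀ n v, Tendsto (fun m => Φ (n + m) v) atTop (𝓝 (Ψ v)) := fun n v => by
    simpa only [add_comm] using (tendsto_add_atTop_iff_nat n).2 (hΨ v)
  have near : ∀ n, ∀ v ∈ Vn n, ‖Φ n v - Ψ v‖ ≤ 4 * e n * ‖(S n).L v‖ := fun n v hv => by
    have := dist_le_of_le_geometric_of_tendsto₀ (1 / 2) _ (by norm_num) (geo n v hv) (hΨ' n v)
    rw [dist_eq_norm] at this
    refine this.trans (le_of_eq ?_)
    ring
  have nrm : ∀ n, ∀ v ∈ Vn n, ‖Ψ v‖ = ‖(S n).L v‖ := fun n v hv => by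
    have l : Tendsto (fun m => e (n + m)) atTop (𝓝 0) := by
      simpa only [add_comm] using (tendsto_add_atTop_iff_nat n).2 elim
    have l1 : Tendsto (fun m => (1 - e (n + m)) * ‖(S n).L v‖) atTop (𝓝 ‖(S n).L v‖) := by
      simpa using (l.const_sub 1).mul_const ‖(S n).L v‖
    have l2 : Tendsto (fun m => (1 + e (n + m)) * ‖(S n).L v‖) atTop (𝓝 ‖(S n).L v‖) := by
      simpa using (l.const_add 1).mul_const ‖(S n).L v‖
    refine tendsto_nhds_unique (hΨ' n v).norm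
      (tendsto_of_tendsto_of_tendsto_of_le_of_le l1 l2 (fun m => ?_) (fun m => ?_))
    · rw [← Pc n v hv m]; exact ((S (n + m)).iso _ ((S (n + m)).L_mem v)).1
    · rw [← Pc n v hv m]; exact ((S (n + m)).iso _ ((S (n + m)).L_mem v)).2
  have inv : ∀ u v, ‖Ψ (act u v)‖ = ‖Ψ v‖ := fun u v => by
    obtain ⟨n, h1, h2⟩ := ((Vn_eventually v).and (Vn_eventually (act u v))).exists
    rw [nrm n _ h1, nrm n _ h2, Stage.L_act, LinearIsometryEquiv.norm_map]
  have big : ∀ k N, ∃ n, N ≤ n ∧ (Nat.unpair n).1 = k := fun k N =>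
    ⟨Nat.pair k N, Nat.right_le_pair _ _, by simp⟩
  have dense : DenseRange Ψ := by
    refine Metric.denseRange_iff.2 fun x r hr => ?_
    obtain ⟨k, hk⟩ := hD.exists_dist_lt x (half_pos hr)
    have l : Tendsto (fun n => 4 * e (n + 1) * ‖D k‖) atTop (𝓝 0) := by
      simpa using (((tendsto_add_atTop_iff_nat 1).2 elim).const_mul 4).mul_const ‖D k‖
    obtain ⟨N, hN⟩ := eventually_atTop.1 (l.eventually (gt_mem_nhds (half_pos hr)))
    obtain ⟨n, hn, hk'⟩ := big k N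
    refine ⟨Finsupp.single (1, n) 1, ?_⟩
    have m : (Finsupp.single (1, n) 1 : V) ∈ Vn (n + 1) :=
      Submodule.subset_span ⟨1, (Gam _).one_mem, n, Nat.lt_succ_self n, rfl⟩
    have a := near (n + 1) _ m
    obtain ⟨-, -, b, c⟩ := (link n).facts
    rw [hk'] at b c
    rw [c] at a
    have b' : Φ (n + 1) (Finsupp.single (1, n) 1) = D k := b
    rw [b', ← dist_eq_norm] at a
    have := dist_triangle x (D k) (Ψ (Finsupp.single (1, n) 1))
    have := hN n hn
    linarith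
  have ext : ∀ a b : G ≃ₗᵢ[ℝ] G, (∀ v, a (Ψ v) = b (Ψ v)) → a = b := fun a b h =>
    LinearIsometryEquiv.ext fun x =>
      congrFun (dense.equalizer a.continuous b.continuous (funext h)) x
  let T0 : FreeGroup ℕ → (G ≃ₗᵢ[ℝ] G) := fun u =>
    (act u).extendOfIsometry Ψ Ψ dense dense (inv u)
  have hT0 : ∀ u v, T0 u (Ψ v) = Ψ (act u v) := fun u v =>
    LinearEquiv.extendOfIsometry_eq _ _ _ dense dense (inv u) v
  let T : FreeGroup ℕ →* (G ≃ₗᵢ[ℝ] G) := MonoidHom.mk' T0 fun u u' => ext _ _ fun v => by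
    rw [hT0, act_mul, ← hT0, ← hT0]; rfl
  have hT : ∀ u v, T u (Ψ v) = Ψ (act u v) := hT0
  have ker : ∀ n, ∀ w ∈ Gam n, (S n).ρ w = 1 → T w = 1 := by
    intro n w hw h
    have k : ∀ m, (S (n + m)).ρ w = 1 := fun m => by
      induction m with
      | zero => exact h
      | succ m ih =>
        exact (link (n + m)).facts.2.1 w (Gam_mono (Nat.le_add_right n m) hw) ih
    refine ext _ _ fun v => ?_
    rw [hT]
    refine tendsto_nhds_unique (hΨ' n (act w v)) ?_
    have : ∀ m, Φ (n + m) (act w v) = Φ (n + m) v := fun m => by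
      simp only [Φ, LinearMap.comp_apply, Stage.L_act, k m]; rfl
    simp only [this]
    exact hΨ' n v
  have finT : ∀ n, (T '' (Gam n : Set (FreeGroup ℕ))).Finite := fun n => by
    let F : ((S n).X ≃ₗᵢ[ℝ] (S n).X) → (G ≃ₗᵢ[ℝ] G) := fun φ =>
      if h : ∃ w ∈ Gam n, (S n).ρ w = φ then T h.choose else 1
    refine ((S n).fin.image F).subset ?_
    rintro _ ⟨w, hw, rfl⟩
    refine ⟨(S n).ρ w, ⟨w, rfl⟩, ?_⟩
    have h : ∃ w' ∈ Gam n, (S n).ρ w' = (S n).ρ w := ⟨w, hw, rfl⟩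
    simp only [F, dif_pos h]
    obtain ⟨h1, h2⟩ := h.choose_spec
    have := ker n (w⁻¹ * h.choose) ((Gam n).mul_mem ((Gam n).inv_mem hw) h1)
      (by rw [map_mul, map_inv, h2, inv_mul_cancel])
    rw [map_mul, map_inv, inv_mul_eq_one] at this
    exact this.symm
  have appr : ∀ n, ∀ v ∈ Vn n,
      ‖T (FreeGroup.of n) (Ψ v) - gs (Nat.unpair n).1 (Ψ v)‖ ≤ 12 * e n * ‖Ψ v‖ := by
    intro n v hv
    have m : act (FreeGroup.of n) v ∈ Vn (n + 1) :=
      act_mem (Subgroup.subset_closure ⟨n, Nat.lt_succ_self n, rfl⟩) (Vn_mono (Nat.le_succ n) hv)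
    have a1 := near (n + 1) _ m
    rw [← nrm _ _ m, inv, es, norm_sub_rev] at a1
    have a2 : ‖Φ (n + 1) (act (FreeGroup.of n) v) - gs (Nat.unpair n).1 (Φ n v)‖
        ≤ 6 * e n * ‖(S n).L v‖ := ((link n).facts.1 v hv).2.2
    have a3 : ‖gs (Nat.unpair n).1 (Φ n v) - gs (Nat.unpair n).1 (Ψ v)‖
        ≤ 4 * e n * ‖(S n).L v‖ := by
      rw [← map_sub, LinearIsometryEquiv.norm_map]; exact near n v hv
    rw [← nrm n v hv] at a2 a3
    rw [hT]
    have := norm_sub_le_norm_sub_add_norm_sub (Ψ (act (FreeGroup.of n) v))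
      (Φ (n + 1) (act (FreeGroup.of n) v)) (gs (Nat.unpair n).1 (Ψ v))
    have := norm_sub_le_norm_sub_add_norm_sub (Φ (n + 1) (act (FreeGroup.of n) v))
      (gs (Nat.unpair n).1 (Φ n v)) (gs (Nat.unpair n).1 (Ψ v))
    linarith
  have appr2 : ∀ x (r : ℝ), 0 < r → ∀ᶠ n in atTop,
      ‖T (FreeGroup.of n) x - gs (Nat.unpair n).1 x‖ < r := by
    intro x r hr
    obtain ⟨v, hv⟩ := dense.exists_dist_lt x (by linarith : 0 < r / 3)
    rw [dist_eq_norm] at hv
    have l : Tendsto (fun n => 12 * e n * ‖Ψ v‖) atTop (𝓝 0) := by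
      simpa using (elim.const_mul 12).mul_const ‖Ψ v‖
    filter_upwards [Vn_eventually v, l.eventually (gt_mem_nhds (by linarith : 0 < r / 3))]
      with n h1 h2
    have a1 := appr n v h1
    have a2 : ‖T (FreeGroup.of n) x - T (FreeGroup.of n) (Ψ v)‖ < r / 3 := by
      rw [← map_sub, LinearIsometryEquiv.norm_map]; exact hv
    have a3 : ‖gs (Nat.unpair n).1 (Ψ v) - gs (Nat.unpair n).1 x‖ < r / 3 := by
      rw [← map_sub, LinearIsometryEquiv.norm_map, norm_sub_rev]; exact hv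
    have := norm_sub_le_norm_sub_add_norm_sub (T (FreeGroup.of n) x) (T (FreeGroup.of n) (Ψ v))
      (gs (Nat.unpair n).1 x)
    have := norm_sub_le_norm_sub_add_norm_sub (T (FreeGroup.of n) (Ψ v))
      (gs (Nat.unpair n).1 (Ψ v)) (gs (Nat.unpair n).1 x)
    linarith
  refine ⟨T.range, fun s hs => ?_, fun g s r hr => ?_⟩
  · have ev : ∀ᶠ n in atTop, ∀ a ∈ s, a ∈ (Gam n).map T := by
      rw [eventually_all_finset]
      intro a ha
      obtain ⟨w, rfl⟩ := hs ha
      filter_upwards [Gam_eventually w] with n hn using ⟨w, hn, rfl⟩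
    obtain ⟨n, hn⟩ := ev.exists
    refine (finT n).subset ?_
    have : Subgroup.closure (↑s : Set (G ≃ₗᵢ[ℝ] G)) ≤ (Gam n).map T :=
      (Subgroup.closure_le _).2 fun a ha => hn a ha
    exact this
  · obtain ⟨k, hk⟩ := hgs g s (r / 2) (half_pos hr)
    have ev : ∀ᶠ n in atTop, ∀ x ∈ s,
        ‖T (FreeGroup.of n) x - gs (Nat.unpair n).1 x‖ < r / 2 :=
      (eventually_all_finset s).2 fun x _ => appr2 x _ (half_pos hr)
    obtain ⟨N, hN⟩ := eventually_atTop.1 ev
    obtain ⟨n, hn, hk'⟩ := big k N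
    refine ⟨T (FreeGroup.of n), ⟨_, rfl⟩, fun x hx => ?_⟩
    have a1 := hN n hn x hx
    rw [hk'] at a1
    have := norm_sub_le_norm_sub_add_norm_sub (T (FreeGroup.of n) x) (gs k x) (g x)
    have := hk x hx
    linarith

end Pool.Agent.H317Z.Gur
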