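import Pool.Agent.H317Z.GurLemmas

set_option autoImplicit false

namespace Pool.Agent.H317Z.Gur

open Set BoundedContinuousFunction

/-- The words in the first `n` letters. -/
def Gam (n : ℕ) : Subgroup (FreeGroup ℕ) := Subgroup.closure (FreeGroup.of '' {i | i < n})

/-- One stage of the construction. -/
structure Stage (G : Type) [NormedAddCommGroup G] [NormedSpace ℝ G] (ε : ℝ) : Type 1 where
  /-- ambient space -/
  X : Type
  [ng : NormedAddCommGroup X]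
  [ns : NormedSpace ℝ X]
  /-- action -/
  ρ : FreeGroup ℕ →* (X ≃ₗᵢ[ℝ] X)
  fin : (Set.range ρ).Finite
  /-- invariant subspace -/
  Q : Submodule ℝ X
  fd : FiniteDimensional ℝ Q
  inv : ∀ w, ∀ q ∈ Q, ρ w q ∈ Q
  /-- almost isometric map -/
  ψ : X →ₗ[ℝ] G
  iso : ∀ q ∈ Q, (1 - ε) * ‖q‖ ≤ ‖ψ q‖ ∧ ‖ψ q‖ ≤ (1 + ε) * ‖q‖
  /-- marked points -/
  pt : ℕ → X
  pt_mem : ∀ i, pt i ∈ Q

attribute [instance] Stage.ng Stage.ns

variable {G : Type} [NormedAddCommGroup G] [NormedSpace ℝ G]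

/-- The relation between consecutive stages. -/
def Link {ε ε' : ℝ} (S : Stage G ε) (S' : Stage G ε') (n : ℕ) (g : G ≃ₗᵢ[ℝ] G) (d : G) : Prop :=
  ∃ j : S.X →ₗᵢ[ℝ] S'.X, (∀ w ∈ Gam n, ∀ x, j (S.ρ w x) = S'.ρ w (j x)) ∧
    (∀ w ∈ Gam n, S.ρ w = 1 → S'.ρ w = 1) ∧ (∀ i, i ≠ n → S'.pt i = j (S.pt i)) ∧
    S'.ψ (S'.pt n) = d ∧ ‖S'.pt n‖ = ‖d‖ ∧
    (∀ q ∈ S.Q, ‖S'.ψ (j q) - S.ψ q‖ ≤ 2 * ε * ‖q‖) ∧
    (∀ q ∈ S.Q, ‖S'.ψ (S'.ρ (FreeGroup.of n) (j q)) - g (S.ψ q)‖ ≤ 6 * ε * ‖q‖)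

theorem exists_ext
    (hG : ∀ (F : Type) [NormedAddCommGroup F] [NormedSpace ℝ F] [FiniteDimensional ℝ F]
      (E : Submodule ℝ F) (T : E →ₗᵢ[ℝ] G) (ε : ℝ), 0 < ε →
      ∃ S : F →ₗ[ℝ] G, (∀ x : E, S (x : F) = T x) ∧
        ∀ x : F, (1 - ε) * ‖x‖ ≤ ‖S x‖ ∧ ‖S x‖ ≤ (1 + ε) * ‖x‖)
    {X : Type} [NormedAddCommGroup X] [NormedSpace ℝ X] (Q' : Submodule ℝ X)
    [FiniteDimensional ℝ Q'] (B : Submodule ℝ G) (κ : G →ₗᵢ[ℝ] X) (κQ : ∀ b ∈ B, κ b ∈ Q')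
    {ε' : ℝ} (h0' : 0 < ε') :
    ∃ ψ' : X →ₗ[ℝ] G, (∀ b ∈ B, ψ' (κ b) = b) ∧
      ∀ q ∈ Q', (1 - ε') * ‖q‖ ≤ ‖ψ' q‖ ∧ ‖ψ' q‖ ≤ (1 + ε') * ‖q‖ := by
  let κ' : B →ₗᵢ[ℝ] Q' :=
    { toLinearMap := LinearMap.codRestrict Q' (κ.toLinearMap ∘ₗ B.subtype) fun b => κQ b b.2
      norm_map' := fun b => κ.norm_map b }
  let T : (LinearMap.range κ'.toLinearMap) →ₗᵢ[ℝ] G :=
    B.subtypeₗᵢ.comp κ'.equivRange.symm.toLinearIsometry
  obtain ⟨ψ0, hψ1, hψ2⟩ := hG Q' (LinearMap.range κ'.toLinearMap) T ε' h0'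
  obtain ⟨ψ', hψ'⟩ := LinearMap.exists_extend ψ0
  have ψeq : ∀ f (hf : f ∈ Q'), ψ' f = ψ0 ⟨f, hf⟩ := fun f hf => by
    rw [← hψ']; rfl
  have ψκ : ∀ b ∈ B, ψ' (κ b) = b := fun b hb => by
    rw [ψeq _ (κQ b hb)]
    have := hψ1 (κ'.equivRange ⟨b, hb⟩)
    simp only [T, LinearIsometry.coe_comp, Function.comp_apply,
      LinearIsometryEquiv.coe_toLinearIsometry, LinearIsometryEquiv.symm_apply_apply] at this
    exact this
  have iso' : ∀ q ∈ Q', (1 - ε') * ‖q‖ ≤ ‖ψ' q‖ ∧ ‖ψ' q‖ ≤ (1 + ε') * ‖q‖ := fun q hq => by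
    rw [ψeq q hq]; exact hψ2 ⟨q, hq⟩
  exact ⟨ψ', ψκ, iso'⟩

theorem exists_step
    (hG : ∀ (F : Type) [NormedAddCommGroup F] [NormedSpace ℝ F] [FiniteDimensional ℝ F]
      (E : Submodule ℝ F) (T : E →ₗᵢ[ℝ] G) (ε : ℝ), 0 < ε →
      ∃ S : F →ₗ[ℝ] G, (∀ x : E, S (x : F) = T x) ∧
        ∀ x : F, (1 - ε) * ‖x‖ ≤ ‖S x‖ ∧ ‖S x‖ ≤ (1 + ε) * ‖x‖)
    {ε ε' : ℝ} (h0 : 0 < ε) (h1 : ε ≤ 1) (h0' : 0 < ε') (h1' : ε' ≤ 1) (S : Stage G ε) (n : ℕ)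
    (g : G ≃ₗᵢ[ℝ] G) (d : G) : ∃ S' : Stage G ε', Link S S' n g d := by
  classical
  haveI := S.fd
  let St : Type := {p : DB S.X × DB G // ∀ q ∈ S.Q, |p.2.1 (S.ψ q) - p.1.1 q| ≤ ε * ‖q‖}
  let π1 : St → DB S.X := fun p => p.1.1
  let π2 : St → DB G := fun p => p.1.2
  have s1 : Function.Surjective π1 := by
    intro u
    obtain ⟨k, hk⟩ := hb (S.ψ ∘ₗ S.Q.subtype) ((1 - ε) • (u.1 ∘ₗ S.Q.subtype)) (fun q => by
      simp only [LinearMap.smul_apply, LinearMap.comp_apply, Submodule.subtype_apply, smul_eq_mul]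
      rw [abs_mul, abs_of_nonneg (by linarith)]
      exact (mul_le_mul_of_nonneg_left (u.2 q) (by linarith)).trans (S.iso q q.2).1)
    refine ⟨⟨(u, k), fun q hq => ?_⟩, rfl⟩
    have := hk ⟨q, hq⟩
    simp only [LinearMap.smul_apply, LinearMap.comp_apply, Submodule.subtype_apply,
      smul_eq_mul] at this
    simp only [this]
    have e : (1 - ε) * u.1 q - u.1 q = -(ε * u.1 q) := by ring
    rw [e, abs_neg, abs_mul, abs_of_pos h0]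
    exact mul_le_mul_of_nonneg_left (u.2 q) h0.le
  have s2 : Function.Surjective π2 := by
    intro k
    have hp : 0 < 1 + ε := by linarith
    have b : ∀ q ∈ S.Q, |(1 + ε)⁻¹ * k.1 (S.ψ q)| ≤ ‖q‖ := fun q hq => by
      rw [abs_mul, abs_of_pos (inv_pos.2 hp), inv_mul_le_iff₀ hp]
      exact (k.2 _).trans (S.iso q hq).2
    obtain ⟨u, hu⟩ := hb S.Q.subtype ((1 + ε)⁻¹ • (k.1 ∘ₗ S.ψ ∘ₗ S.Q.subtype)) (fun q => by
      simpa using b q q.2)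
    refine ⟨⟨(u, k), fun q hq => ?_⟩, rfl⟩
    have := hu ⟨q, hq⟩
    simp only [LinearMap.smul_apply, LinearMap.comp_apply, Submodule.subtype_apply,
      smul_eq_mul] at this
    simp only [this]
    have e : k.1 (S.ψ q) - (1 + ε)⁻¹ * k.1 (S.ψ q) = ε * ((1 + ε)⁻¹ * k.1 (S.ψ q)) := by
      field_simp; ring
    rw [e, abs_mul, abs_of_pos h0]
    exact mul_le_mul_of_nonneg_left (b q hq) h0.le
  obtain ⟨L1, hL1⟩ := exists_lift π1 s1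
  obtain ⟨L2, hL2⟩ := exists_lift π2 s2
  let Ω : Type := St × (ℕ ⊕ St)
  let α : FreeGroup ℕ →* Equiv.Perm Ω := (L1.comp (dualAct S.X)).comp S.ρ
  have αfin : (α.range : Set (Equiv.Perm Ω)).Finite := by
    refine (S.fin.image (L1.comp (dualAct S.X))).subset ?_
    rintro _ ⟨w, rfl⟩
    exact ⟨S.ρ w, ⟨w, rfl⟩, rfl⟩
  let t : Equiv.Perm Ω := L2 (dualAct G g)
  obtain ⟨Z, hZ, val, z0, β, τ, w, v0, wz0, w0, w1, hβ, hwβ, hτ⟩ :=
    exists_ball α.range αfin t ε h0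
  obtain ⟨j, hj⟩ := exists_embed (Ω := Ω) w w0 w1 (fun ω z => π1 (val z ω).1) z0 wz0 (fun u => by
    obtain ⟨s, hs⟩ := s1 u
    exact ⟨(s, Sum.inl 0), by simp [v0, hs]⟩)
  obtain ⟨κ, hκ⟩ := exists_embed (Ω := Ω) w w0 w1 (fun ω z => π2 (val z ω).1) z0 wz0 (fun u => by
    obtain ⟨s, hs⟩ := s2 u
    exact ⟨(s, Sum.inl 0), by simp [v0, hs]⟩)
  let R := permAct Ω Z
  have jeq : ∀ a x, j (S.ρ a x) = R (β (α.rangeRestrict a)) (j x) := by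
    intro a x
    ext ⟨ω, z⟩
    obtain ⟨z, rfl⟩ := (β (α.rangeRestrict a)).surjective z
    rw [permAct_apply, hj, hj, hwβ, hβ]
    congr 1
    change (π1 (L1 (dualAct S.X (S.ρ a)) (val z ω)).1).1 _ = _
    rw [hL1, dualAct_apply]
  have jκ : ∀ q ∈ S.Q, ‖j q - κ (S.ψ q)‖ ≤ ε * ‖q‖ := by
    intro q hq
    rw [norm_le (by positivity)]
    rintro ⟨ω, z⟩
    rw [coe_sub, Pi.sub_apply, hj, hκ, ← mul_sub, Real.norm_eq_abs, abs_mul, abs_of_nonneg (w0 z),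
      abs_sub_comm]
    exact (mul_le_of_le_one_left (abs_nonneg _) (w1 z)).trans ((val z ω).1.2 q hq)
  have τκ : ∀ x, ‖R τ (κ x) - κ (g x)‖ ≤ ε * ‖x‖ := by
    intro x
    rw [norm_le (by positivity)]
    rintro ⟨ω, z⟩
    obtain ⟨z, rfl⟩ := τ.surjective z
    rw [coe_sub, Pi.sub_apply, permAct_apply, hκ, hκ]
    rcases hτ z with ⟨e1, e2⟩ | ⟨e1, e2⟩
    · have : (π2 (val (τ z) ω).1).1 (g x) = (π2 (val z ω).1).1 x := by
        rw [e1]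
        change (π2 (L2 (dualAct G g) (val z ω)).1).1 _ = _
        rw [hL2, dualAct_apply]
      rw [this, ← sub_mul, Real.norm_eq_abs, abs_mul, abs_sub_comm]
      exact mul_le_mul e2 ((π2 (val z ω).1).2 x) (abs_nonneg _) h0.le
    · rw [e1, e2]
      simp only [zero_mul, sub_zero, norm_zero]
      positivity
  let σ : FreeGroup ℕ →* Equiv.Perm Z :=
    FreeGroup.lift fun i => if i = n then τ else β (α.rangeRestrict (FreeGroup.of i))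
  have σn : σ (FreeGroup.of n) = τ := by simp [σ]
  have σeq : ∀ a ∈ Gam n, σ a = β (α.rangeRestrict a) := by
    intro a ha
    refine MonoidHom.eqOn_closure (f := σ) (g := β.comp α.rangeRestrict) ?_ ha
    rintro _ ⟨i, hi, rfl⟩
    have : i ≠ n := ne_of_lt hi
    simp [σ, this]
  let B : Submodule ℝ G := (S.Q.map S.ψ ⊔ Submodule.span ℝ {d}) ⊔
    (S.Q.map S.ψ).map g.toLinearEquiv.toLinearMap
  let M : Submodule ℝ (Idx Ω Z →ᵇ ℝ) := S.Q.map j.toLinearMap ⊔ B.map κ.toLinearMap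
  let Q' : Submodule ℝ (Idx Ω Z →ᵇ ℝ) :=
    ⨆ s : Equiv.Perm Z, M.map (R s).toLinearEquiv.toLinearMap
  haveI : FiniteDimensional ℝ B := inferInstance
  haveI : FiniteDimensional ℝ M := inferInstance
  haveI : FiniteDimensional ℝ Q' := Submodule.finiteDimensional_iSup _
  have Qinv : ∀ s, ∀ f ∈ Q', R s f ∈ Q' := by
    intro s f hf
    have : Q'.map (R s).toLinearEquiv.toLinearMap ≤ Q' := by
      simp only [Q', Submodule.map_iSup]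
      refine iSup_le fun s' => le_iSup_of_le (s * s') ?_
      rintro _ ⟨_, ⟨m, hm, rfl⟩, rfl⟩
      exact ⟨m, hm, by simp⟩
    exact this ⟨f, hf, rfl⟩
  have MQ : ∀ f ∈ M, f ∈ Q' := fun f hf =>
    Submodule.mem_iSup_of_mem (1 : Equiv.Perm Z) ⟨f, hf, by simp⟩
  have jQ : ∀ q ∈ S.Q, j q ∈ Q' := fun q hq => MQ _ (Submodule.mem_sup_left ⟨q, hq, rfl⟩)
  have κQ : ∀ b ∈ B, κ b ∈ Q' := fun b hb => MQ _ (Submodule.mem_sup_right ⟨b, hb, rfl⟩)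
  obtain ⟨ψ', ψκ, iso'⟩ := exists_ext hG Q' B κ κQ h0'
  have up : ∀ q ∈ Q', ‖ψ' q‖ ≤ 2 * ‖q‖ := fun q hq =>
    (iso' q hq).2.trans (mul_le_mul_of_nonneg_right (by linarith) (norm_nonneg _))
  have dB : d ∈ B := Submodule.mem_sup_left (Submodule.mem_sup_right (Submodule.subset_span rfl))
  have ψB : ∀ q ∈ S.Q, S.ψ q ∈ B := fun q hq =>
    Submodule.mem_sup_left (Submodule.mem_sup_left ⟨q, hq, rfl⟩)
  have gB : ∀ q ∈ S.Q, g (S.ψ q) ∈ B := fun q hq =>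
    Submodule.mem_sup_right ⟨_, ⟨q, hq, rfl⟩, rfl⟩
  let S' : Stage G ε' :=
    { X := Idx Ω Z →ᵇ ℝ
      ρ := R.comp σ
      fin := (Set.finite_range R).subset (by rintro _ ⟨a, rfl⟩; exact ⟨σ a, rfl⟩)
      Q := Q'
      fd := inferInstance
      inv := fun a q hq => Qinv _ q hq
      ψ := ψ'
      iso := iso'
      pt := fun i => if i = n then κ d else j (S.pt i)
      pt_mem := fun i => by
        split_ifs
        · exact κQ d dB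
        · exact jQ _ (S.pt_mem i) }
  refine ⟨S', j, fun a ha x => ?_, fun a ha h => ?_, fun i hi => ?_, ?_, ?_, fun q hq => ?_,
    fun q hq => ?_⟩
  · change _ = R (σ a) (j x)
    rw [σeq a ha, jeq]
  · change R (σ a) = 1
    have : α.rangeRestrict a = 1 := by
      apply Subtype.ext
      change L1 (dualAct S.X (S.ρ a)) = 1
      rw [h, map_one, map_one]
    rw [σeq a ha, this, map_one, map_one]
  · exact if_neg hi
  · change ψ' (if n = n then κ d else j (S.pt n)) = d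
    rw [if_pos rfl, ψκ d dB]
  · change ‖(if n = n then κ d else j (S.pt n))‖ = ‖d‖
    rw [if_pos rfl, κ.norm_map]
  · change ‖ψ' (j q) - S.ψ q‖ ≤ _
    conv_lhs => rw [← ψκ _ (ψB q hq), ← map_sub]
    refine (up _ (Q'.sub_mem (jQ q hq) (κQ _ (ψB q hq)))).trans ?_
    have := jκ q hq
    linarith
  · change ‖ψ' (R (σ (FreeGroup.of n)) (j q)) - g (S.ψ q)‖ ≤ _
    rw [σn]
    conv_lhs => rw [← ψκ _ (gB q hq), ← map_sub]
    refine (up _ (Q'.sub_mem (Qinv _ _ (jQ q hq)) (κQ _ (gB q hq)))).trans ?_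
    have a1 : ‖R τ (j q) - R τ (κ (S.ψ q))‖ ≤ ε * ‖q‖ := by
      rw [← map_sub, LinearIsometryEquiv.norm_map]; exact jκ q hq
    have a2 := τκ (S.ψ q)
    have a3 := norm_sub_le_norm_sub_add_norm_sub (R τ (j q)) (R τ (κ (S.ψ q))) (κ (g (S.ψ q)))
    have a4 : ‖S.ψ q‖ ≤ 2 * ‖q‖ :=
      (S.iso q hq).2.trans (mul_le_mul_of_nonneg_right (by linarith) (norm_nonneg _))
    have a5 := mul_le_mul_of_nonneg_left a4 h0.le
    linarith

end Pool.Agent.H317Z.Gur
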