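import Pool.Agent.H317Z.QMPrim

set_option autoImplicit false

namespace Pool.Agent.H317Z.QM

/-- the data of the construction: `ax e t a` says that the axiom `a` of the operator `e` is
enumerated by stage `t`; `cons e a` is its list of constraints; `ph j t w v` says that the
`j`-th function takes the value `v` at `w` by stage `t` -/
structure Data where
  ax : ℕ → ℕ → ℕ → Prop
  cons : ℕ → ℕ → List (ℕ × ℕ)
  arg : ℕ → ℕ
  val : ℕ → ℕ
  ph : ℕ → ℕ → ℕ → ℕ → Prop
  p_ax : PrimrecPred fun z : ℕ × ℕ × ℕ => ax z.1 z.2.1 z.2.2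
  p_cons : Primrec fun z : ℕ × ℕ => cons z.1 z.2
  p_arg : Primrec arg
  p_val : Primrec val
  p_ph : PrimrecPred fun z : (ℕ × ℕ) × ℕ × ℕ => ph z.1.1 z.1.2 z.2.1 z.2.2
  ax_mono : ∀ {e t t' a}, t ≤ t' → ax e t a → ax e t' a
  ax_lt : ∀ {e t a}, ax e t a → a < t
  ax_cons : ∀ {e t a}, ax e t a → ∀ p ∈ cons e a, p.1 < t
  ph_mono : ∀ {j t t' w v}, t ≤ t' → ph j t w v → ph j t' w v

namespace Data

variable (P : Data)

def Tr (e a : ℕ) (L : List (ℕ × ℕ)) : Prop :=
  ∀ p, p ∈ P.cons e a → ∀ q, q ∈ L → q.1 = p.1 → q.2 < p.2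

def Safe (e a s : ℕ) : Prop := ∀ p, p ∈ P.cons e a → p.1 < s → s ≤ p.2

def Spl (e u : ℕ) (L : List (ℕ × ℕ)) : Prop :=
  ∃ a, a < u ∧ ∃ b, b < u ∧ P.ax e u a ∧ P.ax e u b ∧ P.Tr e a L ∧ P.Tr e b L ∧
    P.arg a = P.arg b ∧ P.val a ≠ P.val b

end Data

def dd (H : List (List Bool)) (s i : ℕ) : Bool := (H.getD s []).getD i false

namespace Data

variable (P : Data)

def Test (H : List (List Bool)) (L : List (ℕ × ℕ)) (π : List Bool) : Prop :=
  ∀ s, s < H.length → (∀ i, i < π.length → dd H s i = π.getD i false) →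
    dd H s π.length = true → ∀ x, x < s → ∃ a, a < H.length ∧ P.ax π.length H.length a ∧
      P.arg a = x ∧ P.Tr π.length a L ∧ P.Safe π.length a s

open Classical in
noncomputable def path (H : List (List Bool)) (L : List (ℕ × ℕ)) (n : ℕ) : List Bool :=
  (fun π : List Bool => π ++ [decide (P.Test H L π)])^[n] []

def Elig (H : List (List Bool)) (L : List (ℕ × ℕ)) (π : List Bool) (j w v : ℕ) : Prop :=
  (¬ ∃ q, q ∈ L ∧ P.ph j H.length q.1 q.2) ∧ P.ph j H.length w v ∧
  (∃ s, s < H.length ∧ (∀ i, i < j → dd H s i = π.getD i false) ∧ w < s ∧ v < s) ∧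
  (∀ u, u < H.length → (∃ i, i < j ∧ (∀ i', i' < i → dd H u i' = π.getD i' false) ∧
    dd H u i = true ∧ π.getD i false = false) → u ≤ w) ∧
  (∀ e, e < j → P.Spl e H.length L → P.Spl e w L) ∧ j ≤ w

open Classical in
noncomputable def new (H : List (List Bool)) (L : List (ℕ × ℕ)) (π : List Bool) :
    List (ℕ × ℕ) :=
  ((List.range H.length).flatMap fun w => (List.range H.length).map fun v => (w, v)).filter
    fun q => @decide (∃ j, j < H.length ∧ P.Elig H L π j q.1 q.2) (Classical.propDecidable _)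

noncomputable def step (S : List (List Bool) × List (ℕ × ℕ)) :
    List (List Bool) × List (ℕ × ℕ) :=
  (S.1 ++ [P.path S.1 S.2 S.1.length], S.2 ++ P.new S.1 S.2 (P.path S.1 S.2 S.1.length))

noncomputable def St (t : ℕ) : List (List Bool) × List (ℕ × ℕ) := P.step^[t] ([], [])

section prim

variable {α : Type} [Primcodable α]

theorem pp_ax {f g h : α → ℕ} (hf : Primrec f) (hg : Primrec g) (hh : Primrec h) :
    PrimrecPred fun a => P.ax (f a) (g a) (h a) :=
  P.p_ax.comp (f := fun a => (f a, g a, h a)) (by fun_prop)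

theorem pp_ph {f g h k : α → ℕ} (hf : Primrec f) (hg : Primrec g) (hh : Primrec h)
    (hk : Primrec k) : PrimrecPred fun a => P.ph (f a) (g a) (h a) (k a) :=
  P.p_ph.comp (f := fun a => ((f a, g a), h a, k a)) (by fun_prop)

@[fun_prop] theorem pr_cons' {f g : α → ℕ} (hf : Primrec f) (hg : Primrec g) :
    Primrec fun a => P.cons (f a) (g a) :=
  P.p_cons.comp (g := fun a => (f a, g a)) (by fun_prop)

@[fun_prop] theorem pr_arg {f : α → ℕ} (hf : Primrec f) : Primrec fun a => P.arg (f a) :=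
  P.p_arg.comp hf

@[fun_prop] theorem pr_val {f : α → ℕ} (hf : Primrec f) : Primrec fun a => P.val (f a) :=
  P.p_val.comp hf

@[fun_prop] theorem pr_dd {H : α → List (List Bool)} {f g : α → ℕ} (hH : Primrec H)
    (hf : Primrec f) (hg : Primrec g) : Primrec fun a => dd (H a) (f a) (g a) := by
  unfold dd
  exact pr_getD false (pr_getD [] hH hf) hg

theorem pp_Tr {f g : α → ℕ} {L : α → List (ℕ × ℕ)} (hf : Primrec f) (hg : Primrec g)
    (hL : Primrec L) : PrimrecPred fun a => P.Tr (f a) (g a) (L a) := by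
  unfold Tr
  refine pp_lall (by fun_prop) (pp_lall (by fun_prop) (pp_imp (pp_eq ?_ ?_) (pp_lt ?_ ?_))) <;>
    fun_prop

theorem pp_Safe {f g h : α → ℕ} (hf : Primrec f) (hg : Primrec g)
    (hh : Primrec h) : PrimrecPred fun a => P.Safe (f a) (g a) (h a) := by
  unfold Safe
  refine pp_lall (by fun_prop) (pp_imp (pp_lt ?_ ?_) (pp_le ?_ ?_)) <;> fun_prop

theorem pp_Spl {f g : α → ℕ} {L : α → List (ℕ × ℕ)} (hf : Primrec f) (hg : Primrec g)
    (hL : Primrec L) : PrimrecPred fun a => P.Spl (f a) (g a) (L a) := by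
  unfold Spl
  refine pp_bex (by fun_prop) (pp_bex (by fun_prop) (pp_and (P.pp_ax ?_ ?_ ?_)
    (pp_and (P.pp_ax ?_ ?_ ?_) (pp_and (P.pp_Tr ?_ ?_ ?_) (pp_and (P.pp_Tr ?_ ?_ ?_)
      (pp_and (pp_eq ?_ ?_) (pp_ne ?_ ?_))))))) <;> fun_prop

theorem pp_Test {H : α → List (List Bool)} {L : α → List (ℕ × ℕ)} {π : α → List Bool}
    (hH : Primrec H) (hL : Primrec L) (hπ : Primrec π) :
    PrimrecPred fun a => P.Test (H a) (L a) (π a) := by
  unfold Test
  refine pp_ball (by fun_prop) (pp_imp (pp_ball (by fun_prop) (pp_eq ?_ (pr_getD _ ?_ ?_)))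
    (pp_imp (pp_eq ?_ ?_) (pp_ball (by fun_prop) (pp_bex (by fun_prop)
      (pp_and (P.pp_ax ?_ ?_ ?_) (pp_and (pp_eq ?_ ?_) (pp_and (P.pp_Tr ?_ ?_ ?_)
        (P.pp_Safe ?_ ?_ ?_)))))))) <;> fun_prop

theorem pr_path {H : α → List (List Bool)} {L : α → List (ℕ × ℕ)} {n : α → ℕ}
    (hH : Primrec H) (hL : Primrec L) (hn : Primrec n) :
    Primrec fun a => P.path (H a) (L a) (n a) := by
  classical
  unfold path
  refine Primrec.nat_iterate (h := fun a (π : List Bool) => π ++ [decide (P.Test (H a) (L a) π)])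
    hn (Primrec.const []) ?_
  have h : Primrec fun p : α × List Bool => decide (P.Test (H p.1) (L p.1) p.2) :=
    pr_decide (P.pp_Test (by fun_prop) (by fun_prop) (by fun_prop))
  exact (pr_append Primrec.snd (pr_cons h (Primrec.const []))).to₂

theorem pp_Elig {H : α → List (List Bool)} {L : α → List (ℕ × ℕ)} {π : α → List Bool}
    {f g h : α → ℕ} (hH : Primrec H) (hL : Primrec L) (hπ : Primrec π) (hf : Primrec f)
    (hg : Primrec g) (hh : Primrec h) :
    PrimrecPred fun a => P.Elig (H a) (L a) (π a) (f a) (g a) (h a) := by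
  unfold Elig
  refine pp_and (pp_not (pp_lex hL (P.pp_ph ?_ ?_ ?_ ?_))) (pp_and (P.pp_ph ?_ ?_ ?_ ?_)
    (pp_and (pp_bex (by fun_prop) (pp_and (pp_ball (by fun_prop)
      (pp_eq ?_ (pr_getD _ ?_ ?_))) (pp_and (pp_lt ?_ ?_) (pp_lt ?_ ?_))))
    (pp_and (pp_ball (by fun_prop) (pp_imp (pp_bex (by fun_prop) (pp_and (pp_ball (by fun_prop)
      (pp_eq ?_ (pr_getD _ ?_ ?_))) (pp_and (pp_eq ?_ ?_) (pp_eq (pr_getD _ ?_ ?_) ?_))))
        (pp_le ?_ ?_)))
    (pp_and (pp_ball (by fun_prop) (pp_imp (P.pp_Spl ?_ ?_ ?_) (P.pp_Spl ?_ ?_ ?_)))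
      (pp_le ?_ ?_))))) <;> fun_prop

theorem pr_new {H : α → List (List Bool)} {L : α → List (ℕ × ℕ)} {π : α → List Bool}
    (hH : Primrec H) (hL : Primrec L) (hπ : Primrec π) :
    Primrec fun a => P.new (H a) (L a) (π a) := by
  unfold new
  refine pr_filter (R := fun (q : ℕ × ℕ) a =>
    ∃ j, j < (H a).length ∧ P.Elig (H a) (L a) (π a) j q.1 q.2) ?_ ?_
  · exact pr_flatMap (by fun_prop) (pr_map (by fun_prop) (by fun_prop))
  · refine pp_bex (by fun_prop) (P.pp_Elig ?_ ?_ ?_ ?_ ?_ ?_) <;> fun_prop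

end prim

theorem pr_step : Primrec P.step := by
  unfold step
  have h : Primrec fun S : List (List Bool) × List (ℕ × ℕ) => P.path S.1 S.2 S.1.length :=
    P.pr_path (by fun_prop) (by fun_prop) (by fun_prop)
  exact pr_pair (pr_append Primrec.fst (pr_cons h (Primrec.const [])))
    (pr_append Primrec.snd (P.pr_new Primrec.fst Primrec.snd h))

theorem pr_St : Primrec P.St := by
  unfold St
  exact Primrec.nat_iterate (h := fun _ S => P.step S) Primrec.id (Primrec.const _)
    (P.pr_step.comp Primrec.snd).to₂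

/-- the guess made at stage `t` about the requirement `i` -/
noncomputable def D (t i : ℕ) : Bool := dd (P.St (t + 1)).1 t i

/-- the actions made before stage `t` -/
noncomputable def Act (t : ℕ) : List (ℕ × ℕ) := (P.St t).2

theorem pr_D {α : Type} [Primcodable α] {f g : α → ℕ} (hf : Primrec f) (hg : Primrec g) :
    Primrec fun a => P.D (f a) (g a) := by
  unfold D
  exact pr_dd (pr_fst (P.pr_St.comp (by fun_prop))) hf hg

theorem pr_Act {α : Type} [Primcodable α] {f : α → ℕ} (hf : Primrec f) :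
    Primrec fun a => P.Act (f a) := pr_snd (P.pr_St.comp hf)

theorem St_succ (t : ℕ) : P.St (t + 1) = P.step (P.St t) := by
  unfold St
  rw [Function.iterate_succ_apply']

theorem St_len (t : ℕ) : (P.St t).1.length = t := by
  induction t with
  | zero => rfl
  | succ t ih => rw [St_succ]; simp [step, ih]

theorem dd_St {s t : ℕ} (h : s < t) (i : ℕ) : dd (P.St t).1 s i = P.D s i := by
  induction t, h using Nat.le_induction with
  | base => rfl
  | succ t h ih =>
    rw [← ih, St_succ]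
    unfold dd step
    simp only
    rw [List.getD_append _ _ _ _ (by rw [St_len]; omega)]

theorem path_succ (H : List (List Bool)) (L : List (ℕ × ℕ)) (n : ℕ) :
    P.path H L (n + 1) = P.path H L n ++
      [@decide (P.Test H L (P.path H L n)) (Classical.propDecidable _)] := by
  unfold path
  rw [Function.iterate_succ_apply']

theorem path_len (H : List (List Bool)) (L : List (ℕ × ℕ)) (n : ℕ) :
    (P.path H L n).length = n := by
  induction n with
  | zero => rfl
  | succ n ih => rw [path_succ]; simp [ih]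

theorem path_getD (H : List (List Bool)) (L : List (ℕ × ℕ)) {i n : ℕ} (h : i < n) :
    (P.path H L n).getD i false = true ↔ P.Test H L (P.path H L i) := by
  induction n, h using Nat.le_induction with
  | base =>
    rw [path_succ, List.getD_append_right _ _ _ _ (by rw [path_len])]
    simp [path_len]
  | succ n h ih =>
    rw [← ih, path_succ, List.getD_append _ _ _ _ (by rw [path_len]; omega)]

theorem path_getD' (H : List (List Bool)) (L : List (ℕ × ℕ)) {i m n : ℕ} (h : i < m)
    (h' : i < n) : (P.path H L m).getD i false = (P.path H L n).getD i false := by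
  rw [Bool.eq_iff_iff, path_getD _ _ _ h, path_getD _ _ _ h']

theorem D_eq (t i : ℕ) : P.D t i = (P.path (P.St t).1 (P.Act t) t).getD i false := by
  unfold D dd
  rw [St_succ]
  unfold step Act
  simp only
  rw [List.getD_append_right _ _ _ _ (by rw [St_len]), St_len]
  simp

theorem D_lt {t i : ℕ} (h : P.D t i = true) : i < t := by
  by_contra hh
  rw [D_eq, List.getD_eq_default _ _ (by rw [path_len]; omega)] at h
  exact absurd h (by simp)

theorem D_spec {t e : ℕ} (h : e < t) : P.D t e = true ↔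
    ∀ s, s < t → (∀ i, i < e → P.D s i = P.D t i) → P.D s e = true → ∀ x, x < s →
      ∃ a, P.ax e t a ∧ P.arg a = x ∧ P.Tr e a (P.Act t) ∧ P.Safe e a s := by
  rw [D_eq, path_getD _ _ _ h]
  unfold Test
  simp only [path_len, St_len]
  refine forall₂_congr fun s hs => ?_
  simp only [P.dd_St hs]
  refine imp_congr (forall₂_congr fun i hi => ?_) (imp_congr_right fun _ =>
    forall₂_congr fun x _ => exists_congr fun a => ?_)
  · rw [P.D_eq t i, P.path_getD' _ _ hi (by omega : i < t)]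
  · exact ⟨fun h => h.2, fun h => ⟨P.ax_lt h.1, h⟩⟩

/-- the requirement `j` acts at stage `t` at the position `w` with the value `v` -/
def El (t j w v : ℕ) : Prop :=
  (¬ ∃ q, q ∈ P.Act t ∧ P.ph j t q.1 q.2) ∧ P.ph j t w v ∧
  (∃ s, s < t ∧ (∀ i, i < j → P.D s i = P.D t i) ∧ w < s ∧ v < s) ∧
  (∀ u, u < t → (∃ i, i < j ∧ (∀ i', i' < i → P.D u i' = P.D t i') ∧
    P.D u i = true ∧ P.D t i = false) → u ≤ w) ∧
  (∀ e, e < j → P.Spl e t (P.Act t) → P.Spl e w (P.Act t)) ∧ j ≤ w

theorem Elig_iff (t j w v : ℕ) :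
    P.Elig (P.St t).1 (P.Act t) (P.path (P.St t).1 (P.Act t) t) j w v ↔ P.El t j w v := by
  unfold Elig El
  simp only [St_len, ← D_eq]
  refine and_congr_right fun _ => and_congr_right fun _ => and_congr ?_ (and_congr_left fun _ => ?_)
  · refine exists_congr fun s => and_congr_right fun hs => ?_
    simp only [P.dd_St hs]
  · refine forall₂_congr fun u hu => ?_
    simp only [P.dd_St hu]

theorem Act_zero : P.Act 0 = [] := rfl

theorem mem_Act_succ (t : ℕ) (q : ℕ × ℕ) :
    q ∈ P.Act (t + 1) ↔ q ∈ P.Act t ∨ ∃ j, P.El t j q.1 q.2 := by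
  have e : P.Act (t + 1) =
      P.Act t ++ P.new (P.St t).1 (P.Act t) (P.path (P.St t).1 (P.Act t) t) := by
    unfold Act
    rw [St_succ]
    unfold step
    simp only [St_len]
  rw [e, List.mem_append]
  refine or_congr_right ?_
  unfold new
  simp only [List.mem_filter, decide_eq_true_eq, St_len, Elig_iff, List.mem_flatMap,
    List.mem_range, List.mem_map]
  constructor
  · rintro ⟨-, j, -, h⟩
    exact ⟨j, h⟩
  · rintro ⟨j, h⟩
    obtain ⟨s, hs, -, h1, h2⟩ := h.2.2.1
    have := h.2.2.2.2.2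
    exact ⟨⟨q.1, by omega, q.2, by omega, rfl⟩, j, by omega, h⟩

end Data

end Pool.Agent.H317Z.QM
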