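import Mathlib

set_option autoImplicit false

namespace Pool.Agent.H317Z.QM

/-- the code of the word formed by the first `k` values of a point `p` of Baire space -/
def pre (p : ℕ → ℕ) (k : ℕ) : ℕ := Encodable.encode ((List.range k).map p)

/-- `F` is a computable functional on a subset of Baire space: a Turing functional, that is a
computable `ψ` taking an argument `n` and a finite initial segment of the oracle, outputs
`F p n` on some initial segment of `p` and nothing else on any initial segment of `p` -/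
def PComp (F : (ℕ → ℕ) →. (ℕ → ℕ)) : Prop :=
  ∃ ψ : ℕ →. ℕ, Partrec ψ ∧ ∀ p q, q ∈ F p → ∀ n,
    (∃ k, q n ∈ ψ (Nat.pair n (pre p k))) ∧ ∀ k y, y ∈ ψ (Nat.pair n (pre p k)) → y = q n

/-- names in the enumeration space: `p` enumerates `A` -/
def NameSet (p : ℕ → ℕ) (A : Set ℕ) : Prop := A = {k | ∃ n, p n = k + 1}

/-- names in Baire space: the identity representation -/
def NameBaire (p : ℕ → ℕ) (f : ℕ → ℕ) : Prop := p = f

/-- names of continuous functionals: `a` is a Kleene associate of `Φ` -/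
def NameFun (a : ℕ → ℕ) (Φ : C(ℕ → ℕ, ℕ)) : Prop :=
  ∀ g, ∃ k, (∀ m, m < k → a (pre g m) = 0) ∧ ∀ m, k ≤ m → a (pre g m) = Φ g + 1

/-- `y ≤_T x`: a computable functional sends every name of `x` to a name of `y` -/
def LeT {Y X : Type} (nameY : (ℕ → ℕ) → Y → Prop) (nameX : (ℕ → ℕ) → X → Prop) (y : Y) (x : X) :
    Prop :=
  ∃ F : (ℕ → ℕ) →. (ℕ → ℕ), PComp F ∧ ∀ p, nameX p x → ∃ q, q ∈ F p ∧ nameY q y

/-- a point is computable if it has a computable name -/
def CompPt {X : Type} (name : (ℕ → ℕ) → X → Prop) (x : X) : Prop :=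
  ∃ p, Computable p ∧ name p x

/-- the enumeration degree of `A` is `Y`-quasi-minimal -/
def QuasiMin {Y : Type} (nameY : (ℕ → ℕ) → Y → Prop) (A : Set ℕ) : Prop :=
  ¬ CompPt NameSet A ∧ ∀ y : Y, LeT nameY NameSet y A → CompPt nameY y

end Pool.Agent.H317Z.QM
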