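import Pool.Agent.H317Z.QMVer
import Pool.Agent.H317Z.QMDefs

set_option autoImplicit false

namespace Pool.Agent.H317Z.QM

open Nat.Partrec (Code)
open Nat.Partrec.Code

/-- decoding of words -/
def dl (r : ℕ) : List ℕ := (Encodable.decode (α := List ℕ) r).getD []

theorem dl_encode (l : List ℕ) : dl (Encodable.encode l) = l := by
  unfold dl
  rw [Encodable.encodek]
  rfl

theorem encode_dl (r : ℕ) : Encodable.encode (dl r) = r := by
  have h : Encodable.decode (α := List ℕ) r = some (Denumerable.ofNat (List ℕ) r) :=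
    Denumerable.decode_eq_ofNat (List ℕ) r
  unfold dl
  rw [h]
  exact Denumerable.encode_ofNat (α := List ℕ) r

theorem dl_pre (p : ℕ → ℕ) (k : ℕ) : dl (pre p k) = (List.range k).map p := dl_encode _

theorem getD_pre (p : ℕ → ℕ) {k i : ℕ} (h : i < k) : ((List.range k).map p).getD i 0 = p i := by
  rw [List.getD_eq_getElem _ _ (by simpa using h)]
  simp

theorem pre_congr {p q : ℕ → ℕ} {k : ℕ} (h : ∀ i, i < k → p i = q i) : pre p k = pre q k := by
  unfold pre
  congr 1
  exact List.map_congr_left fun i hi => h i (List.mem_range.1 hi)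

@[fun_prop] theorem pr_dl {α : Type} [Primcodable α] {f : α → ℕ} (hf : Primrec f) :
    Primrec fun a => dl (f a) :=
  Primrec.option_getD.comp (Primrec.decode.comp hf) (Primrec.const [])

theorem pp_evaln {α : Type} [Primcodable α] {f g h k : α → ℕ} (hf : Primrec f) (hg : Primrec g)
    (hh : Primrec h) (hk : Primrec k) :
    PrimrecPred fun a => evaln (f a) (Denumerable.ofNat Code (g a)) (h a) = some (k a) :=
  pp_eq (primrec_evaln.comp (g := fun a => ((f a, Denumerable.ofNat Code (g a)), h a))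
    (pr_pair (pr_pair hf ((Primrec.ofNat Code).comp hg)) hh)) (Primrec.option_some.comp hk)

open Classical in
/-- the operators: `e` codes a machine and a stem, `a` codes a word, an argument and a value -/
noncomputable def P0 : Data where
  ax e t a := evaln t (Denumerable.ofNat Code e.unpair.1)
      (Nat.pair a.unpair.2.unpair.1 a.unpair.1) = some a.unpair.2.unpair.2 ∧ a < t ∧
    (∀ m, m ∈ dl a.unpair.1 → m < t) ∧
    ∀ m, m ∈ dl a.unpair.1 → m ≠ 0 → (m - 1).unpair.1 < (dl e.unpair.2).length →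
      (dl e.unpair.2).getD (m - 1).unpair.1 0 ≤ (m - 1).unpair.2
  cons e a := ((dl a.unpair.1).filter fun m =>
    @decide (m ≠ 0 ∧ (dl e.unpair.2).length ≤ (m - 1).unpair.1)
      (Classical.propDecidable _)).map fun m => (m - 1).unpair
  arg a := a.unpair.2.unpair.1
  val a := a.unpair.2.unpair.2
  ph j t w v := evaln t (Denumerable.ofNat Code j) w = some v
  p_ax := by
    refine pp_and (pp_evaln ?_ ?_ ?_ ?_) (pp_and (pp_lt ?_ ?_) (pp_and
      (pp_lall (by fun_prop) (pp_lt ?_ ?_)) (pp_lall (by fun_prop) (pp_imp (pp_ne ?_ ?_)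
        (pp_imp (pp_lt ?_ ?_) (pp_le (pr_getD _ ?_ ?_) ?_)))))) <;> fun_prop
  p_cons := by
    refine pr_map (pr_filter (R := fun (m : ℕ) (z : ℕ × ℕ) =>
      m ≠ 0 ∧ (dl z.1.unpair.2).length ≤ (m - 1).unpair.1) (by fun_prop)
        (pp_and (pp_ne ?_ ?_) (pp_le ?_ ?_))) ?_ <;> fun_prop
  p_arg := by fun_prop
  p_val := by fun_prop
  p_ph := by refine pp_evaln ?_ ?_ ?_ ?_ <;> fun_prop
  ax_mono := fun h h' => ⟨evaln_mono h h'.1, lt_of_lt_of_le h'.2.1 h,
    fun m hm => lt_of_lt_of_le (h'.2.2.1 m hm) h, h'.2.2.2⟩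
  ax_lt := fun h => h.2.1
  ax_cons := by
    intro e t a h p hp
    obtain ⟨m, hm, rfl⟩ := List.mem_map.1 hp
    have h1 := h.2.2.1 m (List.mem_filter.1 hm).1
    have h2 := Nat.unpair_left_le (m - 1)
    omega
  ph_mono := fun h h' => evaln_mono h h'

theorem mem_cons0 (e a : ℕ) (p : ℕ × ℕ) : p ∈ P0.cons e a ↔ ∃ m, m ∈ dl a.unpair.1 ∧ m ≠ 0 ∧
    (dl e.unpair.2).length ≤ (m - 1).unpair.1 ∧ (m - 1).unpair = p := by
  unfold P0
  simp only [List.mem_map, List.mem_filter, decide_eq_true_eq, and_assoc]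

open Classical in
/-- the left-c.e. function built by the construction -/
noncomputable def hh (n : ℕ) : ℕ := Nat.find (P0.Act_bdd n)

theorem hh_le_iff (n k : ℕ) : hh n ≤ k ↔ ∀ t v, (n, v) ∈ P0.Act t → v < k := by
  classical
  constructor
  · intro h t v hv
    exact lt_of_lt_of_le (Nat.find_spec (P0.Act_bdd n) t v hv) h
  · intro h
    exact Nat.find_min' _ h

theorem TrA_iff (e a : ℕ) : P0.TrA e a ↔ ∀ p, p ∈ P0.cons e a → hh p.1 ≤ p.2 := by
  constructor
  · intro h p hp
    exact (hh_le_iff _ _).2 fun t v hv => h t p hp (p.1, v) hv rfl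
  · intro h t p hp q hq hqp
    exact (hh_le_iff _ _).1 (h p hp) t q.2 (by rw [← hqp]; exact hq)

theorem not_bdd {b : ℕ → ℕ} (hb : Computable b) : ¬ ∀ n, hh n ≤ b n := by
  intro h
  obtain ⟨c, hc⟩ := exists_code.1 (Partrec.nat_iff.1 hb.partrec)
  have hc' : ∀ w v, v ∈ c.eval w ↔ v = b w := fun w v => by rw [hc]; simp
  obtain ⟨t, w, v, h1, h2⟩ := P0.beat (Encodable.encode c) fun w => by
    obtain ⟨t, ht⟩ := evaln_complete.1 ((hc' w _).2 rfl)
    exact ⟨t, b w, by simpa [P0] using ht⟩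
  have h3 : v = b w := (hc' w v).1 (evaln_sound (k := t) (by simpa [P0] using h2))
  have := (hh_le_iff _ _).1 (h w) t v h1
  omega

/-- the region above the graph of `s` -/
def U (s : ℕ → ℕ) : Set ℕ := {z | s z.unpair.1 ≤ z.unpair.2}

/-- the machine `c` computes `f` from every enumeration of `A` -/
def Red (c : Code) (A : Set ℕ) (f : ℕ → ℕ) : Prop :=
  ∀ p, NameSet p A → ∀ n, (∃ k, f n ∈ c.eval (Nat.pair n (pre p k))) ∧
    ∀ k y, y ∈ c.eval (Nat.pair n (pre p k)) → y = f n

theorem exists_name (A : Set ℕ) (l : List ℕ) (hl : ∀ m, m ∈ l → m ≠ 0 → m - 1 ∈ A) :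
    ∃ p, NameSet p A ∧ pre p l.length = Encodable.encode l := by
  classical
  refine ⟨fun i => if i < l.length then l.getD i 0 else
    if i - l.length ∈ A then i - l.length + 1 else 0, ?_, ?_⟩
  · ext k
    constructor
    · intro hk
      refine ⟨k + l.length, ?_⟩
      simp [hk]
    · rintro ⟨n, hn⟩
      simp only at hn
      split_ifs at hn with h1 h2
      · rw [List.getD_eq_getElem _ _ h1] at hn
        have := hl _ (List.getElem_mem h1) (by omega)
        rw [hn] at this
        simpa using this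
      · rwa [← Nat.succ_injective hn]
  · unfold pre
    congr 1
    apply List.ext_getElem (by simp)
    intro i h1 h2
    simp [h2]

theorem Red.sound {c : Code} {A : Set ℕ} {f : ℕ → ℕ} (h : Red c A f) {r x y : ℕ}
    (hr : ∀ m, m ∈ dl r → m ≠ 0 → m - 1 ∈ A) (hy : y ∈ c.eval (Nat.pair x r)) : y = f x := by
  obtain ⟨p, h1, h2⟩ := exists_name A _ hr
  rw [encode_dl] at h2
  exact (h p h1 x).2 _ y (by rw [h2]; exact hy)

theorem Red.total {c : Code} {A : Set ℕ} {f : ℕ → ℕ} (h : Red c A f) (x : ℕ) :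
    ∃ r, (∀ m, m ∈ dl r → m ≠ 0 → m - 1 ∈ A) ∧ f x ∈ c.eval (Nat.pair x r) := by
  obtain ⟨p, h1, -⟩ := exists_name A [] (by simp)
  obtain ⟨k, hk⟩ := (h p h1 x).1
  refine ⟨pre p k, fun m hm hm0 => ?_, hk⟩
  rw [dl_pre] at hm
  obtain ⟨i, -, rfl⟩ := List.mem_map.1 hm
  rw [h1]
  exact ⟨i, by omega⟩

theorem list_bound (l : List ℕ) : ∃ t, ∀ m, m ∈ l → m < t :=
  ⟨l.sum + 1, fun _ hm => Nat.lt_succ_of_le (List.le_sum_of_mem hm)⟩

theorem Red.axiom_of {c : Code} {s g f : ℕ → ℕ} {L : ℕ} (h : Red c (U s) f)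
    (hs : ∀ n, hh n ≤ s n) (hg : ∀ n, n < L → s n = g n) (x : ℕ) :
    ∃ a t, P0.ax (Nat.pair (Encodable.encode c) (pre g L)) t a ∧ P0.arg a = x ∧ P0.val a = f x ∧
      P0.TrA (Nat.pair (Encodable.encode c) (pre g L)) a ∧
      ∀ p, p ∈ P0.cons (Nat.pair (Encodable.encode c) (pre g L)) a → L ≤ p.1 ∧ s p.1 ≤ p.2 := by
  obtain ⟨r, h1, h2⟩ := h.total x
  obtain ⟨t₁, h3⟩ := evaln_complete.1 h2
  obtain ⟨t₂, h4⟩ := list_bound (dl r)
  have h5 : ∀ p, p ∈ P0.cons (Nat.pair (Encodable.encode c) (pre g L))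
      (Nat.pair r (Nat.pair x (f x))) → L ≤ p.1 ∧ s p.1 ≤ p.2 := by
    intro p hp
    obtain ⟨m, h5, h6, h7, rfl⟩ := (mem_cons0 _ _ _).1 hp
    simp only [Nat.unpair_pair, dl_pre, List.length_map, List.length_range] at h5 h7
    exact ⟨h7, h1 m h5 h6⟩
  refine ⟨Nat.pair r (Nat.pair x (f x)), t₁ + t₂ + Nat.pair r (Nat.pair x (f x)) + 1,
    ⟨?_, by omega, ?_, ?_⟩, by simp [P0], by simp [P0],
    (TrA_iff _ _).2 fun p hp => le_trans (hs _) (h5 p hp).2, h5⟩
  · simp only [Nat.unpair_pair, Denumerable.ofNat_encode]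
    exact evaln_mono (by omega) h3
  · intro m hm
    simp only [Nat.unpair_pair] at hm
    have := h4 m hm
    omega
  · intro m hm hm0 hlt
    simp only [Nat.unpair_pair, dl_pre, List.length_map, List.length_range] at hm hlt ⊢
    rw [getD_pre _ hlt, ← hg _ hlt]
    exact h1 m hm hm0

theorem exists_ext (c : Code) (L : ℕ) (g : ℕ → ℕ) (hg : ∀ n, hh n ≤ g n) :
    ∃ L' : ℕ, ∃ g' : ℕ → ℕ, L < L' ∧ (∀ n, hh n ≤ g' n) ∧ (∀ n, n < L → g' n = g n) ∧
      ∀ s f, (∀ n, hh n ≤ s n) → (∀ n, n < L' → s n = g' n) → Red c (U s) f → Computable f := by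
  set e := Nat.pair (Encodable.encode c) (pre g L) with he
  by_cases hC : ∀ u a b, P0.ax e u a → P0.ax e u b → P0.TrA e a → P0.TrA e b →
      P0.arg a = P0.arg b → P0.val a = P0.val b
  · by_cases hT : ∀ x b, ∃ a t, P0.ax e t a ∧ P0.arg a = x ∧ P0.TrA e a ∧ P0.Safe e a b
    · obtain ⟨f₀, h1, h2⟩ := P0.comp_of e hC hT
      refine ⟨L + 1, g, by omega, hg, fun _ _ => rfl, fun s f hs hs' hR => ?_⟩
      refine h1.of_eq fun x => ?_
      obtain ⟨a, t, h3, h4, h5, h6, -⟩ := hR.axiom_of (g := g) (L := L) hs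
        (fun n hn => hs' n (by omega)) x
      rw [← h5, ← h4]
      exact h2 t a h3 h6
    · push Not at hT
      obtain ⟨x, b, hT⟩ := hT
      refine ⟨L + b + 1, fun n => if n < L then g n else hh n + b, by omega, fun n => ?_,
        fun n hn => if_pos hn, fun s f hs hs' hR => ?_⟩
      · dsimp only
        split_ifs
        · exact hg n
        · omega
      · obtain ⟨a, t, h3, h4, -, h6, h7⟩ := hR.axiom_of (g := g) (L := L) hs
          (fun n hn => by rw [hs' n (by omega)]; exact if_pos hn) x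
        refine absurd (fun p hp hpb => ?_) (hT a t h3 h4 h6)
        obtain ⟨h8, h9⟩ := h7 p hp
        rw [hs' _ (by omega)] at h9
        dsimp only at h9
        rw [if_neg (by omega)] at h9
        omega
  · push Not at hC
    obtain ⟨u, a, b, ha, hb, ta, tb, h1, h2⟩ := hC
    refine ⟨L + u + 1, fun n => if n < L then g n else hh n, by omega, fun n => ?_,
      fun n hn => if_pos hn, fun s f hs hs' hR => ?_⟩
    · dsimp only
      split_ifs
      · exact hg n
      · exact le_rfl
    · have key : ∀ a, P0.ax e u a → P0.TrA e a → P0.val a = f (P0.arg a) := by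
        intro a ha ta
        obtain ⟨h3, -, h4, h5⟩ := ha
        simp only [he, Nat.unpair_pair, Denumerable.ofNat_encode, dl_pre, List.length_map,
          List.length_range] at h3 h5
        refine hR.sound (r := a.unpair.1) (fun m hm hm0 => ?_) (evaln_sound h3)
        have h6 := h4 m hm
        have h7 := Nat.unpair_left_le (m - 1)
        change s (m - 1).unpair.1 ≤ (m - 1).unpair.2
        rw [hs' _ (by omega)]
        dsimp only
        split_ifs with h8
        · have := h5 m hm hm0 h8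
          rwa [getD_pre _ h8] at this
        · exact (TrA_iff _ _).1 ta _ ((mem_cons0 _ _ _).2 ⟨m, hm, hm0, by
            simp only [he, Nat.unpair_pair, dl_pre, List.length_map, List.length_range]
            omega, rfl⟩)
      exact absurd (by rw [key a ha ta, key b hb tb, h1]) h2

theorem exists_generic : ∃ s : ℕ → ℕ, (∀ n, hh n ≤ s n) ∧
    ∀ c f, Red c (U s) f → Computable f := by
  choose! L' g' h1 h2 h3 h4 using exists_ext
  let S : ℕ → ℕ × (ℕ → ℕ) := fun i => Nat.rec (0, hh) (fun i z =>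
    (L' (Denumerable.ofNat Code i) z.1 z.2, g' (Denumerable.ofNat Code i) z.1 z.2)) i
  have hS : ∀ i, S (i + 1) = (L' (Denumerable.ofNat Code i) (S i).1 (S i).2,
      g' (Denumerable.ofNat Code i) (S i).1 (S i).2) := fun i => rfl
  have hge : ∀ i n, hh n ≤ (S i).2 n := by
    intro i
    induction i with
    | zero => exact fun n => le_rfl
    | succ i ih => rw [hS]; exact h2 _ _ _ ih
  have hlt : ∀ i, (S i).1 < (S (i + 1)).1 := fun i => by rw [hS]; exact h1 _ _ _ (hge i)
  have hle : ∀ i, i ≤ (S i).1 := by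
    intro i
    induction i with
    | zero => exact Nat.zero_le _
    | succ i ih => have := hlt i; omega
  have hst : ∀ i j, i ≤ j → (S i).1 ≤ (S j).1 ∧ ∀ n, n < (S i).1 → (S j).2 n = (S i).2 n := by
    intro i j hij
    induction j, hij using Nat.le_induction with
    | base => exact ⟨le_rfl, fun _ _ => rfl⟩
    | succ j _ ih =>
      refine ⟨le_trans ih.1 (hlt j).le, fun n hn => ?_⟩
      rw [← ih.2 n hn, hS]
      exact h3 _ _ _ (hge j) n (lt_of_lt_of_le hn ih.1)
  refine ⟨fun n => (S (n + 1)).2 n, fun n => hge (n + 1) n, fun c f hR => ?_⟩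
  have h5 := h4 (Denumerable.ofNat Code (Encodable.encode c)) (S (Encodable.encode c)).1
    (S (Encodable.encode c)).2 (hge _) (fun n => (S (n + 1)).2 n) f (fun n => hge (n + 1) n)
  rw [Denumerable.ofNat_encode] at h5
  refine h5 (fun n hn => ?_) hR
  have h6 := hS (Encodable.encode c)
  rw [Denumerable.ofNat_encode] at h6
  have h7 := (hst (Encodable.encode c + 1) (n + 1 + (Encodable.encode c + 1)) (by omega)).2 n
    (by rw [h6]; exact hn)
  have h8 := (hst (n + 1) (n + 1 + (Encodable.encode c + 1)) (by omega)).2 n (hle (n + 1))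
  rw [← h8, h7, h6]

theorem computable_find {p : ℕ → ℕ → Prop} [∀ n, DecidablePred (p n)]
    (hp : Computable fun z : ℕ × ℕ => decide (p z.1 z.2)) (h : ∀ n, ∃ m, p n m) :
    Computable fun n => Nat.find (h n) := by
  have h1 : Partrec fun n => Nat.rfind fun m => (Part.some (decide (p n m))) :=
    Partrec.rfind (Computable.partrec hp).to₂
  refine h1.of_eq_tot fun n => ?_
  rw [Nat.mem_rfind]
  refine ⟨by simpa using Nat.find_spec (h n), fun {m} hm => ?_⟩
  simpa using Nat.find_min (h n) hm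

theorem quasiMin_U {s : ℕ → ℕ} (hs : ∀ n, hh n ≤ s n)
    (hgen : ∀ c f, Red c (U s) f → Computable f) : QuasiMin NameBaire (U s) := by
  classical
  constructor
  · rintro ⟨p, hp, hn⟩
    have hex : ∀ n, ∃ i, p i ≠ 0 ∧ (p i - 1).unpair.1 = n := by
      intro n
      have : Nat.pair n (s n) ∈ U s := by simp [U]
      rw [hn] at this
      obtain ⟨i, hi⟩ := this
      exact ⟨i, by omega, by simp [hi]⟩
    have h1 : PrimrecPred fun z : ℕ × ℕ => z.2 ≠ 0 ∧ (z.2 - 1).unpair.1 = z.1 := by
      refine pp_and (pp_ne ?_ ?_) (pp_eq ?_ ?_) <;> fun_prop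
    have h2 : Computable fun z : ℕ × ℕ => decide (p z.2 ≠ 0 ∧ (p z.2 - 1).unpair.1 = z.1) :=
      h1.decide.to_comp.comp (Computable.fst.pair (hp.comp Computable.snd))
    have h3 := computable_find (p := fun n i => p i ≠ 0 ∧ (p i - 1).unpair.1 = n) h2 hex
    have h4 : Primrec fun m : ℕ => (m - 1).unpair.2 := by fun_prop
    refine not_bdd (h4.to_comp.comp (hp.comp h3)) fun n => le_trans (hs n) ?_
    obtain ⟨h5, h6⟩ := Nat.find_spec (hex n)
    have : p (Nat.find (hex n)) - 1 ∈ U s := by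
      rw [hn]
      exact ⟨Nat.find (hex n), by omega⟩
    change s (p (Nat.find (hex n)) - 1).unpair.1 ≤ _ at this
    rwa [h6] at this
  · rintro f ⟨F, ⟨ψ, hψ, hF⟩, h⟩
    obtain ⟨c, hc⟩ := exists_code.1 (Partrec.nat_iff.1 hψ)
    refine ⟨f, hgen c f fun p hp => ?_, rfl⟩
    obtain ⟨q, h1, h2⟩ := h p hp
    rw [hc, ← h2]
    exact hF p q h1

open Classical in
/-- the functional -/
noncomputable def Phi (g : ℕ → ℕ) : ℕ := if ∃ v, (g 0, v) ∈ P0.Act (g (v + 1)) then 1 else 0

open Classical in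
/-- the associate of the functional read off an enumeration -/
noncomputable def nm (p : ℕ → ℕ) (l : List ℕ) : ℕ :=
  if ∃ i, i < l.length ∧ p i ≠ 0 ∧ (p i - 1).unpair.1 = l.getD 0 0 ∧
    (p i - 1).unpair.2 < l.length then
    (if ∃ v, v < l.length ∧ v + 1 < l.length ∧ (l.getD 0 0, v) ∈ P0.Act (l.getD (v + 1) 0)
      then 2 else 1) else 0

theorem nm_congr {p q : ℕ → ℕ} {l : List ℕ} (h : ∀ i, i < l.length → p i = q i) :
    nm p l = nm q l := by
  unfold nm
  congr 1
  refine propext (exists_congr fun i => and_congr_right fun hi => ?_)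
  rw [h i hi]

theorem nm_name {s p : ℕ → ℕ} (hs : ∀ n, hh n ≤ s n) (hp : NameSet p (U s)) (g : ℕ → ℕ) :
    ∃ k, (∀ m, m < k → nm p (dl (pre g m)) = 0) ∧
      ∀ m, k ≤ m → nm p (dl (pre g m)) = Phi g + 1 := by
  classical
  have hex : ∃ m, ∃ i, i < m ∧ p i ≠ 0 ∧ (p i - 1).unpair.1 = g 0 ∧ (p i - 1).unpair.2 < m := by
    have : Nat.pair (g 0) (s (g 0)) ∈ U s := by simp [U]
    rw [hp] at this
    obtain ⟨i, hi⟩ := this
    exact ⟨i + s (g 0) + 1, i, by omega, by omega, by simp [hi], by simp [hi]⟩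
  refine ⟨Nat.find hex, fun m hm => ?_, fun m hm => ?_⟩
  · unfold nm
    rw [dl_pre, if_neg]
    simp only [List.length_map, List.length_range]
    rintro ⟨i, h1, h2, h3, h4⟩
    rw [getD_pre _ (by omega)] at h3
    exact Nat.find_min hex hm ⟨i, h1, h2, h3, h4⟩
  · obtain ⟨i, h1, h2, h3, h4⟩ := Nat.find_spec hex
    have h5 : p i - 1 ∈ U s := by
      rw [hp]
      exact ⟨i, by omega⟩
    have h6 : hh (g 0) ≤ (p i - 1).unpair.2 := by
      rw [← h3]
      exact le_trans (hs _) h5
    unfold nm Phi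
    rw [dl_pre]
    simp only [List.length_map, List.length_range]
    rw [getD_pre _ (by omega : 0 < m), if_pos ⟨i, by omega, h2, h3, by omega⟩]
    by_cases h : ∃ v, (g 0, v) ∈ P0.Act (g (v + 1))
    · rw [if_pos h, if_pos]
      obtain ⟨v, hv⟩ := h
      have := (hh_le_iff _ _).1 h6 _ v hv
      exact ⟨v, by omega, by omega, by rw [getD_pre _ (by omega)]; exact hv⟩
    · rw [if_neg h, if_neg]
      rintro ⟨v, -, h7, h8⟩
      rw [getD_pre _ h7] at h8
      exact h ⟨v, h8⟩

theorem continuous_of_name {a : ℕ → ℕ} {Φ : (ℕ → ℕ) → ℕ}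
    (h : ∀ g, ∃ k, (∀ m, m < k → a (pre g m) = 0) ∧ ∀ m, k ≤ m → a (pre g m) = Φ g + 1) :
    Continuous Φ := by
  refine IsLocallyConstant.continuous ((IsLocallyConstant.iff_eventually_eq _).2 fun g => ?_)
  obtain ⟨k, -, hk⟩ := h g
  have h1 : ∀ᶠ g' in nhds g, ∀ i ∈ Finset.range k, g' i = g i := by
    rw [Filter.eventually_all_finset]
    intro i _
    exact ((continuous_apply i).tendsto g).eventually (p := fun y : ℕ => y = g i)
      (by rw [nhds_discrete]; simp)
  filter_upwards [h1] with g' hg'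
  have h2 : pre g' k = pre g k := pre_congr fun i hi => hg' i (Finset.mem_range.2 hi)
  obtain ⟨k', h3, h4⟩ := h g'
  have h5 := hk k le_rfl
  by_cases hkk : k < k'
  · have := h3 k hkk
    rw [h2] at this
    omega
  · have := h4 k (by omega)
    rw [h2] at this
    omega

theorem main : ∃ A : Set ℕ, QuasiMin NameBaire A ∧
    ∃ Φ : C(ℕ → ℕ, ℕ), ¬ CompPt NameFun Φ ∧ LeT NameFun NameSet Φ A := by
  classical
  obtain ⟨s, hs, hgen⟩ := exists_generic
  obtain ⟨p₀, hp₀, -⟩ := exists_name (U s) [] (by simp)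
  refine ⟨U s, quasiMin_U hs hgen, ⟨Phi, continuous_of_name
    (a := fun m => nm p₀ (dl m)) (nm_name hs hp₀)⟩, ?_, ?_⟩
  · rintro ⟨a, ha, hn⟩
    have hex : ∀ n, ∃ m, a (pre (fun i => if i = 0 then n else 0) m) ≠ 0 := by
      intro n
      obtain ⟨k, -, hk⟩ := hn fun i => if i = 0 then n else 0
      exact ⟨k, by rw [hk k le_rfl]; omega⟩
    have h1 : Primrec fun z : ℕ × ℕ => pre (fun i => if i = 0 then z.1 else 0) z.2 := by
      unfold pre
      refine Primrec.encode.comp (pr_map (by fun_prop) ?_)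
      exact Primrec.ite (pp_eq (by fun_prop) (by fun_prop)) (by fun_prop) (by fun_prop)
    have h2 : PrimrecPred fun m : ℕ => m ≠ 0 := pp_ne (by fun_prop) (by fun_prop)
    have h3 := computable_find (p := fun n m => a (pre (fun i => if i = 0 then n else 0) m) ≠ 0)
      (h2.decide.to_comp.comp (ha.comp h1.to_comp)) hex
    refine not_bdd h3 fun n => (hh_le_iff _ _).2 fun t v hv => ?_
    by_contra hlt
    have h4 := Nat.find_spec (hex n)
    have val : ∀ g : ℕ → ℕ, (∀ i, i < Nat.find (hex n) → g i = if i = 0 then n else 0) →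
        a (pre (fun i => if i = 0 then n else 0) (Nat.find (hex n))) = Phi g + 1 := by
      intro g hg
      rw [← pre_congr hg] at h4 ⊢
      obtain ⟨k, h5, h6⟩ := hn g
      by_cases hk : Nat.find (hex n) < k
      · exact absurd (h5 _ hk) h4
      · exact h6 _ (by omega)
    have h5 := val _ fun _ _ => rfl
    have h6 := val (fun i => if i = 0 then n else if i = v + 1 then t else 0) fun i hi => by
      by_cases h0 : i = 0
      · simp [h0]
      · rw [if_neg h0, if_neg h0, if_neg (by omega)]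
    rw [h5] at h6
    unfold Phi at h6
    rw [if_neg (by simp [Data.Act_zero]), if_pos ⟨v, by simpa using hv⟩] at h6
    omega
  · refine ⟨fun p => Part.some fun m => nm p (dl m), ⟨fun z => (
      (if (dl z.unpair.1).length ≤ (dl z.unpair.2).length then
        some (nm (fun i => (dl z.unpair.2).getD i 0) (dl z.unpair.1)) else none : Option ℕ) :
        Part ℕ), ?_, ?_⟩, fun p hp => ⟨_, Part.mem_some _, nm_name hs hp⟩⟩
    · refine Computable.ofOption (Primrec.to_comp (Primrec.ite (pp_le (by fun_prop) (by fun_prop))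
        (Primrec.option_some.comp ?_) (Primrec.const none)))
      unfold nm
      refine Primrec.ite (pp_bex (by fun_prop) (pp_and (pp_ne (pr_getD _ ?_ ?_) ?_)
        (pp_and (pp_eq ?_ (pr_getD _ ?_ ?_)) (pp_lt ?_ ?_))))
        (Primrec.ite (pp_bex (by fun_prop) (pp_and (pp_lt ?_ ?_) (pp_mem
          (pr_pair (pr_getD _ ?_ ?_) ?_) (P0.pr_Act (pr_getD _ ?_ ?_))))) ?_ ?_) ?_ <;> fun_prop
    · intro p q hq n
      rw [Part.mem_some_iff] at hq
      subst hq
      have key : ∀ k, (dl n).length ≤ k →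
          nm (fun i => ((List.range k).map p).getD i 0) (dl n) = nm p (dl n) :=
        fun k hk => nm_congr fun i hi => getD_pre _ (by omega)
      constructor
      · refine ⟨(dl n).length, ?_⟩
        simp only [Nat.unpair_pair, dl_pre, List.length_map, List.length_range, le_refl, if_true,
          key _ le_rfl]
        simp
      · intro k y hy
        simp only [Nat.unpair_pair, dl_pre, List.length_map, List.length_range] at hy
        split_ifs at hy with hk
        · rw [key k hk] at hy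
          simpa using hy
        · simp at hy

end Pool.Agent.H317Z.QM
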