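import Mathlib

set_option autoImplicit false

namespace Pool.Agent.H317Z.QM

section toolkit

variable {α β γ : Type} [Primcodable α] [Primcodable β] [Primcodable γ]

attribute [fun_prop] Primrec

@[fun_prop] theorem pr_id : Primrec (fun a : α => a) := Primrec.id
@[fun_prop] theorem pr_const (b : β) : Primrec (fun _ : α => b) := Primrec.const b
@[fun_prop] theorem pr_comp {f : β → γ} {g : α → β} (hf : Primrec f) (hg : Primrec g) :
    Primrec (fun a => f (g a)) := hf.comp hg
@[fun_prop] theorem pr_pair {f : α → β} {g : α → γ} (hf : Primrec f) (hg : Primrec g) :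
    Primrec (fun a => (f a, g a)) := hf.pair hg
@[fun_prop] theorem pr_fst {f : α → β × γ} (hf : Primrec f) : Primrec (fun a => (f a).1) :=
  Primrec.fst.comp hf
@[fun_prop] theorem pr_snd {f : α → β × γ} (hf : Primrec f) : Primrec (fun a => (f a).2) :=
  Primrec.snd.comp hf
@[fun_prop] theorem pr_add {f g : α → ℕ} (hf : Primrec f) (hg : Primrec g) :
    Primrec (fun a => f a + g a) := Primrec.nat_add.comp hf hg
@[fun_prop] theorem pr_sub {f g : α → ℕ} (hf : Primrec f) (hg : Primrec g) :
    Primrec (fun a => f a - g a) := Primrec.nat_sub.comp hf hg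
@[fun_prop] theorem pr_unpair {f : α → ℕ} (hf : Primrec f) :
    Primrec (fun a => (f a).unpair) := Primrec.unpair.comp hf
@[fun_prop] theorem pr_natPair {f g : α → ℕ} (hf : Primrec f) (hg : Primrec g) :
    Primrec (fun a => Nat.pair (f a) (g a)) := Primrec₂.natPair.comp hf hg
@[fun_prop] theorem pr_append {f g : α → List β} (hf : Primrec f) (hg : Primrec g) :
    Primrec (fun x => f x ++ g x) := Primrec.list_append.comp hf hg
@[fun_prop] theorem pr_cons {f : α → β} {g : α → List β} (hf : Primrec f) (hg : Primrec g) :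
    Primrec (fun x => f x :: g x) := Primrec.list_cons.comp hf hg
@[fun_prop] theorem pr_length {f : α → List β} (hf : Primrec f) :
    Primrec (fun x => (f x).length) := Primrec.list_length.comp hf
@[fun_prop] theorem pr_range {f : α → ℕ} (hf : Primrec f) :
    Primrec (fun x => List.range (f x)) := Primrec.list_range.comp hf
@[fun_prop] theorem pr_getD (d : β) {f : α → List β} {g : α → ℕ} (hf : Primrec f)
    (hg : Primrec g) : Primrec (fun x => (f x).getD (g x) d) :=
  (Primrec.list_getD d).comp hf hg
@[fun_prop] theorem pr_map {f : α → List β} {g : α → β → γ} (hf : Primrec f)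
    (hg : Primrec fun p : α × β => g p.1 p.2) : Primrec fun a => (f a).map (g a) :=
  Primrec.list_map hf hg.to₂
@[fun_prop] theorem pr_flatMap {f : α → List β} {g : α → β → List γ} (hf : Primrec f)
    (hg : Primrec fun p : α × β => g p.1 p.2) : Primrec fun a => (f a).flatMap (g a) :=
  Primrec.list_flatMap hf hg.to₂

theorem pp_lt {f g : α → ℕ} (hf : Primrec f) (hg : Primrec g) :
    PrimrecPred (fun a => f a < g a) := Primrec.nat_lt.comp hf hg

theorem pp_le {f g : α → ℕ} (hf : Primrec f) (hg : Primrec g) :
    PrimrecPred (fun a => f a ≤ g a) := Primrec.nat_le.comp hf hg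

theorem pp_eq {f g : α → β} (hf : Primrec f) (hg : Primrec g) :
    PrimrecPred (fun a => f a = g a) := Primrec.eq.comp hf hg

theorem pp_not {p : α → Prop} (hp : PrimrecPred p) : PrimrecPred (fun a => ¬ p a) := hp.not

theorem pp_ne {f g : α → β} (hf : Primrec f) (hg : Primrec g) :
    PrimrecPred (fun a => f a ≠ g a) := pp_not (pp_eq hf hg)

theorem pp_and {p q : α → Prop} (hp : PrimrecPred p) (hq : PrimrecPred q) :
    PrimrecPred (fun a => p a ∧ q a) := hp.and hq

theorem pp_or {p q : α → Prop} (hp : PrimrecPred p) (hq : PrimrecPred q) :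
    PrimrecPred (fun a => p a ∨ q a) := hp.or hq

theorem pp_imp {p q : α → Prop} (hp : PrimrecPred p) (hq : PrimrecPred q) :
    PrimrecPred (fun a => p a → q a) :=
  (hp.not.or hq).of_eq fun a => by tauto

theorem pp_lall {f : α → List β} {R : β → α → Prop} (hf : Primrec f)
    (hR : PrimrecPred (fun p : β × α => R p.1 p.2)) :
    PrimrecPred (fun a => ∀ x, x ∈ f a → R x a) := by
  have h : PrimrecRel (fun (L : List β) (b : α) => ∀ a ∈ L, R a b) :=
    PrimrecRel.forall_mem_list hR
  exact PrimrecRel.comp h hf Primrec.id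

theorem pp_lex {f : α → List β} {R : β → α → Prop} (hf : Primrec f)
    (hR : PrimrecPred (fun p : β × α => R p.1 p.2)) :
    PrimrecPred (fun a => ∃ x, x ∈ f a ∧ R x a) := by
  have h : PrimrecRel (fun (L : List β) (b : α) => ∃ a ∈ L, R a b) :=
    PrimrecRel.exists_mem_list hR
  exact PrimrecRel.comp h hf Primrec.id

theorem pp_ball {f : α → ℕ} {R : ℕ → α → Prop} (hf : Primrec f)
    (hR : PrimrecPred (fun p : ℕ × α => R p.1 p.2)) :
    PrimrecPred (fun a => ∀ x, x < f a → R x a) :=
  (pp_lall (f := fun a => List.range (f a)) (by fun_prop) hR).of_eq fun a => by simp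

theorem pp_bex {f : α → ℕ} {R : ℕ → α → Prop} (hf : Primrec f)
    (hR : PrimrecPred (fun p : ℕ × α => R p.1 p.2)) :
    PrimrecPred (fun a => ∃ x, x < f a ∧ R x a) :=
  (pp_lex (f := fun a => List.range (f a)) (by fun_prop) hR).of_eq fun a => by simp

theorem pp_mem {f : α → List β} {g : α → β} (hg : Primrec g) (hf : Primrec f) :
    PrimrecPred (fun a => g a ∈ f a) :=
  (pp_lex (R := fun x a => x = g a) hf (pp_eq (by fun_prop) (by fun_prop))).of_eq
    fun a => by simp

open Classical in
theorem pr_decide {p : α → Prop} (hp : PrimrecPred p) : Primrec fun a => decide (p a) :=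
  hp.decide

open Classical in
theorem pr_filter {f : α → List β} {R : β → α → Prop} (hf : Primrec f)
    (hR : PrimrecPred (fun p : β × α => R p.1 p.2)) :
    Primrec fun a => (f a).filter (fun x => decide (R x a)) := by
  have h : Primrec₂ fun (L : List β) (b : α) => L.filter (fun x => decide (R x b)) :=
    PrimrecRel.listFilter hR
  exact h.comp hf Primrec.id

open Classical in
theorem pr_ite {p : α → Prop} {f g : α → β} (hp : PrimrecPred p) (hf : Primrec f)
    (hg : Primrec g) : Primrec fun a => if p a then f a else g a :=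
  Primrec.ite hp hf hg

end toolkit

end Pool.Agent.H317Z.QM
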