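import Pool.Agent.H317Z.QMCons

set_option autoImplicit false

namespace Pool.Agent.H317Z.QM

/-- the leftmost path visited infinitely often -/
theorem exists_truePath (D : ℕ → ℕ → Bool) : ∃ γ : ℕ → Bool,
    (∀ e, γ e = true ↔ ∀ N, ∃ t, N ≤ t ∧ (∀ i, i < e → D t i = γ i) ∧ D t e = true) := by
  classical
  let G : ℕ → ℕ → Bool := fun n => Nat.rec (fun _ => false) (fun n g => Function.update g n
    (@decide (∀ N, ∃ t, N ≤ t ∧ (∀ i, i < n → D t i = g i) ∧ D t n = true)
      (Classical.propDecidable _))) n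
  have hG : ∀ n, G (n + 1) = Function.update (G n) n
    (@decide (∀ N, ∃ t, N ≤ t ∧ (∀ i, i < n → D t i = G n i) ∧ D t n = true)
      (Classical.propDecidable _)) := fun n => rfl
  have h1 : ∀ i n, i < n → G n i = G (i + 1) i := by
    intro i n h
    induction n, h using Nat.le_induction with
    | base => rfl
    | succ n h ih => rw [hG, Function.update_of_ne (by omega), ih]
  refine ⟨fun i => G (i + 1) i, fun e => ?_⟩
  simp only
  rw [hG, Function.update_self, @decide_eq_true_eq _ (Classical.propDecidable _)]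
  refine forall_congr' fun N => exists_congr fun t => and_congr_right fun _ =>
    and_congr_left fun _ => forall₂_congr fun i hi => ?_
  rw [h1 i e hi]

theorem truePath_often {D : ℕ → ℕ → Bool} {γ : ℕ → Bool}
    (hγ : ∀ e, γ e = true ↔ ∀ N, ∃ t, N ≤ t ∧ (∀ i, i < e → D t i = γ i) ∧ D t e = true)
    (e : ℕ) : ∀ N, ∃ t, N ≤ t ∧ ∀ i, i < e → D t i = γ i := by
  induction e with
  | zero => exact fun N => ⟨N, le_rfl, fun i hi => absurd hi (by omega)⟩
  | succ e ih =>
    intro N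
    by_cases h : γ e = true
    · obtain ⟨t, h1, h2, h3⟩ := (hγ e).1 h N
      refine ⟨t, h1, fun i hi => ?_⟩
      rcases Nat.lt_succ_iff_lt_or_eq.1 hi with hi | rfl
      · exact h2 i hi
      · rw [h3, h]
    · have h' := h
      rw [hγ] at h'
      push Not at h'
      obtain ⟨M, hM⟩ := h'
      obtain ⟨t, h1, h2⟩ := ih (max N M)
      refine ⟨t, le_trans (le_max_left _ _) h1, fun i hi => ?_⟩
      rcases Nat.lt_succ_iff_lt_or_eq.1 hi with hi | rfl
      · exact h2 i hi
      · have := hM t (le_trans (le_max_right _ _) h1) h2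
        rw [Bool.not_eq_true] at h
        simpa [h] using this

theorem truePath_left {D : ℕ → ℕ → Bool} {γ : ℕ → Bool}
    (hγ : ∀ e, γ e = true ↔ ∀ N, ∃ t, N ≤ t ∧ (∀ i, i < e → D t i = γ i) ∧ D t e = true)
    (e : ℕ) : ∃ N, ∀ t, N ≤ t → ∀ i, i < e → (∀ i', i' < i → D t i' = γ i') →
      D t i = true → γ i = true := by
  induction e with
  | zero => exact ⟨0, fun t _ i hi => absurd hi (by omega)⟩
  | succ e ih =>
    obtain ⟨N, hN⟩ := ih
    by_cases h : γ e = true
    · refine ⟨N, fun t ht i hi => ?_⟩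
      rcases Nat.lt_succ_iff_lt_or_eq.1 hi with hi | rfl
      · exact hN t ht i hi
      · exact fun _ _ => h
    · have h' := h
      rw [hγ] at h'
      push Not at h'
      obtain ⟨M, hM⟩ := h'
      refine ⟨max N M, fun t ht i hi => ?_⟩
      rcases Nat.lt_succ_iff_lt_or_eq.1 hi with hi | rfl
      · exact hN t (le_trans (le_max_left _ _) ht) i hi
      · exact fun h1 h2 => absurd h2 (hM t (le_trans (le_max_right _ _) ht) h1)

namespace Data

variable (P : Data)

theorem Act_mono {t t' : ℕ} (h : t ≤ t') {q : ℕ × ℕ} (hq : q ∈ P.Act t) : q ∈ P.Act t' := by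
  induction t', h using Nat.le_induction with
  | base => exact hq
  | succ t' _ ih => exact (P.mem_Act_succ t' q).2 (Or.inl ih)

theorem mem_Act {t : ℕ} {q : ℕ × ℕ} (hq : q ∈ P.Act t) : ∃ u j, P.El u j q.1 q.2 := by
  induction t with
  | zero => simp [Act_zero] at hq
  | succ t ih =>
    rcases (P.mem_Act_succ t q).1 hq with h | ⟨j, h⟩
    · exact ih h
    · exact ⟨t, j, h⟩

theorem El_once {t t' j w v w' v' : ℕ} (h : P.El t j w v) (ht : t < t') : ¬ P.El t' j w' v' :=
  fun h' => h'.1 ⟨(w, v), P.Act_mono ht ((P.mem_Act_succ t (w, v)).2 (Or.inr ⟨j, h⟩)),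
    P.ph_mono ht.le h.2.1⟩

theorem El_fin (e : ℕ) : ∃ N, ∀ j, j < e → ∀ t, N ≤ t → ∀ w v, ¬ P.El t j w v := by
  induction e with
  | zero => exact ⟨0, fun j hj => absurd hj (by omega)⟩
  | succ e ih =>
    obtain ⟨N, hN⟩ := ih
    by_cases h : ∃ t w v, P.El t e w v
    · obtain ⟨t, w, v, h⟩ := h
      refine ⟨max N (t + 1), fun j hj t' ht' w' v' => ?_⟩
      rcases Nat.lt_succ_iff_lt_or_eq.1 hj with hj | rfl
      · exact hN j hj t' (le_trans (le_max_left _ _) ht') w' v'
      · exact P.El_once h (le_trans (le_max_right _ _) ht')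
    · refine ⟨N, fun j hj t' ht' w' v' => ?_⟩
      rcases Nat.lt_succ_iff_lt_or_eq.1 hj with hj | rfl
      · exact hN j hj t' ht' w' v'
      · exact fun h' => h ⟨t', w', v', h'⟩

theorem Act_bdd (n : ℕ) : ∃ k, ∀ t v, (n, v) ∈ P.Act t → v < k := by
  obtain ⟨N, hN⟩ := P.El_fin (n + 1)
  refine ⟨N, fun t v h => ?_⟩
  obtain ⟨u, j, h⟩ := P.mem_Act h
  have h1 : j ≤ n := h.2.2.2.2.2
  obtain ⟨s, hs, -, -, h2⟩ := h.2.2.1
  have h3 : u < N := by
    by_contra hh
    exact hN j (by omega) u (by omega) _ _ h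
  simp only at h2
  omega

theorem Tr_anti {e a t t' : ℕ} (h : t ≤ t') (h' : P.Tr e a (P.Act t')) : P.Tr e a (P.Act t) :=
  fun p hp q hq => h' p hp q (P.Act_mono h hq)

/-- the axiom is true at all stages -/
def TrA (e a : ℕ) : Prop := ∀ t, P.Tr e a (P.Act t)

theorem Tr_succ {e a t : ℕ} (h : P.Tr e a (P.Act t))
    (h' : ∀ j w v, P.El t j w v → ∀ p, p ∈ P.cons e a → w = p.1 → v < p.2) :
    P.Tr e a (P.Act (t + 1)) := by
  intro p hp q hq hqp
  rcases (P.mem_Act_succ t q).1 hq with hq | ⟨j, hq⟩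
  · exact h p hp q hq hqp
  · exact h' j _ _ hq p hp hqp

theorem Spl_of {e u a b : ℕ} {L : List (ℕ × ℕ)} (ha : P.ax e u a) (hb : P.ax e u b)
    (ta : P.Tr e a L) (tb : P.Tr e b L) (h1 : P.arg a = P.arg b) (h2 : P.val a ≠ P.val b) :
    P.Spl e u L := ⟨a, P.ax_lt ha, b, P.ax_lt hb, ha, hb, ta, tb, h1, h2⟩

theorem Spl_persist {e N t : ℕ} (hN : ∀ j, j < e + 1 → ∀ t, N ≤ t → ∀ w v, ¬ P.El t j w v)
    (ht : N ≤ t) (h : P.Spl e t (P.Act t)) :
    ∃ u a b, P.ax e u a ∧ P.ax e u b ∧ P.TrA e a ∧ P.TrA e b ∧ P.arg a = P.arg b ∧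
      P.val a ≠ P.val b := by
  classical
  have hex : ∃ u, P.Spl e u (P.Act t) := ⟨t, h⟩
  obtain ⟨a, -, b, -, ha, hb, ta, tb, h1, h2⟩ := Nat.find_spec hex
  have hu : Nat.find hex ≤ t := Nat.find_min' hex h
  have key : ∀ t', t ≤ t' → P.Tr e a (P.Act t') ∧ P.Tr e b (P.Act t') := by
    intro t' ht'
    induction t', ht' using Nat.le_induction with
    | base => exact ⟨ta, tb⟩
    | succ t' ht' ih =>
      have hw : ∀ j w v, P.El t' j w v → Nat.find hex ≤ w := by
        intro j w v hE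
        have hj : e < j := by
          by_contra hh
          exact hN j (by omega) t' (by omega) w v hE
        obtain ⟨c, hc, d, hd, h3, h4, h5, h6, h7, h8⟩ := hE.2.2.2.2.1 e hj
          (P.Spl_of (P.ax_mono (by omega) ha) (P.ax_mono (by omega) hb) ih.1 ih.2 h1 h2)
        exact Nat.find_min' hex ⟨c, hc, d, hd, h3, h4, P.Tr_anti ht' h5, P.Tr_anti ht' h6, h7, h8⟩
      refine ⟨P.Tr_succ ih.1 fun j w v hE p hp hwp => ?_,
        P.Tr_succ ih.2 fun j w v hE p hp hwp => ?_⟩
      · have := P.ax_cons ha p hp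
        have := hw j w v hE
        omega
      · have := P.ax_cons hb p hp
        have := hw j w v hE
        omega
  exact ⟨_, a, b, ha, hb, fun t' => P.Tr_anti (le_max_right t t') (key _ (le_max_left _ _)).1,
    fun t' => P.Tr_anti (le_max_right t t') (key _ (le_max_left _ _)).2, h1, h2⟩

theorem Spl_bound (j : ℕ) : ∃ N, ∀ e, e < j → ∀ t, N ≤ t → ∀ w, N ≤ w →
    P.Spl e t (P.Act t) → P.Spl e w (P.Act t) := by
  induction j with
  | zero => exact ⟨0, fun e he => absurd he (by omega)⟩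
  | succ j ih =>
    obtain ⟨N, hN⟩ := ih
    obtain ⟨M, hM⟩ := P.El_fin (j + 1)
    by_cases h : ∃ t, M ≤ t ∧ P.Spl j t (P.Act t)
    · obtain ⟨t, ht, h⟩ := h
      obtain ⟨u, a, b, ha, hb, ta, tb, h1, h2⟩ := P.Spl_persist hM ht h
      refine ⟨max N u, fun e he t' ht' w hw => ?_⟩
      rcases Nat.lt_succ_iff_lt_or_eq.1 he with he | rfl
      · exact hN e he t' (le_trans (le_max_left _ _) ht') w (le_trans (le_max_left _ _) hw)
      · have hw' : u ≤ w := le_trans (le_max_right _ _) hw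
        exact fun _ => P.Spl_of (P.ax_mono hw' ha) (P.ax_mono hw' hb) (ta _) (tb _) h1 h2
    · refine ⟨max N M, fun e he t' ht' w hw => ?_⟩
      rcases Nat.lt_succ_iff_lt_or_eq.1 he with he | rfl
      · exact hN e he t' (le_trans (le_max_left _ _) ht') w (le_trans (le_max_left _ _) hw)
      · exact fun h' => absurd ⟨t', le_trans (le_max_right _ _) ht', h'⟩ h

/-- every total function is beaten somewhere -/
theorem beat (j : ℕ) (hj : ∀ w, ∃ t v, P.ph j t w v) :
    ∃ t w v, (w, v) ∈ P.Act t ∧ P.ph j t w v := by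
  obtain ⟨γ, hγ⟩ := exists_truePath P.D
  obtain ⟨N₁, h₁⟩ := truePath_left hγ j
  obtain ⟨N₂, h₂⟩ := P.Spl_bound j
  obtain ⟨t₁, v, hv⟩ := hj (N₁ + N₂ + j)
  obtain ⟨s, hs, hs'⟩ := truePath_often hγ j (N₁ + N₂ + j + v + 1)
  obtain ⟨t, ht, ht'⟩ := truePath_often hγ j (s + t₁ + 1)
  by_cases h : ∃ q, q ∈ P.Act t ∧ P.ph j t q.1 q.2
  · obtain ⟨q, h1, h2⟩ := h
    exact ⟨t, q.1, q.2, h1, h2⟩
  · have hE : P.El t j (N₁ + N₂ + j) v := by
      refine ⟨h, P.ph_mono (by omega) hv, ⟨s, by omega, fun i hi => ?_, by omega, by omega⟩,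
        ?_, fun e he => h₂ e he t (by omega) _ (by omega), by omega⟩
      · rw [hs' i hi, ht' i hi]
      · rintro u - ⟨i, hi, h3, h4, h5⟩
        by_contra hh
        have := h₁ u (by omega) i hi (fun i' hi' => by rw [h3 i' hi', ht' i' (by omega)]) h4
        rw [ht' i hi, this] at h5
        exact absurd h5 (by simp)
    exact ⟨t + 1, _, v, (P.mem_Act_succ t (_, v)).2 (Or.inr ⟨j, hE⟩),
      P.ph_mono (by omega) hE.2.1⟩

theorem collect {e s : ℕ}
    (hT : ∀ x b, ∃ a t, P.ax e t a ∧ P.arg a = x ∧ P.TrA e a ∧ P.Safe e a b) (n : ℕ) :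
    ∃ M, ∀ x, x < n → ∃ a, P.ax e M a ∧ P.arg a = x ∧ P.TrA e a ∧ P.Safe e a s := by
  induction n with
  | zero => exact ⟨0, fun x hx => absurd hx (by omega)⟩
  | succ n ih =>
    obtain ⟨M, hM⟩ := ih
    obtain ⟨a, t, h1, h2, h3, h4⟩ := hT n s
    refine ⟨max M t, fun x hx => ?_⟩
    rcases Nat.lt_succ_iff_lt_or_eq.1 hx with hx | rfl
    · obtain ⟨b, h5, h6⟩ := hM x hx
      exact ⟨b, P.ax_mono (le_max_left _ _) h5, h6⟩
    · exact ⟨a, P.ax_mono (le_max_right _ _) h1, h2, h3, h4⟩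

/-- a consistent operator that is total above all finite bounds computes a computable function -/
theorem comp_of (e : ℕ)
    (hC : ∀ u a b, P.ax e u a → P.ax e u b → P.TrA e a → P.TrA e b → P.arg a = P.arg b →
      P.val a = P.val b)
    (hT : ∀ x b, ∃ a t, P.ax e t a ∧ P.arg a = x ∧ P.TrA e a ∧ P.Safe e a b) :
    ∃ f : ℕ → ℕ, Computable f ∧ ∀ t a, P.ax e t a → P.TrA e a → f (P.arg a) = P.val a := by
  classical
  obtain ⟨γ, hγ⟩ := exists_truePath P.D
  have hγe : γ e = true := by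
    by_contra hne
    have h' := hne
    rw [hγ] at h'
    push Not at h'
    obtain ⟨N, hN⟩ := h'
    obtain ⟨M, hM⟩ := P.collect (s := N) hT N
    obtain ⟨t, ht, ht'⟩ := truePath_often hγ e (N + M + e + 1)
    refine hN t (by omega) ht' ((P.D_spec (by omega)).2 fun s _ h1 h2 x hx => ?_)
    have hs : s < N := by
      by_contra hh
      exact hN s (by omega) (fun i hi => by rw [h1 i hi, ht' i hi]) h2
    obtain ⟨a, h3, h4, h5, h6⟩ := hM x (by omega)
    refine ⟨a, P.ax_mono (by omega) h3, h4, h5 t, fun p hp hps => ?_⟩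
    have := h6 p hp (by omega)
    omega
  obtain ⟨N₁, h₁⟩ := truePath_left hγ (e + 1)
  obtain ⟨N₂, h₂⟩ := P.El_fin (e + 1)
  have noSpl : ∀ t, N₂ ≤ t → ∀ a b, P.ax e t a → P.ax e t b → P.Tr e a (P.Act t) →
      P.Tr e b (P.Act t) → P.arg a = P.arg b → P.val a = P.val b := by
    intro t ht a b ha hb ta tb hab
    by_contra hne
    obtain ⟨u, c, d, h1, h2, h3, h4, h5, h6⟩ :=
      P.Spl_persist h₂ ht (P.Spl_of ha hb ta tb hab hne)
    exact h6 (hC u c d h1 h2 h3 h4 h5)
  let Ex : ℕ → Prop := fun t => ∀ i, i < e + 1 → P.D t i = γ i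
  have test : ∀ t s, Ex t → s < t → Ex s → ∀ x, x < s →
      ∃ a, P.ax e t a ∧ P.arg a = x ∧ P.Tr e a (P.Act t) ∧ P.Safe e a s := by
    intro t s ht hs hs'
    have h1 : P.D t e = true := by rw [ht e (by omega), hγe]
    exact (P.D_spec (P.D_lt h1)).1 h1 s hs
      (fun i hi => by rw [ht i (by omega), hs' i (by omega)]) (by rw [hs' e (by omega), hγe])
  let Good : ℕ → ℕ → ℕ → Prop := fun x t a => N₁ + N₂ ≤ t ∧ Ex t ∧
    (∃ s, s < t ∧ Ex s ∧ x < s) ∧ P.ax e t a ∧ P.arg a = x ∧ P.Tr e a (P.Act t)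
  have renew : ∀ x t a, Good x t a →
      ∃ b, P.ax e t b ∧ P.arg b = x ∧ P.val b = P.val a ∧ P.Tr e b (P.Act (t + 1)) := by
    rintro x t a ⟨h1, h2, ⟨s, h3, h4, h5⟩, h6, h7, h8⟩
    have hs1 : s ≤ Nat.findGreatest Ex (t - 1) := Nat.le_findGreatest (by omega) h4
    have hs2 : Ex (Nat.findGreatest Ex (t - 1)) := Nat.findGreatest_spec (by omega) h4
    have hs3 : Nat.findGreatest Ex (t - 1) ≤ t - 1 := Nat.findGreatest_le _
    obtain ⟨b, hb1, hb2, hb3, hb4⟩ := test t _ h2 (by omega) hs2 x (by omega)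
    refine ⟨b, hb1, hb2, noSpl t (by omega) b a hb1 h6 hb3 h8 (by rw [hb2, h7]),
      P.Tr_succ hb3 fun j w v hE p hp hwp => ?_⟩
    have hj : e < j := by
      by_contra hh
      exact h₂ j (by omega) t (by omega) w v hE
    obtain ⟨s', h9, h10, h11, h12⟩ := hE.2.2.1
    have h13 : s' ≤ Nat.findGreatest Ex (t - 1) := Nat.le_findGreatest (by omega)
      fun i hi => by rw [h10 i (by omega), h2 i hi]
    have := hb4 p hp (by omega)
    omega
  have keep : ∀ x t a, Good x t a → ∀ t', t + 1 ≤ t' → ∃ u b, u < t' ∧ Ex u ∧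
      P.ax e u b ∧ P.arg b = x ∧ P.val b = P.val a ∧ P.Tr e b (P.Act t') := by
    intro x t a hG t' ht'
    induction t', ht' using Nat.le_induction with
    | base =>
      obtain ⟨b, h⟩ := renew x t a hG
      exact ⟨t, b, by omega, hG.2.1, h⟩
    | succ t' ht' ih =>
      obtain ⟨u, b, h1, h2, h3, h4, h5, h6⟩ := ih
      have hN := hG.1
      by_cases hE : Ex t'
      · obtain ⟨s, h7, h8, h9⟩ := hG.2.2.1
        obtain ⟨c, h10, h11, h12, h13⟩ := renew x t' b
          ⟨by omega, hE, ⟨s, by omega, h8, h9⟩, P.ax_mono h1.le h3, h4, h6⟩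
        exact ⟨t', c, by omega, hE, h10, h11, by rw [h12, h5], h13⟩
      · refine ⟨u, b, by omega, h2, h3, h4, h5, P.Tr_succ h6 fun j w v hE' p hp hwp => ?_⟩
        have hj : e < j := by
          by_contra hh
          exact h₂ j (by omega) t' (by omega) w v hE'
        have hex : ∃ i, i < e + 1 ∧ P.D t' i ≠ γ i := by
          by_contra hh
          push Not at hh
          exact hE hh
        have hi := Nat.find_spec hex
        have hmin : ∀ i', i' < Nat.find hex → P.D t' i' = γ i' := by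
          intro i' hi'
          by_contra hh
          exact Nat.find_min hex hi' ⟨by omega, hh⟩
        have hf : P.D t' (Nat.find hex) = false := by
          by_contra hh
          rw [Bool.not_eq_false] at hh
          exact hi.2 (by rw [hh, h₁ t' (by omega) _ hi.1 hmin hh])
        have hg : γ (Nat.find hex) = true := by
          by_contra hh
          rw [Bool.not_eq_true] at hh
          exact hi.2 (by rw [hh, hf])
        have := hE'.2.2.2.1 u h1 ⟨Nat.find hex, by omega,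
          fun i' hi' => by rw [h2 i' (by omega), hmin i' hi'], by rw [h2 _ hi.1, hg], hf⟩
        have := P.ax_cons h3 p hp
        omega
  have correct : ∀ x t a, Good x t a → ∀ u c, P.ax e u c → P.TrA e c → P.arg c = x →
      P.val a = P.val c := by
    intro x t a hG u c h1 h2 h3
    obtain ⟨u', b, h4, -, h5, h6, h7, h8⟩ := keep x t a hG (t + 1 + u) (by omega)
    have hN := hG.1
    rw [← h7]
    exact noSpl (t + 1 + u) (by omega) b c (P.ax_mono h4.le h5) (P.ax_mono (by omega) h1) h8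
      (h2 _) (by rw [h6, h3])
  have exG : ∀ x, ∃ n : ℕ, Good x n.unpair.1 n.unpair.2 := by
    intro x
    obtain ⟨s, hs, hs'⟩ := truePath_often hγ (e + 1) (x + 1)
    obtain ⟨t, ht, ht'⟩ := truePath_often hγ (e + 1) (N₁ + N₂ + s + 1)
    obtain ⟨a, h1, h2, h3, -⟩ := test t s ht' (by omega) hs' x (by omega)
    refine ⟨Nat.pair t a, ?_⟩
    rw [Nat.unpair_pair]
    exact ⟨by omega, ht', ⟨s, by omega, hs', by omega⟩, h1, h2, h3⟩
  have pEx : ∀ {α : Type} [Primcodable α] {f : α → ℕ}, Primrec f →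
      PrimrecPred fun a => Ex (f a) := by
    intro α _ f hf
    have h : PrimrecPred fun a => ∀ i, i < e + 1 →
        P.D (f a) i = ((List.range (e + 1)).map γ).getD i false :=
      pp_ball (by fun_prop) (pp_eq (P.pr_D (by fun_prop) (by fun_prop))
        (pr_getD _ (by fun_prop) (by fun_prop)))
    refine h.of_eq fun a => forall₂_congr fun i hi => ?_
    rw [List.getD_eq_getElem _ _ (by simpa using hi)]
    simp
  have pG : PrimrecPred fun z : ℕ × ℕ => Good z.1 z.2.unpair.1 z.2.unpair.2 := by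
    refine pp_and (pp_le ?_ ?_) (pp_and (pEx ?_) (pp_and (pp_bex ?_ (pp_and (pEx ?_)
      (pp_lt ?_ ?_))) (pp_and (P.pp_ax ?_ ?_ ?_) (pp_and (pp_eq ?_ ?_)
        (P.pp_Tr ?_ ?_ (P.pr_Act ?_)))))) <;> fun_prop
  have cF : Computable fun x => Nat.find (exG x) := by
    have h : Partrec fun x => Nat.rfind fun n =>
        (Part.some (@decide (Good x n.unpair.1 n.unpair.2) (Classical.propDecidable _))) :=
      Partrec.rfind (Computable.partrec (pr_decide pG).to_comp).to₂
    refine h.of_eq_tot fun x => ?_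
    rw [Nat.mem_rfind]
    refine ⟨by simpa using Nat.find_spec (exG x), fun {m} hm => ?_⟩
    simpa using Nat.find_min (exG x) hm
  refine ⟨fun x => P.val (Nat.find (exG x)).unpair.2,
    P.p_val.to_comp.comp ((Primrec.snd.comp Primrec.unpair).to_comp.comp cF),
    fun t a h1 h2 => ?_⟩
  exact correct _ _ _ (Nat.find_spec (exG (P.arg a))) t a h1 h2 rfl

end Data

end Pool.Agent.H317Z.QM
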