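import Pool.Agent.H317Z.StairDefs

set_option autoImplicit false

namespace Pool.Agent.H317Z.Stair

open MeasureTheory ProbabilityTheory Set Filter Topology

instance noise_prob : IsProbabilityMeasure noise := by
  unfold noise; infer_instance

lemma wt_nonneg (x : ℕ × ℕ) : 0 ≤ wt x := by
  unfold wt; split_ifs <;> positivity

lemma acc_nonneg (x y : ℕ × ℕ) : 0 ≤ acc x y :=
  div_nonneg (wt_nonneg y) (add_nonneg (wt_nonneg y) (wt_nonneg x))

lemma acc_le_one (x y : ℕ × ℕ) : acc x y ≤ 1 :=
  div_le_one_of_le₀ (le_add_of_nonneg_right (wt_nonneg x)) (add_nonneg (wt_nonneg y) (wt_nonneg x))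

/-- The transition operator. -/
noncomputable def K (θ : ℝ) (f : ℕ × ℕ → ℝ) (x : ℕ × ℕ) : ℝ :=
  f x + θ * acc x (fwd x) * (f (fwd x) - f x) + (1 - θ) * acc x (bwd x) * (f (bwd x) - f x)

lemma measurable_step (θ : ℝ) (x : ℕ × ℕ) : Measurable (step θ x) := by
  unfold step
  have h1 : Measurable fun u : unitInterval × unitInterval => (u.1 : ℝ) := by fun_prop
  have h2 : Measurable fun u : unitInterval × unitInterval => (u.2 : ℝ) := by fun_prop
  refine Measurable.ite (measurableSet_lt h1 measurable_const) ?_ ?_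
  · exact Measurable.ite (measurableSet_lt h2 measurable_const) measurable_const measurable_const
  · exact Measurable.ite (measurableSet_lt h2 measurable_const) measurable_const measurable_const

lemma measurable_step2 (θ : ℕ × ℕ → ℝ) :
    Measurable (fun p : (ℕ × ℕ) × (unitInterval × unitInterval) => step (θ p.1) p.1 p.2) :=
  measurable_from_prod_countable_right fun x => measurable_step (θ x) x

lemma measurable_walk (θ : ℕ → ℕ × ℕ → ℝ) (t : ℕ) : Measurable (fun ω => walk θ ω t) := by
  induction t with
  | zero => exact measurable_const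
  | succ t ih =>
    exact (measurable_step2 (θ (t + 1))).comp (ih.prodMk (measurable_pi_apply t))

lemma walk_congr (θ : ℕ → ℕ × ℕ → ℝ) (ω ω' : ℕ → unitInterval × unitInterval) (t : ℕ)
    (h : ∀ i < t, ω i = ω' i) : walk θ ω t = walk θ ω' t := by
  induction t with
  | zero => rfl
  | succ t ih =>
    have := ih fun i hi => h i (by omega)
    simp only [walk, this, h t (by omega)]

lemma indep_walk (θ : ℕ → ℕ × ℕ → ℝ) (t : ℕ) :
    IndepFun (fun ω => walk θ ω t) (fun ω => ω t) noise := by
  classical
  have h0 : iIndepFun (fun (i : ℕ) (ω : ℕ → unitInterval × unitInterval) => ω i) noise :=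
    iIndepFun_infinitePi (X := fun _ u => u) (fun _ => measurable_id)
  have h1 := h0.indepFun_finset (Finset.range t) {t} (by simp) (fun i => measurable_pi_apply i)
  let g : ((i : Finset.range t) → unitInterval × unitInterval) → ℕ × ℕ := fun η =>
    walk θ (fun i => if h : i ∈ Finset.range t then η ⟨i, h⟩ else (0, 0)) t
  let g' : ((i : ({t} : Finset ℕ)) → unitInterval × unitInterval) → unitInterval × unitInterval :=
    fun η => η ⟨t, by simp⟩
  have hg : Measurable g := by
    refine (measurable_walk θ t).comp (measurable_pi_lambda _ fun i => ?_)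
    by_cases h : i ∈ Finset.range t
    · simp only [h, dif_pos]; exact measurable_pi_apply _
    · simp only [h, dif_neg, not_false_eq_true]; exact measurable_const
  have hg' : Measurable g' := measurable_pi_apply _
  have h2 := h1.comp hg hg'
  have e : (fun ω => walk θ ω t) = g ∘ fun (a : ℕ → unitInterval × unitInterval)
      (i : Finset.range t) => a i := by
    funext ω
    simp only [Function.comp, g]
    apply walk_congr
    intro i hi
    simp [Finset.mem_range.2 hi]
  rw [e]
  exact h2

lemma vol_lt (θ : ℝ) (h0 : 0 ≤ θ) (h1 : θ ≤ 1) :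
    (volume : Measure unitInterval).real {u | (u : ℝ) < θ} = θ := by
  have : {u : unitInterval | (u : ℝ) < θ} = Iio (⟨θ, h0, h1⟩ : unitInterval) := rfl
  rw [this, Measure.real, unitInterval.volume_Iio]
  simp [h0]

lemma vol_ge (θ : ℝ) (h0 : 0 ≤ θ) (h1 : θ ≤ 1) :
    (volume : Measure unitInterval).real {u | θ ≤ (u : ℝ)} = 1 - θ := by
  have : {u : unitInterval | θ ≤ (u : ℝ)} = Ici (⟨θ, h0, h1⟩ : unitInterval) := rfl
  rw [this, Measure.real, unitInterval.volume_Ici]
  simp [h1]

lemma integral_step (θ : ℝ) (h0 : 0 ≤ θ) (h1 : θ ≤ 1) (f : ℕ × ℕ → ℝ) (x : ℕ × ℕ) :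
    ∫ u, f (step θ x u) ∂((volume : Measure unitInterval).prod (volume : Measure unitInterval))
      = K θ f x := by
  set A : Set (unitInterval × unitInterval) :=
    {u : unitInterval | (u : ℝ) < θ} ×ˢ {u : unitInterval | (u : ℝ) < acc x (fwd x)} with hA
  set B : Set (unitInterval × unitInterval) :=
    {u : unitInterval | θ ≤ (u : ℝ)} ×ˢ {u : unitInterval | (u : ℝ) < acc x (bwd x)} with hB
  have mc : Measurable fun u : unitInterval => (u : ℝ) := by fun_prop
  have mA : MeasurableSet A :=
    (measurableSet_lt mc measurable_const).prod (measurableSet_lt mc measurable_const)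
  have mB : MeasurableSet B :=
    (measurableSet_le measurable_const mc).prod (measurableSet_lt mc measurable_const)
  have e : ∀ u, f (step θ x u) = f x + A.indicator (fun _ => f (fwd x) - f x) u
      + B.indicator (fun _ => f (bwd x) - f x) u := by
    intro u
    unfold step
    by_cases c1 : (u.1 : ℝ) < θ
    · have nB : u ∉ B := fun h => absurd h.1 (not_le.2 c1)
      by_cases c2 : (u.2 : ℝ) < acc x (fwd x)
      · have : u ∈ A := ⟨c1, c2⟩
        simp [c1, c2, this, nB]
      · have : u ∉ A := fun h => c2 h.2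
        simp [c1, c2, this, nB]
    · have nA : u ∉ A := fun h => c1 h.1
      by_cases c2 : (u.2 : ℝ) < acc x (bwd x)
      · have : u ∈ B := ⟨not_lt.1 c1, c2⟩
        simp [c1, c2, this, nA]
      · have : u ∉ B := fun h => c2 h.2
        simp [c1, c2, this, nA]
  simp_rw [e]
  rw [integral_add, integral_add, integral_const, integral_indicator_const _ mA,
    integral_indicator_const _ mB, hA, hB, measureReal_prod_prod, measureReal_prod_prod,
    vol_lt θ h0 h1, vol_ge θ h0 h1, vol_lt _ (acc_nonneg _ _) (acc_le_one _ _),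
    vol_lt _ (acc_nonneg _ _) (acc_le_one _ _)]
  · simp [K]
  · exact integrable_const _
  · exact (integrable_const _).indicator mA
  · exact (integrable_const _).add ((integrable_const _).indicator mA)
  · exact (integrable_const _).indicator mB

lemma integrable_walk (θ : ℕ → ℕ × ℕ → ℝ) (t : ℕ) (f : ℕ × ℕ → ℝ) (C : ℝ) (hf : ∀ x, |f x| ≤ C) :
    Integrable (fun ω => f (walk θ ω t)) noise :=
  Integrable.of_bound (((measurable_of_countable f).comp (measurable_walk θ t)).aestronglyMeasurable)
    C (Eventually.of_forall fun _ => hf _)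

lemma integral_succ (θ : ℕ → ℕ × ℕ → ℝ) (t : ℕ) (h0 : ∀ x, 0 ≤ θ (t + 1) x)
    (h1 : ∀ x, θ (t + 1) x ≤ 1) (f : ℕ × ℕ → ℝ) (C : ℝ) (hf : ∀ x, |f x| ≤ C) :
    ∫ ω, f (walk θ ω (t + 1)) ∂noise
      = ∫ ω, K (θ (t + 1) (walk θ ω t)) f (walk θ ω t) ∂noise := by
  have hind := (indep_walk θ t).map_prod_eq_prod_map_map (measurable_walk θ t).aemeasurable
    (measurable_pi_apply t).aemeasurable
  have hev : noise.map (fun ω => ω t)
      = (volume : Measure unitInterval).prod (volume : Measure unitInterval) :=
    Measure.infinitePi_map_eval _ t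
  rw [hev] at hind
  let F : (ℕ × ℕ) × (unitInterval × unitInterval) → ℝ := fun p => f (step (θ (t + 1) p.1) p.1 p.2)
  have mF : Measurable F := (measurable_of_countable f).comp (measurable_step2 (θ (t + 1)))
  have e1 : ∫ ω, f (walk θ ω (t + 1)) ∂noise
      = ∫ p, F p ∂(noise.map fun ω => (walk θ ω t, ω t)) := by
    rw [integral_map ((measurable_walk θ t).prodMk (measurable_pi_apply t)).aemeasurable
      mF.aestronglyMeasurable]
    rfl
  have : IsProbabilityMeasure (noise.map fun ω => walk θ ω t) :=
    Measure.isProbabilityMeasure_map (measurable_walk θ t).aemeasurable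
  rw [e1, hind, integral_prod _ (Integrable.of_bound mF.aestronglyMeasurable C
    (Eventually.of_forall fun p => hf _)),
    integral_map (measurable_walk θ t).aemeasurable
      (measurable_of_countable _).aestronglyMeasurable]
  congr 1
  funext ω
  exact integral_step _ (h0 _) (h1 _) f _

/-- The stair. -/
def On (x : ℕ × ℕ) : Prop := 1 ≤ x.2 ∧ (x.1 = x.2 ∨ x.1 = x.2 + 1)

lemma on_of_acc_pos {x y : ℕ × ℕ} (h : 0 < acc x y) : On y := by
  by_contra hn
  have : wt y = 0 := by unfold wt; exact if_neg hn
  simp [acc, this] at h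

lemma on_walk (θ : ℕ → ℕ × ℕ → ℝ) (ω : ℕ → unitInterval × unitInterval) (t : ℕ) :
    On (walk θ ω t) := by
  induction t with
  | zero => simp [walk, On]
  | succ t ih =>
    simp only [walk, step]
    split_ifs with c1 c2 c3
    · exact on_of_acc_pos (lt_of_le_of_lt (ω t).2.2.1 c2)
    · exact ih
    · exact on_of_acc_pos (lt_of_le_of_lt (ω t).2.2.1 c3)
    · exact ih

lemma wt_on {x : ℕ × ℕ} (h : On x) : wt x = 1 / (x.2 : ℝ) ^ 2 := by
  unfold wt; exact if_pos h

end Pool.Agent.H317Z.Stair
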