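import Mathlib

set_option autoImplicit false

namespace Pool.Agent.H317Z.Stair

open MeasureTheory

/-- The target weight on `ℕ × ℕ`: `j⁻²` at a point `(i, j)` of the stair (`j ≥ 1` and `i = j` or
`i = j + 1`), and `0` off the stair. It is the target up to a normalising constant, which cancels
in the acceptance probability. -/
noncomputable def wt (x : ℕ × ℕ) : ℝ :=
  if 1 ≤ x.2 ∧ (x.1 = x.2 ∨ x.1 = x.2 + 1) then 1 / (x.2 : ℝ) ^ 2 else 0

/-- The forward neighbour: `(j, j) ↦ (j + 1, j)` and `(j + 1, j) ↦ (j + 1, j + 1)`. -/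
def fwd (x : ℕ × ℕ) : ℕ × ℕ := if x.1 = x.2 then (x.1 + 1, x.2) else (x.1, x.2 + 1)

/-- The backward neighbour: `(j, j) ↦ (j, j - 1)` and `(j + 1, j) ↦ (j, j)`. -/
def bwd (x : ℕ × ℕ) : ℕ × ℕ := if x.1 = x.2 then (x.1, x.2 - 1) else (x.1 - 1, x.2)

/-- The probability of accepting the proposal `y` at the state `x`. -/
noncomputable def acc (x y : ℕ × ℕ) : ℝ := wt y / (wt y + wt x)

/-- One step from `x`, driven by two numbers `u.1`, `u.2` of `[0, 1]`: the forward neighbour is
proposed if `u.1 < θ` and the backward neighbour otherwise; the proposal `y` is accepted if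
`u.2 < acc x y`, and otherwise the walk stays at `x`. -/
noncomputable def step (θ : ℝ) (x : ℕ × ℕ) (u : unitInterval × unitInterval) : ℕ × ℕ :=
  if (u.1 : ℝ) < θ then (if (u.2 : ℝ) < acc x (fwd x) then fwd x else x)
  else (if (u.2 : ℝ) < acc x (bwd x) then bwd x else x)

/-- The walk started at `(1, 1)`; step number `t ≥ 1` from the state `x` proposes the forward
neighbour with probability `θ t x` and uses the pair of random numbers `ω (t - 1)`. -/
noncomputable def walk (θ : ℕ → ℕ × ℕ → ℝ) (ω : ℕ → unitInterval × unitInterval) : ℕ → ℕ × ℕ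
  | 0 => (1, 1)
  | t + 1 => step (θ (t + 1) (walk θ ω t)) (walk θ ω t) (ω t)

/-- The law of an independent sequence of pairs of independent uniform numbers of `[0, 1]`. -/
noncomputable def noise : Measure (ℕ → unitInterval × unitInterval) :=
  Measure.infinitePi fun _ : ℕ => (volume : Measure unitInterval).prod (volume : Measure unitInterval)

end Pool.Agent.H317Z.Stair
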