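import Pool.Agent.H317Z.StairBasic

set_option autoImplicit false

namespace Pool.Agent.H317Z.Stair

open MeasureTheory ProbabilityTheory Set Filter Topology

lemma acc_symm (x y : ℕ × ℕ) : acc x y * wt x = acc y x * wt y := by
  unfold acc
  rw [add_comm (wt x)]
  ring

lemma fwd_eq_iff {x y : ℕ × ℕ} (hx : On x) (hy : On y) : fwd x = y ↔ x = bwd y := by
  obtain ⟨a, b⟩ := x
  obtain ⟨c, d⟩ := y
  simp only [On] at hx hy
  simp only [fwd, bwd]
  split_ifs <;> simp only [Prod.mk.injEq] <;> omega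

lemma bwd_eq_iff {x y : ℕ × ℕ} (hx : On x) (hy : On y) : bwd x = y ↔ x = fwd y := by
  rw [eq_comm, ← fwd_eq_iff hy hx, eq_comm]

lemma fwd_ne (x : ℕ × ℕ) : fwd x ≠ x := by
  obtain ⟨a, b⟩ := x
  simp only [fwd]
  split_ifs <;> simp

lemma bwd_ne {x : ℕ × ℕ} (hx : On x) : bwd x ≠ x := by
  obtain ⟨a, b⟩ := x
  simp only [On] at hx
  simp only [bwd]
  split_ifs <;> simp only [ne_eq, Prod.mk.injEq] <;> omega

lemma fwd_ne_bwd {x : ℕ × ℕ} (hx : On x) : fwd x ≠ bwd x := by
  obtain ⟨a, b⟩ := x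
  simp only [On] at hx
  simp only [fwd, bwd]
  split_ifs <;> simp only [ne_eq, Prod.mk.injEq] <;> omega

lemma prob_eq (Θ : ℕ → ℕ × ℕ → ℝ) (t : ℕ) (y : ℕ × ℕ) :
    ∫ ω, (if walk Θ ω t = y then (1 : ℝ) else 0) ∂noise = noise.real {ω | walk Θ ω t = y} := by
  have m : MeasurableSet {ω | walk Θ ω t = y} :=
    measurable_walk Θ t (measurableSet_singleton y)
  rw [← integral_indicator_one m]
  congr 1
  funext ω
  by_cases h : walk Θ ω t = y <;> simp [Set.indicator, h]

lemma point_bound (Θ : ℕ → ℕ × ℕ → ℝ) (h0 : ∀ t x, 0 ≤ Θ t x) (h1 : ∀ t x, Θ t x ≤ 1)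
    (hf : ∀ t y, On y → Θ t (fwd y) = 1 - Θ t y) (hb : ∀ t y, On y → Θ t (bwd y) = 1 - Θ t y)
    (t : ℕ) (y : ℕ × ℕ) : noise.real {ω | walk Θ ω t = y} ≤ wt y := by
  induction t generalizing y with
  | zero =>
    by_cases h : y = (1, 1)
    · subst h
      have : wt (1, 1) = 1 := by simp [wt]
      rw [this]
      exact measureReal_le_one
    · have : {ω | walk Θ ω 0 = y} = ∅ := by
        ext ω; simp [walk, Ne.symm h]
      rw [this]; simpa using wt_nonneg y
  | succ t ih =>
    by_cases hy : On y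
    swap
    · have : {ω | walk Θ ω (t + 1) = y} = ∅ := by
        ext ω
        simp only [mem_ofPred_eq, mem_empty_iff_false, iff_false]
        intro h
        exact hy (h ▸ on_walk Θ ω (t + 1))
      rw [this]; simpa using wt_nonneg y
    have bd : ∀ (z x : ℕ × ℕ), |(if x = z then (1 : ℝ) else 0)| ≤ 1 := fun z x => by
      split_ifs <;> simp
    rw [← prob_eq, integral_succ Θ t (h0 _) (h1 _) (fun x => if x = y then (1 : ℝ) else 0) 1 (bd y)]
    set θ := Θ (t + 1) y with hθ
    set c1 : ℝ := 1 - θ * acc y (fwd y) - (1 - θ) * acc y (bwd y) with hc1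
    set c2 : ℝ := (1 - θ) * acc (bwd y) y with hc2
    set c3 : ℝ := θ * acc (fwd y) y with hc3
    have e : ∀ x, On x → K (Θ (t + 1) x) (fun x => if x = y then (1 : ℝ) else 0) x
        = c1 * (if x = y then (1 : ℝ) else 0) + c2 * (if x = bwd y then (1 : ℝ) else 0)
          + c3 * (if x = fwd y then (1 : ℝ) else 0) := by
      intro x hx
      unfold K
      by_cases k1 : x = y
      · subst k1
        simp [fwd_ne x, bwd_ne hx, (fwd_ne x).symm, (bwd_ne hx).symm, hc1, hθ]
        ring
      by_cases k2 : x = bwd y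
      · have k3 : fwd x = y := (fwd_eq_iff hx hy).2 k2
        have k4 : x ≠ fwd y := by rw [k2]; exact (fwd_ne_bwd hy).symm
        have k5 : bwd x ≠ y := fun h => k4 ((bwd_eq_iff hx hy).1 h)
        simp only [k1, k3, k4, k5, if_true, if_false]
        rw [if_pos k2, hc2, hθ, ← hb _ _ hy, ← k2]
        ring
      by_cases k4 : x = fwd y
      · have k5 : bwd x = y := (bwd_eq_iff hx hy).2 k4
        have k3 : fwd x ≠ y := fun h => k2 ((fwd_eq_iff hx hy).1 h)
        simp only [k1, k2, k3, k5, if_true, if_false]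
        rw [if_pos k4, hc3, hθ, k4, hf _ _ hy]
        ring
      · have k3 : fwd x ≠ y := fun h => k2 ((fwd_eq_iff hx hy).1 h)
        have k5 : bwd x ≠ y := fun h => k4 ((bwd_eq_iff hx hy).1 h)
        simp [k1, k2, k3, k4, k5]
    simp_rw [fun ω => e _ (on_walk Θ ω t)]
    have it : ∀ z (c : ℝ), Integrable (fun ω => c * (if walk Θ ω t = z then (1 : ℝ) else 0)) noise :=
      fun z c => (integrable_walk Θ t (fun x => if x = z then (1 : ℝ) else 0) 1 (bd z)).const_mul c
    have it2 : Integrable (fun ω => c1 * (if walk Θ ω t = y then (1 : ℝ) else 0)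
        + c2 * (if walk Θ ω t = bwd y then (1 : ℝ) else 0)) noise := (it _ _).add (it _ _)
    rw [integral_add it2 (it _ _), integral_add (it _ _) (it _ _),
      integral_const_mul, integral_const_mul, integral_const_mul, prob_eq, prob_eq, prob_eq]
    have t0 : 0 ≤ θ := h0 _ _
    have t1 : θ ≤ 1 := h1 _ _
    have p1 : 0 ≤ c1 := by
      have := mul_le_mul_of_nonneg_left (acc_le_one y (fwd y)) t0
      have := mul_le_mul_of_nonneg_left (acc_le_one y (bwd y)) (sub_nonneg.2 t1)
      rw [hc1]; linarith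
    have p2 : 0 ≤ c2 := mul_nonneg (by linarith) (acc_nonneg _ _)
    have p3 : 0 ≤ c3 := mul_nonneg t0 (acc_nonneg _ _)
    have q1 := mul_le_mul_of_nonneg_left (ih y) p1
    have q2 := mul_le_mul_of_nonneg_left (ih (bwd y)) p2
    have q3 := mul_le_mul_of_nonneg_left (ih (fwd y)) p3
    have r2 : c2 * wt (bwd y) = (1 - θ) * (acc y (bwd y) * wt y) := by
      rw [hc2, mul_assoc, acc_symm]
    have r3 : c3 * wt (fwd y) = θ * (acc y (fwd y) * wt y) := by
      rw [hc3, mul_assoc, acc_symm]
    have : c1 * wt y + c2 * wt (bwd y) + c3 * wt (fwd y) = wt y := by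
      rw [r2, r3, hc1]; ring
    linarith

theorem literal (a : ℕ → ℝ) (ha : ∀ t, 8 ≤ a t) :
    noise {ω | Tendsto (fun t => (walk (fun t x => if x.1 = x.2 then 1 / 2 + 4 / a t
      else 1 / 2 - 4 / a t) ω t).2) atTop atTop} = 0 := by
  set Θ : ℕ → ℕ × ℕ → ℝ := fun t x => if x.1 = x.2 then 1 / 2 + 4 / a t else 1 / 2 - 4 / a t
    with hΘ
  have b0 : ∀ t, 0 ≤ 4 / a t := fun t => div_nonneg (by norm_num) (by linarith [ha t])
  have b1 : ∀ t, 4 / a t ≤ 1 / 2 := fun t => by
    rw [div_le_iff₀ (by linarith [ha t])]; linarith [ha t]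
  have pb := point_bound Θ
    (fun t x => by simp only [hΘ]; split_ifs <;> linarith [b0 t, b1 t])
    (fun t x => by simp only [hΘ]; split_ifs <;> linarith [b0 t, b1 t])
    (fun t y hy => by
      obtain ⟨c, d⟩ := y
      simp only [On] at hy
      simp only [hΘ, fwd]
      by_cases h : c = d
      · simp only [h, if_true]
        rw [if_neg (by omega)]; ring
      · simp only [h, if_false]
        rw [if_pos (by omega)]; ring)
    (fun t y hy => by
      obtain ⟨c, d⟩ := y
      simp only [On] at hy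
      simp only [hΘ, bwd]
      by_cases h : c = d
      · simp only [h, if_true]
        rw [if_neg (by omega)]; ring
      · simp only [h, if_false]
        rw [if_pos (by omega)]; ring)
  set g : ℕ → ℝ := fun j => 2 * (1 / (j : ℝ) ^ 2) with hg
  have gs : Summable g := (Real.summable_one_div_nat_pow.2 (by norm_num)).mul_left 2
  have g0 : ∀ j, 0 ≤ g j := fun j => by simp only [hg]; positivity
  have lev : ∀ t j, noise {ω | (walk Θ ω t).2 = j} ≤ ENNReal.ofReal (g j) := fun t j => by
    rw [← ofReal_measureReal (measure_ne_top noise _)]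
    apply ENNReal.ofReal_le_ofReal
    have sub : {ω | (walk Θ ω t).2 = j} ⊆
        {ω | walk Θ ω t = (j, j)} ∪ {ω | walk Θ ω t = (j + 1, j)} := by
      intro ω hω
      have := (on_walk Θ ω t).2
      simp only [mem_ofPred_eq, mem_union, Prod.ext_iff] at hω ⊢
      omega
    have w : ∀ i, wt (i, j) ≤ 1 / (j : ℝ) ^ 2 := fun i => by
      unfold wt; split_ifs
      · exact le_rfl
      · positivity
    refine (measureReal_mono sub).trans ((measureReal_union_le _ _).trans ?_)
    have := (pb t (j, j)).trans (w j)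
    have := (pb t (j + 1, j)).trans (w (j + 1))
    simp only [hg]; linarith
  have tail : ∀ M t, noise {ω | M ≤ (walk Θ ω t).2} ≤ ENNReal.ofReal (∑' k, g (k + M)) := by
    intro M t
    have sub : {ω | M ≤ (walk Θ ω t).2} ⊆ ⋃ k, {ω | (walk Θ ω t).2 = k + M} := by
      intro ω hω
      simp only [mem_ofPred_eq, mem_iUnion] at hω ⊢
      exact ⟨(walk Θ ω t).2 - M, by omega⟩
    refine (measure_mono sub).trans ((measure_iUnion_le _).trans ?_)
    rw [ENNReal.ofReal_tsum_of_nonneg (fun k => g0 _) ((summable_nat_add_iff M).2 gs)]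
    exact ENNReal.tsum_le_tsum fun k => lev t _
  have bound : ∀ M, noise {ω | Tendsto (fun t => (walk Θ ω t).2) atTop atTop}
      ≤ ENNReal.ofReal (∑' k, g (k + M)) := by
    intro M
    have sub : {ω | Tendsto (fun t => (walk Θ ω t).2) atTop atTop} ⊆
        ⋃ N : ℕ, {ω | ∀ t, N ≤ t → M ≤ (walk Θ ω t).2} := by
      intro ω hω
      obtain ⟨N, hN⟩ := tendsto_atTop_atTop.1 hω M
      exact mem_iUnion.2 ⟨N, hN⟩
    have mono : Monotone fun N : ℕ => {ω | ∀ t, N ≤ t → M ≤ (walk Θ ω t).2} :=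
      fun N N' h ω hω t ht => hω t (h.trans ht)
    refine (measure_mono sub).trans ?_
    rw [mono.measure_iUnion]
    refine iSup_le fun N => le_trans (measure_mono ?_) (tail M N)
    intro ω hω
    exact hω N le_rfl
  have lim : Tendsto (fun M => ENNReal.ofReal (∑' k, g (k + M))) atTop (𝓝 0) := by
    simpa using ENNReal.tendsto_ofReal (tendsto_sum_nat_add g)
  exact le_antisymm (ge_of_tendsto' lim bound) zero_le

end Pool.Agent.H317Z.Stair
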