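import Pool.Agent.H317Z.StairBasic

set_option autoImplicit false

namespace Pool.Agent.H317Z.Stair

open MeasureTheory ProbabilityTheory Set Filter Topology

/-- A Lyapunov function for birth and death chains with an eventual drift. -/
lemma exists_bd (s0 : ℕ) (γ : ℝ) (hγ0 : 0 ≤ γ) (hγ1 : γ < 1) :
    ∃ (v : ℕ → ℝ) (ε : ℝ), 0 < ε ∧ ε < 1 ∧ (∀ s, 0 < v s) ∧ (∀ s, v s ≤ 1) ∧ Antitone v ∧
      Tendsto v atTop (𝓝 0) ∧
      ∀ (s : ℕ) (p q : ℝ), 1 / 10 ≤ p → 0 ≤ q → q ≤ 5 * p → (s0 ≤ s → q ≤ γ * p) →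
        v (s + 1) + p * (v (s + 2) - v (s + 1)) + q * (v s - v (s + 1)) ≤ (1 - ε) * v (s + 1) := by
  set η : ℝ := (1 - γ) / 2 with hη
  have hη0 : 0 < η := by rw [hη]; linarith
  have hη1 : η ≤ 1 / 2 := by rw [hη]; linarith
  set e : ℕ → ℝ := fun s => η * (1 / 20) ^ (s0 - s) with he
  have he0 : ∀ s, 0 < e s := fun s => by simp only [he]; positivity
  have he1 : ∀ s, e s ≤ η := fun s => by
    simp only [he]
    exact mul_le_of_le_one_right hη0.le (pow_le_one₀ (by norm_num) (by norm_num))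
  have hel : ∀ s, η * (1 / 20) ^ s0 ≤ e s := fun s => by
    simp only [he]
    exact mul_le_mul_of_nonneg_left
      (pow_le_pow_of_le_one (by norm_num) (by norm_num) (Nat.sub_le _ _)) hη0.le
  set v : ℕ → ℝ := fun s => ∏ i ∈ Finset.range s, (1 - e i) with hv
  have vs : ∀ s, v (s + 1) = v s * (1 - e s) := fun s => by simp only [hv, Finset.prod_range_succ]
  have v0 : ∀ s, 0 < v s := fun s =>
    Finset.prod_pos fun i _ => by linarith [he1 i]
  have anti : Antitone v := antitone_nat_of_succ_le fun s => by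
    rw [vs]; nlinarith [v0 s, he0 s]
  have v1 : ∀ s, v s ≤ 1 := fun s => by
    have := anti (Nat.zero_le s)
    simpa [hv] using this
  set c : ℝ := η * (1 / 20) ^ s0 with hc
  have hc0 : 0 < c := by rw [hc]; positivity
  have hcη : c ≤ η := by simpa [hc] using (hel 0).trans (he1 0)
  have vle : ∀ s, v s ≤ (1 - c) ^ s := fun s => by
    induction s with
    | zero => simp [hv]
    | succ s ih =>
      rw [vs, pow_succ]
      exact mul_le_mul ih (by linarith [hel s]) (by linarith [he1 s])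
        (pow_nonneg (by linarith) _)
  refine ⟨v, c * η / 20, by positivity, by nlinarith, v0, v1, anti, ?_, ?_⟩
  · exact squeeze_zero (fun s => (v0 s).le) vle
      (tendsto_pow_atTop_nhds_zero_of_lt_one (by linarith) (by linarith))
  · intro s p q hp hq hq5 hqγ
    have h1 : 0 < 1 - e s := by linarith [he1 s]
    have key : c * η / 20 * (1 - e s) ≤ p * e (s + 1) * (1 - e s) - q * e s := by
      by_cases hs : s0 ≤ s
      · have e1 : e s = η := by simp [he, Nat.sub_eq_zero_of_le hs]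
        have e2 : e (s + 1) = η := by
          simp [he, Nat.sub_eq_zero_of_le (hs.trans (Nat.le_succ s))]
        have hq' := hqγ hs
        rw [e1, e2]
        have g : γ = 1 - 2 * η := by rw [hη]; ring
        have a1 : q * η ≤ (1 - 2 * η) * p * η := by
          rw [← g]; exact mul_le_mul_of_nonneg_right hq' hη0.le
        have a2 : c * η / 20 * (1 - η) ≤ η * η / 10 := by nlinarith [mul_pos hc0 hη0]
        have a3 : η * η / 10 ≤ p * (η * η) := by nlinarith [mul_pos hη0 hη0]
        nlinarith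
      · have hlt : s0 - s = (s0 - (s + 1)) + 1 := by omega
        have e1 : e s = e (s + 1) / 20 := by
          simp only [he]; rw [hlt, pow_succ]; ring
        have b1 := hel (s + 1)
        have b2 := he1 (s + 1)
        have b3 := he0 (s + 1)
        set E := e (s + 1)
        rw [e1]
        have a1 : q * (E / 20) ≤ p * E / 4 := by nlinarith
        have a2 : p * E / 2 ≤ p * E * (1 - E / 20) := by
          have : 0 ≤ p * E := by positivity
          nlinarith
        have a3 : c * η / 20 * (1 - E / 20) ≤ c / 40 := by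
          have : 0 ≤ c * η := by positivity
          nlinarith
        have a4 : c / 40 ≤ p * E / 4 := by nlinarith
        linarith
    rw [vs (s + 1), vs s]
    have := mul_le_mul_of_nonneg_left key (v0 s).le
    nlinarith

lemma acc_facts (x : ℕ × ℕ) (hx : On x) :
    1 / 5 ≤ acc x (fwd x) ∧
      acc x (bwd x) * (x.2 : ℝ) ≤ ((x.2 : ℝ) + 2) * acc x (fwd x) ∧
      (fwd x).1 + (fwd x).2 = x.1 + x.2 + 1 ∧ (bwd x).1 + (bwd x).2 + 1 = x.1 + x.2 := by
  obtain ⟨i, j⟩ := x
  obtain ⟨hj, h | h⟩ := hx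
  · simp only at hj h
    subst h
    have hj' : (1 : ℝ) ≤ i := by exact_mod_cast hj
    have f1 : fwd (i, i) = (i + 1, i) := by simp [fwd]
    have f2 : bwd (i, i) = (i, i - 1) := by simp [bwd]
    have a1 : acc (i, i) (i + 1, i) = 1 / 2 := by
      unfold acc
      rw [wt_on (x := (i + 1, i)) ⟨hj, Or.inr rfl⟩, wt_on (x := (i, i)) ⟨hj, Or.inl rfl⟩]
      field_simp
      norm_num
    rw [f1, f2, a1]
    refine ⟨by norm_num, ?_, by simp only; omega, by simp only; omega⟩
    by_cases h1 : i = 1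
    · subst h1
      have : wt (1, 1 - 1) = 0 := by simp [wt]
      simp only [acc, this]
      norm_num
    · obtain ⟨k, rfl⟩ : ∃ k, i = k + 1 := ⟨i - 1, by omega⟩
      have hk : 1 ≤ k := by omega
      have hk' : (1 : ℝ) ≤ k := by exact_mod_cast hk
      unfold acc
      rw [Nat.add_sub_cancel, wt_on (x := (k + 1, k)) ⟨hk, Or.inr rfl⟩,
        wt_on (x := (k + 1, k + 1)) ⟨hj, Or.inl rfl⟩]
      push_cast
      rw [div_mul_eq_mul_div, div_le_iff₀ (by positivity)]
      field_simp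
      nlinarith [mul_pos (show (0 : ℝ) < k by linarith) (show (0 : ℝ) < k by linarith)]
  · simp only at hj h
    subst h
    have hj' : (1 : ℝ) ≤ j := by exact_mod_cast hj
    have f1 : fwd (j + 1, j) = (j + 1, j + 1) := by simp [fwd]
    have f2 : bwd (j + 1, j) = (j, j) := by simp [bwd]
    have a1 : acc (j + 1, j) (j, j) = 1 / 2 := by
      unfold acc
      rw [wt_on (x := (j + 1, j)) ⟨hj, Or.inr rfl⟩, wt_on (x := (j, j)) ⟨hj, Or.inl rfl⟩]
      field_simp
      norm_num
    have a2 : acc (j + 1, j) (j + 1, j + 1) = (j : ℝ) ^ 2 / ((j : ℝ) ^ 2 + (j + 1) ^ 2) := by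
      unfold acc
      rw [wt_on (x := (j + 1, j)) ⟨hj, Or.inr rfl⟩,
        wt_on (x := (j + 1, j + 1)) ⟨by simp, Or.inl rfl⟩]
      push_cast
      field_simp
    rw [f1, f2, a1, a2]
    refine ⟨?_, ?_, by simp only; omega, by simp only; omega⟩
    · rw [le_div_iff₀ (by positivity)]; nlinarith
    · rw [← mul_div_assoc, le_div_iff₀ (by positivity)]
      simp only
      nlinarith [mul_pos (show (0 : ℝ) < j by linarith) (show (0 : ℝ) < j by linarith)]

/-- The Lyapunov function for a fixed forward bias. -/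
lemma exists_lyap (θ : ℝ) (h0 : 1 / 2 < θ) (h1 : θ ≤ 1) :
    ∃ (v : ℕ → ℝ) (ρ : ℝ), 0 < ρ ∧ ρ < 1 ∧ (∀ s, 0 < v s) ∧ (∀ s, v s ≤ 1) ∧ Antitone v ∧
      Tendsto v atTop (𝓝 0) ∧
      ∀ x, On x → K θ (fun y => v (y.1 + y.2)) x ≤ ρ * v (x.1 + x.2) := by
  set δ : ℝ := θ - 1 / 2 with hδ
  have hδ0 : 0 < δ := by linarith
  have hδ1 : δ ≤ 1 / 2 := by linarith
  obtain ⟨J, hJ⟩ := exists_nat_ge (2 / δ)
  obtain ⟨v, ε, e0, e1, v0, v1, anti, lim, hv⟩ := exists_bd (2 * J + 1) (1 - δ) (by linarith)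
    (by linarith)
  refine ⟨v, 1 - ε, by linarith, by linarith, v0, v1, anti, lim, fun x hx => ?_⟩
  obtain ⟨a1, a2, a3, a4⟩ := acc_facts x hx
  have b0 := acc_nonneg x (bwd x)
  have b1 := acc_le_one x (bwd x)
  have hh := hv ((bwd x).1 + (bwd x).2) (θ * acc x (fwd x)) ((1 - θ) * acc x (bwd x))
    (by nlinarith) (by nlinarith) (by nlinarith) ?_
  · unfold K
    simp only
    rw [a3, ← a4]
    exact hh
  · intro hs
    have hj : J ≤ x.2 := by
      obtain ⟨_, h | h⟩ := hx <;> omega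
    have hj' : (J : ℝ) ≤ x.2 := by exact_mod_cast hj
    have hx1 : (1 : ℝ) ≤ x.2 := by exact_mod_cast hx.1
    have h2 : 2 ≤ δ * x.2 := by
      rw [div_le_iff₀ hδ0] at hJ
      nlinarith
    have a5 : acc x (bwd x) ≤ (1 + δ) * acc x (fwd x) := by
      have : acc x (bwd x) * (x.2 : ℝ) ≤ ((1 + δ) * acc x (fwd x)) * x.2 := by nlinarith
      exact le_of_mul_le_mul_right this (by linarith)
    have t : θ = 1 / 2 + δ := by linarith
    have a6 : (1 - θ) * acc x (bwd x) ≤ (1 - θ) * ((1 + δ) * acc x (fwd x)) :=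
      mul_le_mul_of_nonneg_left a5 (by linarith)
    have a7 : (1 - θ) * (1 + δ) ≤ (1 - δ) * θ := by rw [t]; nlinarith
    nlinarith

end Pool.Agent.H317Z.Stair
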