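import Pool.Agent.H317Z.StairLyap

set_option autoImplicit false

namespace Pool.Agent.H317Z.Stair

open MeasureTheory ProbabilityTheory Set Filter Topology

lemma epoch_decay (Θ : ℕ → ℕ × ℕ → ℝ) (θ : ℝ) (h0 : 0 ≤ θ) (h1 : θ ≤ 1) (v : ℕ → ℝ) (ρ : ℝ)
    (hρ : 0 ≤ ρ) (v0 : ∀ s, 0 < v s) (v1 : ∀ s, v s ≤ 1)
    (hv : ∀ x, On x → K θ (fun y => v (y.1 + y.2)) x ≤ ρ * v (x.1 + x.2))
    (T L : ℕ) (hΘ : ∀ i < L, ∀ x, Θ (T + i + 1) x = θ) (i : ℕ) (hi : i ≤ L) :
    ∫ ω, v ((walk Θ ω (T + i)).1 + (walk Θ ω (T + i)).2) ∂noise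
      ≤ ρ ^ i * ∫ ω, v ((walk Θ ω T).1 + (walk Θ ω T).2) ∂noise := by
  have hb : ∀ x : ℕ × ℕ, |v (x.1 + x.2)| ≤ 1 := fun x => by
    rw [abs_of_pos (v0 _)]; exact v1 _
  induction i with
  | zero => simp
  | succ i ih =>
    have hi' : i < L := hi
    have e := integral_succ Θ (T + i) (fun x => by rw [hΘ i hi']; exact h0)
      (fun x => by rw [hΘ i hi']; exact h1) (fun y => v (y.1 + y.2)) 1 hb
    rw [← add_assoc, e]
    simp_rw [hΘ i hi']
    have hK : ∀ x : ℕ × ℕ, |K θ (fun y => v (y.1 + y.2)) x| ≤ 5 := fun x => by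
      unfold K
      have c1 := acc_nonneg x (fwd x)
      have c2 := acc_le_one x (fwd x)
      have c3 := acc_nonneg x (bwd x)
      have c4 := acc_le_one x (bwd x)
      have d1 : 0 ≤ θ * acc x (fwd x) := by positivity
      have d2 : θ * acc x (fwd x) ≤ 1 := by nlinarith
      have d3 : 0 ≤ (1 - θ) * acc x (bwd x) := mul_nonneg (by linarith) c3
      have d4 : (1 - θ) * acc x (bwd x) ≤ 1 := by nlinarith
      have := v0 (x.1 + x.2)
      have := v1 (x.1 + x.2)
      have := v0 ((fwd x).1 + (fwd x).2)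
      have := v1 ((fwd x).1 + (fwd x).2)
      have := v0 ((bwd x).1 + (bwd x).2)
      have := v1 ((bwd x).1 + (bwd x).2)
      simp only
      rw [abs_le]
      constructor <;> nlinarith
    calc _ ≤ ∫ ω, ρ * v ((walk Θ ω (T + i)).1 + (walk Θ ω (T + i)).2) ∂noise :=
          integral_mono (integrable_walk Θ (T + i) _ 5 hK)
            ((integrable_walk Θ (T + i) (fun y => v (y.1 + y.2)) 1 hb).const_mul ρ)
            fun ω => hv _ (on_walk Θ ω _)
      _ = ρ * ∫ ω, v ((walk Θ ω (T + i)).1 + (walk Θ ω (T + i)).2) ∂noise := integral_const_mul _ _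
      _ ≤ ρ * (ρ ^ i * ∫ ω, v ((walk Θ ω T).1 + (walk Θ ω T).2) ∂noise) :=
          mul_le_mul_of_nonneg_left (ih hi'.le) hρ
      _ = _ := by ring

theorem diverges :
    ∃ a : ℕ → ℝ, (∀ t, 8 ≤ a t) ∧ Monotone a ∧ Tendsto a atTop atTop ∧
      ∀ᵐ ω ∂noise, Tendsto (fun t => (walk (fun t _ => 1 / 2 + 4 / a t) ω t).2) atTop atTop := by
  have hθ0 : ∀ k : ℕ, (1 : ℝ) / 2 < 1 / 2 + 4 / (8 + (k : ℝ)) := fun k => by
    have : (0 : ℝ) < 4 / (8 + (k : ℝ)) := by positivity
    linarith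
  have hθ1 : ∀ k : ℕ, (1 : ℝ) / 2 + 4 / (8 + (k : ℝ)) ≤ 1 := fun k => by
    have : (4 : ℝ) / (8 + (k : ℝ)) ≤ 1 / 2 := by
      rw [div_le_iff₀ (by positivity)]
      have : (0 : ℝ) ≤ k := Nat.cast_nonneg k
      linarith
    linarith
  choose v ρ ρ0 ρ1 v0 v1 anti lim hv using fun k : ℕ => exists_lyap _ (hθ0 k) (hθ1 k)
  set ε : ℕ → ℝ := fun k => (1 / 2) ^ k * (1 - ρ k) * v k (2 * k + 1) with hε
  have ε0 : ∀ k, 0 < ε k := fun k => by
    have := ρ1 k
    have := v0 k (2 * k + 1)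
    simp only [hε]
    have : 0 < 1 - ρ k := by linarith
    positivity
  have hH : ∀ k, ∃ H : ℕ, v k H ≤ ε k / 2 := fun k =>
    ((lim k).eventually (ge_mem_nhds (half_pos (ε0 k)))).exists
  choose H hH using hH
  have hL : ∀ k, ∃ L : ℕ, 1 ≤ L ∧ ρ k ^ L ≤ ε (k + 1) / 2 * v k (H (k + 1)) := fun k =>
    ((eventually_ge_atTop 1).and
      ((tendsto_pow_atTop_nhds_zero_of_lt_one (ρ0 k).le (ρ1 k)).eventually
        (ge_mem_nhds (mul_pos (half_pos (ε0 _)) (v0 k _))))).exists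
  choose L L1 hL using hL
  set T : ℕ → ℕ := fun k => ∑ i ∈ Finset.range k, L i with hT
  have Ts : ∀ k, T (k + 1) = T k + L k := fun k => by simp only [hT, Finset.sum_range_succ]
  have Tmono : StrictMono T := strictMono_nat_of_lt_succ fun k => by
    rw [Ts]; have := L1 k; omega
  have hex : ∀ t, ∃ k, t < T (k + 1) := fun t => ⟨t, lt_of_lt_of_le (Nat.lt_succ_self t)
    (Tmono.id_le (t + 1))⟩
  set ep : ℕ → ℕ := fun t => Nat.find (hex t) with hep
  have ep1 : ∀ t, t < T (ep t + 1) := fun t => Nat.find_spec (hex t)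
  have ep2 : ∀ t, T (ep t) ≤ t := fun t => by
    rcases h : ep t with _ | k
    · simp [hT]
    · have := Nat.find_min (hex t) (m := k) (by simp only [hep] at h; omega)
      omega
  have ep3 : ∀ k t, T k ≤ t → k ≤ ep t := fun k t h => by
    have := Tmono.lt_iff_lt.1 (lt_of_le_of_lt h (ep1 t))
    omega
  have ep4 : ∀ k i, i < L k → ep (T k + i) = k := fun k i hi => by
    apply le_antisymm
    · exact Nat.find_min' (hex _) (by rw [Ts]; omega)
    · exact ep3 _ _ (by omega)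
  have epmono : Monotone ep := fun s t h => ep3 _ _ ((ep2 s).trans h)
  have eplim : Tendsto ep atTop atTop :=
    tendsto_atTop_atTop.2 fun k => ⟨T k, fun t ht => ep3 k t ht⟩
  refine ⟨fun t => 8 + (ep (t - 1) : ℝ), fun t => by simp, fun s t h => ?_, ?_, ?_⟩
  · have := epmono (Nat.sub_le_sub_right h 1)
    simp only [add_le_add_iff_left, Nat.cast_le]
    exact this
  · exact tendsto_atTop_add_const_left _ _ (tendsto_natCast_atTop_atTop.comp
      (eplim.comp (tendsto_sub_atTop_nat 1)))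
  set Θ : ℕ → ℕ × ℕ → ℝ := fun t _ => 1 / 2 + 4 / (8 + (ep (t - 1) : ℝ)) with hΘ
  have hb : ∀ k (x : ℕ × ℕ), |v k (x.1 + x.2)| ≤ 1 := fun k x => by
    rw [abs_of_pos (v0 k _)]; exact v1 k _
  have dec : ∀ k i, i ≤ L k →
      ∫ ω, v k ((walk Θ ω (T k + i)).1 + (walk Θ ω (T k + i)).2) ∂noise
        ≤ ρ k ^ i * ∫ ω, v k ((walk Θ ω (T k)).1 + (walk Θ ω (T k)).2) ∂noise := fun k i hi =>
    epoch_decay Θ _ (by linarith [hθ0 k]) (hθ1 k) (v k) (ρ k) (ρ0 k).le (v0 k) (v1 k) (hv k)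
      (T k) (L k) (fun j hj x => by simp only [hΘ, Nat.add_sub_cancel, ep4 k j hj]) i hi
  have start : ∀ k, ∫ ω, v (k + 1) ((walk Θ ω (T (k + 1))).1 + (walk Θ ω (T (k + 1))).2) ∂noise
      ≤ ε (k + 1) := fun k => by
    have pw : ∀ s, v (k + 1) s ≤ ε (k + 1) / 2 + (v k (H (k + 1)))⁻¹ * v k s := fun s => by
      have p1 := v0 k (H (k + 1))
      rcases le_total (H (k + 1)) s with h | h
      · have := (anti (k + 1) h).trans (hH (k + 1))
        have : 0 ≤ (v k (H (k + 1)))⁻¹ * v k s := by have := v0 k s; positivity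
        linarith
      · have h2 : 1 ≤ (v k (H (k + 1)))⁻¹ * v k s := by
          rw [inv_mul_eq_div, le_div_iff₀ p1, one_mul]; exact anti k h
        linarith [v1 (k + 1) s, ε0 (k + 1)]
    have i1 : ∫ ω, v k ((walk Θ ω (T k)).1 + (walk Θ ω (T k)).2) ∂noise ≤ 1 := by
      have := integral_mono (integrable_walk Θ (T k) (fun y => v k (y.1 + y.2)) 1 (hb k))
        (integrable_const (1 : ℝ)) fun ω => v1 k _
      simpa using this
    have i2 := dec k (L k) le_rfl
    rw [← Ts] at i2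
    have i3 : ∫ ω, v k ((walk Θ ω (T (k + 1))).1 + (walk Θ ω (T (k + 1))).2) ∂noise
        ≤ ε (k + 1) / 2 * v k (H (k + 1)) := by
      refine i2.trans (le_trans ?_ (hL k))
      exact mul_le_of_le_one_right (pow_nonneg (ρ0 k).le _) i1
    calc _ ≤ ∫ ω, (ε (k + 1) / 2 + (v k (H (k + 1)))⁻¹ *
            v k ((walk Θ ω (T (k + 1))).1 + (walk Θ ω (T (k + 1))).2)) ∂noise :=
          integral_mono (integrable_walk Θ _ (fun y => v (k + 1) (y.1 + y.2)) 1 (hb _))
            ((integrable_const _).add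
              ((integrable_walk Θ _ (fun y => v k (y.1 + y.2)) 1 (hb _)).const_mul _))
            fun ω => pw _
      _ = ε (k + 1) / 2 + (v k (H (k + 1)))⁻¹ *
            ∫ ω, v k ((walk Θ ω (T (k + 1))).1 + (walk Θ ω (T (k + 1))).2) ∂noise := by
          rw [integral_add (integrable_const _)
            ((integrable_walk Θ _ (fun y => v k (y.1 + y.2)) 1 (hb _)).const_mul _),
            integral_const_mul]
          simp
      _ ≤ ε (k + 1) / 2 + (v k (H (k + 1)))⁻¹ * (ε (k + 1) / 2 * v k (H (k + 1))) := by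
          have := v0 k (H (k + 1))
          gcongr
      _ = ε (k + 1) := by
          have := (v0 k (H (k + 1))).ne'
          field_simp
          ring
  have pt : ∀ k i, i ≤ L (k + 1) →
      noise.real {ω | (walk Θ ω (T (k + 1) + i)).2 ≤ k + 1}
        ≤ (1 / 2) ^ (k + 1) * ((1 - ρ (k + 1)) * ρ (k + 1) ^ i) := fun k i hi => by
    set c := v (k + 1) (2 * (k + 1) + 1) with hc
    have c0 : 0 < c := v0 _ _
    have m := mul_meas_ge_le_integral_of_nonneg (μ := noise)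
      (f := fun ω => v (k + 1) ((walk Θ ω (T (k + 1) + i)).1 + (walk Θ ω (T (k + 1) + i)).2))
      (Eventually.of_forall fun ω => (v0 _ _).le)
      (integrable_walk Θ _ (fun y => v (k + 1) (y.1 + y.2)) 1 (hb _)) c
    have sub : {ω | (walk Θ ω (T (k + 1) + i)).2 ≤ k + 1} ⊆ {ω | c ≤
        v (k + 1) ((walk Θ ω (T (k + 1) + i)).1 + (walk Θ ω (T (k + 1) + i)).2)} := by
      intro ω hω
      have := (on_walk Θ ω (T (k + 1) + i)).2
      simp only [mem_ofPred_eq] at hω ⊢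
      apply anti (k + 1)
      omega
    have m2 := measureReal_mono (μ := noise) sub
    have m3 := (dec (k + 1) i hi).trans
      (mul_le_mul_of_nonneg_left (start k) (pow_nonneg (ρ0 _).le i))
    have m4 : c * noise.real {ω | (walk Θ ω (T (k + 1) + i)).2 ≤ k + 1}
        ≤ c * ((1 / 2) ^ (k + 1) * ((1 - ρ (k + 1)) * ρ (k + 1) ^ i)) := by
      calc _ ≤ _ := mul_le_mul_of_nonneg_left m2 c0.le
        _ ≤ _ := m
        _ ≤ _ := m3
        _ = _ := by simp only [hε, hc]; ring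
    exact le_of_mul_le_mul_left m4 c0
  set E : ℕ → Set (ℕ → unitInterval × unitInterval) := fun k =>
    ⋃ i ∈ Finset.range (L (k + 1)), {ω | (walk Θ ω (T (k + 1) + i)).2 ≤ k + 1} with hE
  have hEm : ∀ k, noise.real (E k) ≤ (1 / 2) ^ (k + 1) := fun k => by
    refine (measureReal_biUnion_finset_le _ _).trans ?_
    refine (Finset.sum_le_sum fun i hi => pt k i (Finset.mem_range.1 hi).le).trans ?_
    rw [← Finset.mul_sum, ← Finset.mul_sum, mul_neg_geom_sum]
    have : 0 ≤ ρ (k + 1) ^ L (k + 1) := pow_nonneg (ρ0 _).le _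
    exact mul_le_of_le_one_right (by positivity) (by linarith)
  have hsum : ∑' k, noise (E k) ≠ ⊤ := by
    have s1 : Summable fun k : ℕ => ((1 : ℝ) / 2) ^ (k + 1) :=
      (summable_nat_add_iff 1).2 summable_geometric_two
    refine ne_top_of_le_ne_top (ENNReal.ofReal_ne_top (r := ∑' k : ℕ, ((1 : ℝ) / 2) ^ (k + 1))) ?_
    rw [ENNReal.ofReal_tsum_of_nonneg (fun k => by positivity) s1]
    refine ENNReal.tsum_le_tsum fun k => ?_
    rw [← ofReal_measureReal (measure_ne_top noise (E k))]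
    exact ENNReal.ofReal_le_ofReal (hEm k)
  filter_upwards [ae_eventually_notMem hsum] with ω hω
  obtain ⟨k0, hk0⟩ := eventually_atTop.1 hω
  refine tendsto_atTop_atTop.2 fun b => ⟨T (max k0 b + 1), fun t ht => ?_⟩
  have e1 := ep3 _ _ ht
  obtain ⟨k, hk⟩ : ∃ k, ep t = k + 1 := ⟨ep t - 1, by omega⟩
  have e2 := ep1 t
  have e3 := ep2 t
  rw [hk] at e1 e2 e3
  rw [Ts] at e2
  have e4 := hk0 k (by have := le_max_left k0 b; omega)
  simp only [hE, mem_iUnion, mem_ofPred_eq, not_exists, not_le, Finset.mem_range] at e4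
  have e5 := e4 (t - T (k + 1)) (by omega)
  rw [Nat.add_sub_cancel' e3] at e5
  have := le_max_right k0 b
  omega

end Pool.Agent.H317Z.Stair
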