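import Mathlib

set_option autoImplicit false

namespace Pool.Agent.H317Z.TC

/-- the completion of a computable metric space: a complete metric space with a dense sequence
`c` whose mutual distances are uniformly computable reals -/
structure CMS where
  carrier : Type
  [metric : MetricSpace carrier]
  [complete : CompleteSpace carrier]
  c : ℕ → carrier
  dense : DenseRange c
  computable : ∃ f : ℕ × ℕ × ℕ → ℕ, Computable f ∧
    ∀ i j n, |(f (i, j, n) : ℝ) - 2 ^ n * dist (c i) (c j)| ≤ 1

instance metricCMS (M : CMS) : MetricSpace M.carrier := M.metric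

/-- `p` is a fast Cauchy sequence of indices converging to `x` -/
def CMS.Name (M : CMS) (p : ℕ → ℕ) (x : M.carrier) : Prop :=
  (∀ i j, i ≤ j → dist (M.c (p i)) (M.c (p j)) ≤ 2⁻¹ ^ i) ∧
    Filter.Tendsto (fun n => M.c (p n)) Filter.atTop (nhds x)

open Classical in
/-- the characteristic function of a set, as an oracle -/
noncomputable def oracle (A : Set ℕ) : ℕ →. ℕ := fun n => Part.some (if n ∈ A then 1 else 0)

/-- the code of the word formed by the first `k` values of `p` -/
def pre (p : ℕ → ℕ) (k : ℕ) : ℕ := Encodable.encode ((List.range k).map p)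

/-- the map `h` is computable with oracle `A`: a Turing functional `ψ` with oracle `A`, reading
an argument `n` and a finite initial segment of a name of `x`, computes a name of `h x` -/
def CompMap (A : Set ℕ) (M N : CMS) (h : M.carrier → N.carrier) : Prop :=
  ∃ ψ : ℕ →. ℕ, TuringReducible ψ (oracle A) ∧ ∀ x p, M.Name p x → ∃ q, N.Name q (h x) ∧ ∀ n,
    (∃ k, q n ∈ ψ (Nat.pair n (pre p k))) ∧ ∀ k y, y ∈ ψ (Nat.pair n (pre p k)) → y = q n

/-- the space `X` is categorical in the degree of `A` -/
def Categorical (A : Set ℕ) (X : Type) [TopologicalSpace X] : Prop :=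
  ∀ M N : CMS, Nonempty (M.carrier ≃ₜ X) → Nonempty (N.carrier ≃ₜ X) →
    ∃ h : M.carrier ≃ₜ N.carrier, CompMap A M N h

/-- the degree of `D` is the degree of categoricity of the space `X` -/
def IsDegCat (D : Set ℕ) (X : Type) [TopologicalSpace X] : Prop :=
  Categorical D X ∧ ∀ A, Categorical A X → TuringReducible (oracle D) (oracle A)

end Pool.Agent.H317Z.TC
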