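import Pool.Agent.H317Z.TCDefs
import Pool.Agent.Helper446.Oracle

set_option autoImplicit false

namespace Pool.Agent.H317Z.TC

open Pool.Agent.Helper446 Pool.Agent.Helper446.Defs Pool.Agent.Helper446.Oracle
open Nat.Partrec (Code)
open Nat.Partrec.Code

theorem oracle_eq (A : Set ℕ) : oracle A = chi A := rfl

/-- the halting set -/
def K : Set ℕ := {n | ((Denumerable.ofNat Code n.unpair.1).eval n.unpair.2).Dom}

theorem K_re : REPred (· ∈ K) := by
  have h : Partrec fun n : ℕ => (Denumerable.ofNat Code n.unpair.1).eval n.unpair.2 :=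
    eval_part.comp ((Primrec.ofNat Code).to_comp.comp (by fun_prop)) (by fun_prop)
  exact h.dom_re

theorem K_not_computable : ¬ ComputablePred (· ∈ K) := by
  intro h
  refine ComputablePred.halting_problem 0 ((RE.cp_comp h
    (f := fun c : Code => Nat.pair (Encodable.encode c) 0) (by fun_prop)).of_eq fun c => ?_)
  simp [K]

theorem exists_red {α : Type} [Primcodable α] {S : α → Prop} (h : REPred S) :
    ∃ f : α → ℕ, Computable f ∧ ∀ a, S a ↔ f a ∈ K := by
  obtain ⟨c, hc⟩ := exists_code.1 h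
  refine ⟨fun a => Nat.pair (Encodable.encode c) (Encodable.encode a), by fun_prop, fun a => ?_⟩
  simp [K, hc, Part.assert]

theorem not_K {α : Type} [Primcodable α] {S : α → Prop} (h : REPred S) :
    REIn K fun a => ¬ S a := by
  obtain ⟨f, hf, h1⟩ := exists_red h
  exact (REIn.not_mem hf).of_eq fun a => by rw [h1]

@[fun_prop] theorem cpow {α : Type} [Primcodable α] {f : α → ℕ} (hf : Computable f) :
    Computable fun a => 2 ^ f a :=
  (Primrec₂.unpaired'.1 Nat.Primrec.pow).to_comp.comp (Computable.const 2) hf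

namespace CMS

variable (M : CMS)

theorem ne_re : REPred fun z : ℕ × ℕ => M.c z.1 ≠ M.c z.2 := by
  obtain ⟨f, hf, h⟩ := M.computable
  have h1 : REPred fun z : ℕ × ℕ => ∃ n, 1 < f (z.1, z.2, n) :=
    RE.ex (p := fun (z : ℕ × ℕ) n => 1 < f (z.1, z.2, n)) (RE.lt (by fun_prop) (by fun_prop))
  refine h1.of_eq fun z => ⟨?_, fun hne => ?_⟩
  · rintro ⟨n, hn⟩ he
    have h2 := h z.1 z.2 n
    rw [he, dist_self, mul_zero, sub_zero, Nat.abs_cast] at h2
    have : (1 : ℝ) < f (z.1, z.2, n) := by exact_mod_cast hn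
    linarith
  · have hd := dist_pos.2 hne
    obtain ⟨n, hn⟩ := pow_unbounded_of_one_lt (2 / dist (M.c z.1) (M.c z.2)) (one_lt_two (α := ℝ))
    rw [div_lt_iff₀ hd] at hn
    have h2 := (abs_le.1 (h z.1 z.2 n)).1
    have : (1 : ℝ) < f (z.1, z.2, n) := by linarith
    exact ⟨n, by exact_mod_cast this⟩

theorem lt_re : REPred fun z : (ℕ × ℕ) × ℕ => dist (M.c z.1.1) (M.c z.1.2) < 2 * 2⁻¹ ^ z.2 := by
  obtain ⟨f, hf, h⟩ := M.computable
  have h1 : REPred fun z : (ℕ × ℕ) × ℕ => ∃ n, (f (z.1.1, z.1.2, n) + 1) * 2 ^ z.2 < 2 * 2 ^ n :=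
    RE.ex (p := fun (z : (ℕ × ℕ) × ℕ) n => (f (z.1.1, z.1.2, n) + 1) * 2 ^ z.2 < 2 * 2 ^ n)
      (RE.lt (by fun_prop) (by fun_prop))
  refine h1.of_eq fun z => ?_
  have hp : (0 : ℝ) < 2 ^ z.2 := by positivity
  rw [inv_pow, ← div_eq_mul_inv, lt_div_iff₀ hp]
  constructor
  · rintro ⟨n, hn⟩
    have h2 := (abs_le.1 (h z.1.1 z.1.2 n)).1
    have h3 : ((f (z.1.1, z.1.2, n) : ℝ) + 1) * 2 ^ z.2 < 2 * 2 ^ n := by exact_mod_cast hn
    have h4 : (0 : ℝ) < 2 ^ n := by positivity
    have h5 : 2 ^ n * dist (M.c z.1.1) (M.c z.1.2) * 2 ^ z.2 ≤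
        ((f (z.1.1, z.1.2, n) : ℝ) + 1) * 2 ^ z.2 :=
      mul_le_mul_of_nonneg_right (by linarith) hp.le
    nlinarith
  · intro hd
    obtain ⟨n, hn⟩ := pow_unbounded_of_one_lt
      (2 * 2 ^ z.2 / (2 - dist (M.c z.1.1) (M.c z.1.2) * 2 ^ z.2)) (one_lt_two (α := ℝ))
    rw [div_lt_iff₀ (by linarith)] at hn
    have h2 := (abs_le.1 (h z.1.1 z.1.2 n)).2
    have h5 : ((f (z.1.1, z.1.2, n) : ℝ) + 1) * 2 ^ z.2 ≤
        (2 ^ n * dist (M.c z.1.1) (M.c z.1.2) + 2) * 2 ^ z.2 :=
      mul_le_mul_of_nonneg_right (by linarith) hp.le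
    have h3 : ((f (z.1.1, z.1.2, n) : ℝ) + 1) * 2 ^ z.2 < 2 * 2 ^ n := by nlinarith
    exact ⟨n, by exact_mod_cast h3⟩

theorem Name.dist_le {M : CMS} {p : ℕ → ℕ} {x : M.carrier} (h : M.Name p x) (i : ℕ) :
    dist (M.c (p i)) x ≤ 2⁻¹ ^ i :=
  le_of_tendsto (tendsto_const_nhds.dist h.2)
    (Filter.eventually_atTop.2 ⟨i, fun j hj => h.1 i j hj⟩)

theorem name_const (i : ℕ) : M.Name (fun _ => i) (M.c i) :=
  ⟨fun _ _ _ => by rw [dist_self]; positivity, tendsto_const_nhds⟩

theorem surj [DiscreteTopology M.carrier] : Function.Surjective M.c := by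
  have h := M.dense
  rw [DenseRange, dense_discrete] at h
  exact Set.range_eq_univ.1 h

/-- first occurrences -/
def New (i : ℕ) : Prop := ∀ j, j < i → M.c j ≠ M.c i

theorem new_re : REPred M.New :=
  RE.all_lt (p := fun i j => M.c j ≠ M.c i)
    (RE.comp M.ne_re (f := fun z : ℕ × ℕ => (z.2, z.1)) (by fun_prop)) Computable.id

open Classical in
theorem count_re : REIn K fun z : ℕ × ℕ => Nat.count M.New z.1 = z.2 := by
  have h1 : TotIn K fun n => if M.New n then 1 else 0 := by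
    apply recursiveIn_of_graph
    have h : REIn K fun p : ℕ × ℕ => (M.New p.1 ∧ p.2 = 1) ∨ (¬ M.New p.1 ∧ p.2 = 0) :=
      REIn.or (REIn.and ((REIn.of_re M.new_re).comp (by fun_prop))
        (REIn.of_re (RE.eq (by fun_prop) (by fun_prop))))
        (REIn.and ((not_K M.new_re).comp (by fun_prop))
          (REIn.of_re (RE.eq (by fun_prop) (by fun_prop))))
    refine h.of_eq fun p => ?_
    by_cases hp : M.New p.1 <;> simp [hp, eq_comm]
  have h2 := (TotIn.of_comp (A := K) (f := fun m : ℕ => m.unpair.1 + m.unpair.2)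
    (by fun_prop)).comp ((TotIn.of_comp (f := fun w : ℕ => w.unpair.2.unpair.2)
      (by fun_prop)).pair (h1.comp (TotIn.of_comp (f := fun w : ℕ => w.unpair.2.unpair.1)
        (by fun_prop))))
  have h3 := (TotIn.prec (TotIn.of_comp (A := K) (Computable.const 0)) h2).comp
    (TotIn.of_comp (f := fun n : ℕ => Nat.pair 0 n) (by fun_prop))
  refine (graph_of_recursiveIn h3).of_eq fun z => ?_
  rw [Part.mem_some_iff, eq_comm]
  simp only [Nat.unpair_pair]
  refine Eq.congr_left ?_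
  induction z.1 with
  | zero => rfl
  | succ n ih => rw [Nat.count_succ, ← ih]

theorem exists_rank [DiscreteTopology M.carrier] [Infinite M.carrier] :
    ∃ rk : M.carrier ≃ ℕ, REIn K fun z : ℕ × ℕ => rk (M.c z.1) = z.2 := by
  classical
  have hs := M.surj
  have hnew : ∀ x, M.New (Nat.find (hs x)) := fun x j hj => by
    rw [Nat.find_spec (hs x)]
    exact Nat.find_min (hs x) hj
  have hidx : ∀ i x, M.New i → M.c i = x → Nat.find (hs x) = i := by
    intro i x hi hx
    refine le_antisymm (Nat.find_min' _ hx) (not_lt.1 fun h => hi _ h ?_)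
    rw [Nat.find_spec (hs x), hx]
  have hinf : (Set.ofPred M.New).Infinite := by
    refine Set.infinite_of_injective_forall_mem (f := fun x => Nat.find (hs x)) ?_ hnew
    intro x y hxy
    rw [← Nat.find_spec (hs x), ← Nat.find_spec (hs y)]
    exact congrArg M.c hxy
  have hbij : Function.Bijective fun x => Nat.count M.New (Nat.find (hs x)) := by
    constructor
    · intro x y hxy
      rw [← Nat.find_spec (hs x), ← Nat.find_spec (hs y)]
      exact congrArg M.c (Nat.count_injective (hnew x) (hnew y) hxy)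
    · intro k
      refine ⟨M.c (Nat.nth M.New k), ?_⟩
      simp only
      rw [hidx _ _ (Nat.nth_mem_of_infinite hinf k) rfl, Nat.count_nth_of_infinite hinf]
  refine ⟨Equiv.ofBijective _ hbij, ?_⟩
  have h : REIn K fun z : ℕ × ℕ =>
      ∃ i, M.New i ∧ ¬ (M.c i ≠ M.c z.1) ∧ Nat.count M.New i = z.2 := by
    refine REIn.ex (S := fun (z : ℕ × ℕ) i =>
      M.New i ∧ ¬ (M.c i ≠ M.c z.1) ∧ Nat.count M.New i = z.2) ?_
    exact REIn.and ((REIn.of_re M.new_re).comp (by fun_prop)) (REIn.and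
      ((not_K M.ne_re).comp (f := fun y : (ℕ × ℕ) × ℕ => (y.2, y.1.1)) (by fun_prop))
      (M.count_re.comp (f := fun y : (ℕ × ℕ) × ℕ => (y.2, y.1.2)) (by fun_prop)))
  refine h.of_eq fun z => ?_
  simp only [Equiv.ofBijective_apply, not_not]
  constructor
  · rintro ⟨i, h1, h2, h3⟩
    rw [hidx i _ h1 h2, h3]
  · intro h1
    exact ⟨_, hnew _, Nat.find_spec (hs _), h1⟩

/-- some other point is close to the `i`-th point -/
def Near (i t : ℕ) : Prop := ∃ l, M.c l ≠ M.c i ∧ dist (M.c l) (M.c i) < 2 * 2⁻¹ ^ t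

theorem near_re : REPred fun z : ℕ × ℕ => M.Near z.1 z.2 :=
  RE.ex (p := fun (z : ℕ × ℕ) l => M.c l ≠ M.c z.1 ∧ dist (M.c l) (M.c z.1) < 2 * 2⁻¹ ^ z.2)
    (RE.and (RE.comp M.ne_re (f := fun y : (ℕ × ℕ) × ℕ => (y.2, y.1.1)) (by fun_prop))
      (RE.comp M.lt_re (f := fun y : (ℕ × ℕ) × ℕ => ((y.2, y.1.1), y.1.2)) (by fun_prop)))

theorem eq_of_not_near [DiscreteTopology M.carrier] {p : ℕ → ℕ} {x : M.carrier}
    (h : M.Name p x) {t : ℕ} (ht : ¬ M.Near (p t) t) : M.c (p t) = x := by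
  obtain ⟨l, rfl⟩ := M.surj x
  by_contra hne
  have h1 := h.dist_le t
  have h2 : (0 : ℝ) < 2⁻¹ ^ t := by positivity
  exact ht ⟨l, fun he => hne he.symm, by rw [dist_comm]; linarith⟩

theorem exists_not_near [DiscreteTopology M.carrier] {p : ℕ → ℕ} {x : M.carrier}
    (h : M.Name p x) : ∃ t, ¬ M.Near (p t) t := by
  obtain ⟨ε, hε, h1⟩ := Metric.isOpen_iff.1 (isOpen_discrete {x}) x rfl
  obtain ⟨t, ht⟩ := exists_pow_lt_of_lt_one (half_pos hε) (by norm_num : (2⁻¹ : ℝ) < 1)
  have h2 : M.c (p t) = x := h1 (Metric.mem_ball.2 (by linarith [h.dist_le t]))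
  refine ⟨t, ?_⟩
  rintro ⟨l, h3, h4⟩
  rw [h2] at h3 h4
  exact h3 (h1 (Metric.mem_ball.2 (by linarith)))

end CMS

/-- decoding of words -/
def dl (r : ℕ) : List ℕ := (Encodable.decode (α := List ℕ) r).getD []

theorem dl_pre (p : ℕ → ℕ) (k : ℕ) : dl (pre p k) = (List.range k).map p := by
  unfold dl pre
  rw [Encodable.encodek]
  rfl

@[fun_prop] theorem cdl {α : Type} [Primcodable α] {f : α → ℕ} (hf : Computable f) :
    Computable fun a => dl (f a) :=
  Primrec.option_getD.to_comp.comp (Computable.decode.comp hf) (Computable.const [])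

@[fun_prop] theorem cgetD {α : Type} [Primcodable α] {f : α → List ℕ} {g : α → ℕ}
    (hf : Computable f) (hg : Computable g) : Computable fun a => (f a).getD (g a) 0 :=
  (Primrec.list_getD 0).to_comp.comp hf hg

theorem getD_pre (p : ℕ → ℕ) {k i : ℕ} (h : i < k) : ((List.range k).map p).getD i 0 = p i := by
  rw [List.getD_eq_getElem _ _ (by simpa using h)]
  simp

theorem upper (M N : CMS) [DiscreteTopology M.carrier] [Infinite M.carrier]
    [DiscreteTopology N.carrier] [Infinite N.carrier] :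
    ∃ h : M.carrier ≃ₜ N.carrier, CompMap K M N h := by
  classical
  obtain ⟨r₁, h₁⟩ := M.exists_rank
  obtain ⟨r₂, h₂⟩ := N.exists_rank
  have hex : ∀ x : M.carrier, ∃ j, r₂ (N.c j) = r₁ x := fun x => by
    obtain ⟨j, hj⟩ := N.surj (r₂.symm (r₁ x))
    exact ⟨j, by rw [hj, Equiv.apply_symm_apply]⟩
  have hidx : REIn K fun z : ℕ × ℕ => Nat.find (hex (M.c z.1)) = z.2 := by
    have h : REIn K fun z : ℕ × ℕ => ∃ k, r₁ (M.c z.1) = k ∧ r₂ (N.c z.2) = k ∧
        ∀ j < z.2, ∃ k', r₂ (N.c j) = k' ∧ k' ≠ k := by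
      refine REIn.ex (S := fun (z : ℕ × ℕ) k => r₁ (M.c z.1) = k ∧ r₂ (N.c z.2) = k ∧
        ∀ j < z.2, ∃ k', r₂ (N.c j) = k' ∧ k' ≠ k) ?_
      refine REIn.and (h₁.comp (f := fun y : (ℕ × ℕ) × ℕ => (y.1.1, y.2)) (by fun_prop))
        (REIn.and (h₂.comp (f := fun y : (ℕ × ℕ) × ℕ => (y.1.2, y.2)) (by fun_prop)) ?_)
      refine REIn.all_lt (S := fun (y : (ℕ × ℕ) × ℕ) j => ∃ k', r₂ (N.c j) = k' ∧ k' ≠ y.2) ?_
        (by fun_prop)
      refine REIn.ex (S := fun (y : ((ℕ × ℕ) × ℕ) × ℕ) k' => r₂ (N.c y.2) = k' ∧ k' ≠ y.1.2) ?_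
      exact REIn.and (h₂.comp (f := fun y : (((ℕ × ℕ) × ℕ) × ℕ) × ℕ => (y.1.2, y.2))
        (by fun_prop)) (REIn.of_re (RE.ne (by fun_prop) (by fun_prop)))
    refine h.of_eq fun z => ?_
    rw [Nat.find_eq_iff]
    simp only [exists_eq_left', ne_eq]
  let G : ℕ → ℕ := fun m =>
    if h : ∃ t, t < (dl m.unpair.2).length ∧ ¬ M.Near ((dl m.unpair.2).getD t 0) t then
      Nat.find (hex (M.c ((dl m.unpair.2).getD (Nat.find h) 0))) + 1 else 0
  have hG : TotIn K G := by
    apply recursiveIn_of_graph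
    have h : REIn K fun z : ℕ × ℕ =>
        (z.2 = 0 ∧ ∀ t < (dl z.1.unpair.2).length, M.Near ((dl z.1.unpair.2).getD t 0) t) ∨
        ∃ t, t < (dl z.1.unpair.2).length ∧ ¬ M.Near ((dl z.1.unpair.2).getD t 0) t ∧
          (∀ s < t, M.Near ((dl z.1.unpair.2).getD s 0) s) ∧ z.2 ≠ 0 ∧
          Nat.find (hex (M.c ((dl z.1.unpair.2).getD t 0))) = z.2 - 1 := by
      refine REIn.or (REIn.of_re (RE.and (RE.eq (by fun_prop) (by fun_prop)) ?_)) ?_
      · exact RE.all_lt (p := fun (z : ℕ × ℕ) t => M.Near ((dl z.1.unpair.2).getD t 0) t)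
          (RE.comp M.near_re (f := fun y : (ℕ × ℕ) × ℕ => ((dl y.1.1.unpair.2).getD y.2 0, y.2))
            (by fun_prop)) (by fun_prop)
      · refine REIn.ex (S := fun (z : ℕ × ℕ) t => t < (dl z.1.unpair.2).length ∧
          ¬ M.Near ((dl z.1.unpair.2).getD t 0) t ∧
          (∀ s < t, M.Near ((dl z.1.unpair.2).getD s 0) s) ∧ z.2 ≠ 0 ∧
          Nat.find (hex (M.c ((dl z.1.unpair.2).getD t 0))) = z.2 - 1) ?_
        refine REIn.and (REIn.of_re (RE.lt (by fun_prop) (by fun_prop))) (REIn.and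
          ((not_K M.near_re).comp
            (f := fun y : (ℕ × ℕ) × ℕ => ((dl y.1.1.unpair.2).getD y.2 0, y.2)) (by fun_prop))
          (REIn.and (REIn.of_re ?_) (REIn.and (REIn.of_re (RE.ne (by fun_prop) (by fun_prop)))
            (hidx.comp (f := fun y : (ℕ × ℕ) × ℕ => ((dl y.1.1.unpair.2).getD y.2 0, y.1.2 - 1))
              (by fun_prop)))))
        exact RE.all_lt
          (p := fun (y : (ℕ × ℕ) × ℕ) s => M.Near ((dl y.1.1.unpair.2).getD s 0) s)
          (RE.comp M.near_re (f := fun y : ((ℕ × ℕ) × ℕ) × ℕ =>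
            ((dl y.1.1.1.unpair.2).getD y.2 0, y.2)) (by fun_prop)) (by fun_prop)
    refine h.of_eq fun z => ?_
    simp only [G]
    split_ifs with hh
    · constructor
      · rintro (⟨-, h1⟩ | ⟨t, h1, h2, h3, h4, h5⟩)
        · obtain ⟨t, h2, h3⟩ := hh
          exact absurd (h1 t h2) h3
        · have : Nat.find hh = t := (Nat.find_eq_iff hh).2 ⟨⟨h1, h2⟩, fun s hs h6 => h6.2 (h3 s hs)⟩
          rw [this, h5]
          omega
      · intro h1
        refine Or.inr ⟨Nat.find hh, (Nat.find_spec hh).1, (Nat.find_spec hh).2, fun s hs => ?_,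
          by omega, by omega⟩
        by_contra h2
        exact Nat.find_min hh hs ⟨hs.trans (Nat.find_spec hh).1, h2⟩
    · constructor
      · rintro (⟨h1, -⟩ | ⟨t, h1, h2, -⟩)
        · exact h1.symm
        · exact absurd ⟨t, h1, h2⟩ hh
      · intro h1
        refine Or.inl ⟨h1.symm, fun t ht => ?_⟩
        by_contra h2
        exact hh ⟨t, ht, h2⟩
  refine ⟨(r₁.trans r₂.symm).toHomeomorphOfDiscrete,
    fun m => (Part.some (G m)).bind fun v => (v.ppred : Part ℕ), ?_, fun x p hp => ?_⟩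
  · rw [oracle_eq, TuringReducible, RecursiveIn.iff_nat]
    exact Nat.RecursiveIn.comp (Nat.Partrec.recursiveIn Nat.Partrec.ppred) hG
  · refine ⟨fun _ => Nat.find (hex x), ?_, fun n => ⟨?_, fun k y hy => ?_⟩⟩
    · have h : (r₁.trans r₂.symm).toHomeomorphOfDiscrete x = N.c (Nat.find (hex x)) := by
        change r₂.symm (r₁ x) = _
        rw [Equiv.symm_apply_eq]
        exact (Nat.find_spec (hex x)).symm
      rw [h]
      exact N.name_const _
    · obtain ⟨t, ht⟩ := M.exists_not_near hp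
      refine ⟨t + 1, ?_⟩
      have hh : ∃ s, s < (dl (Nat.pair n (pre p (t + 1))).unpair.2).length ∧
          ¬ M.Near ((dl (Nat.pair n (pre p (t + 1))).unpair.2).getD s 0) s := by
        refine ⟨t, ?_⟩
        rw [Nat.unpair_pair, dl_pre, getD_pre _ (by omega)]
        exact ⟨by simp, ht⟩
      obtain ⟨h1, h2⟩ := Nat.find_spec hh
      simp only [G, Part.bind_some, dif_pos hh]
      generalize Nat.find hh = s at h1 h2
      rw [Nat.unpair_pair, dl_pre] at h1 h2 ⊢
      rw [getD_pre _ (by simpa using h1)] at h2 ⊢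
      simp [M.eq_of_not_near hp h2]
    · simp only [G, Part.bind_some] at hy
      split_ifs at hy with hh
      · obtain ⟨h1, h2⟩ := Nat.find_spec hh
        generalize Nat.find hh = s at h1 h2 hy
        rw [Nat.unpair_pair, dl_pre] at h1 h2 hy
        rw [getD_pre _ (by simpa using h1)] at h2 hy
        simpa [M.eq_of_not_near hp h2, eq_comm] using hy
      · simp at hy

/-- the natural numbers with the usual metric -/
noncomputable def natCMS : CMS where
  carrier := ℕ
  c := id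
  dense := denseRange_id
  computable := ⟨fun z => 2 ^ z.2.2 * ((z.1 - z.2.1) + (z.2.1 - z.1)), by fun_prop, fun i j n => by
    have h : (((i - j) + (j - i) : ℕ) : ℝ) = dist i j := by
      rw [Nat.dist_eq]
      rcases le_total i j with h | h
      · rw [Nat.sub_eq_zero_of_le h, zero_add, Nat.cast_sub h, abs_sub_comm,
          abs_of_nonneg (by simpa using h)]
      · rw [Nat.sub_eq_zero_of_le h, add_zero, Nat.cast_sub h, abs_of_nonneg (by simpa using h)]
    simp only [id, Nat.cast_mul, h]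
    simp⟩

/-- the `m`-th computation has halted by stage `s` -/
def hlt (m s : ℕ) : Bool := (evaln s (Denumerable.ofNat Code m.unpair.1) m.unpair.2).isSome

theorem hlt_mono {m s t : ℕ} (h : s ≤ t) (hs : hlt m s = true) : hlt m t = true := by
  obtain ⟨v, hv⟩ := Option.isSome_iff_exists.1 hs
  exact Option.isSome_iff_exists.2 ⟨v, evaln_mono h hv⟩

theorem mem_K_iff (m : ℕ) : m ∈ K ↔ ∃ s, hlt m s = true := by
  constructor
  · intro h
    obtain ⟨s, hs⟩ := evaln_complete.1 (Part.get_mem h)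
    exact ⟨s, Option.isSome_iff_exists.2 ⟨_, hs⟩⟩
  · rintro ⟨s, hs⟩
    obtain ⟨v, hv⟩ := Option.isSome_iff_exists.1 hs
    exact Part.dom_iff_mem.2 ⟨v, evaln_sound hv⟩

theorem hlt_primrec : Primrec₂ hlt :=
  Primrec.option_isSome.comp (primrec_evaln.comp (g := fun z : ℕ × ℕ =>
    ((z.2, Denumerable.ofNat Code z.1.unpair.1), z.1.unpair.2))
    ((Primrec.snd.pair ((Primrec.ofNat Code).comp
      (Primrec.fst.comp (Primrec.unpair.comp Primrec.fst)))).pair
        (Primrec.snd.comp (Primrec.unpair.comp Primrec.fst))))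

open Classical in
/-- the gap between the two twins number `m` -/
noncomputable def gap (m : ℕ) : ℝ := if h : ∃ s, hlt m s = true then 2⁻¹ ^ Nat.find h else 0

/-- approximations of the gap -/
def apx (m n : ℕ) : ℕ := Nat.rec 0 (fun s IH => 2 * IH + bif hlt m s then 1 else 0) n

theorem apx_primrec : Primrec₂ apx := by
  unfold apx
  refine Primrec.nat_rec (f := fun _ : ℕ => 0)
    (g := fun m (z : ℕ × ℕ) => 2 * z.2 + bif hlt m z.1 then 1 else 0) (Primrec.const 0) ?_
  exact (Primrec.nat_add.comp (Primrec.nat_mul.comp (Primrec.const 2)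
    (Primrec.snd.comp Primrec.snd)) (Primrec.cond
      (hlt_primrec.comp Primrec.fst (Primrec.fst.comp Primrec.snd))
      (Primrec.const 1) (Primrec.const 0))).to₂

theorem gap_nonneg (m : ℕ) : 0 ≤ gap m := by
  unfold gap
  split_ifs <;> positivity

theorem gap_le (m : ℕ) : gap m ≤ 1 := by
  unfold gap
  split_ifs
  · exact pow_le_one₀ (by norm_num) (by norm_num)
  · norm_num

theorem gap_eq_zero (m : ℕ) : gap m = 0 ↔ m ∉ K := by
  rw [mem_K_iff]
  unfold gap
  split_ifs with h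
  · simp [h]
  · simp [h]

theorem apx_spec (m n : ℕ) : (apx m n : ℝ) ≤ 2 ^ n * gap m ∧ 2 ^ n * gap m ≤ apx m n + 1 := by
  classical
  have hs : ∀ n, apx m (n + 1) = 2 * apx m n + bif hlt m n then 1 else 0 := fun n => rfl
  unfold gap
  split_ifs with h
  · have h1 : ∀ n, n ≤ Nat.find h → apx m n = 0 := by
      intro n
      induction n with
      | zero => exact fun _ => rfl
      | succ n ih =>
        intro hn
        have := Nat.find_min h (show n < Nat.find h by omega)
        rw [hs, ih (by omega)]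
        simp [this]
    have h2 : ∀ k, apx m (Nat.find h + k) + 1 = 2 ^ k := by
      intro k
      induction k with
      | zero => simp [h1 _ le_rfl]
      | succ k ih =>
        rw [← Nat.add_assoc, hs, hlt_mono (Nat.le_add_right _ k) (Nat.find_spec h), pow_succ, ← ih]
        simp
        omega
    rcases le_total n (Nat.find h) with hn | hn
    · obtain ⟨k, hk⟩ := Nat.exists_eq_add_of_le hn
      rw [h1 n hn, hk, pow_add, ← mul_assoc, ← mul_pow]
      norm_num
      exact pow_le_one₀ (by norm_num) (by norm_num)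
    · obtain ⟨k, hk⟩ := Nat.exists_eq_add_of_le hn
      have h3 : (apx m n : ℝ) + 1 = 2 ^ k := by rw [hk]; exact_mod_cast h2 k
      have h4 : (2 : ℝ) ^ n * 2⁻¹ ^ Nat.find h = 2 ^ k := by
        rw [hk, pow_add, mul_right_comm, ← mul_pow]
        norm_num
      rw [h4]
      constructor <;> linarith
  · have h1 : ∀ n, apx m n = 0 := by
      intro n
      induction n with
      | zero => rfl
      | succ n ih =>
        have : hlt m n = false := by simpa using fun h' => h ⟨n, h'⟩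
        rw [hs, ih, this]
        rfl
    simp [h1]

/-- the points of the twin space -/
noncomputable def pt (i : ℕ) : ℝ := (2 * (i / 2) : ℕ) + (i % 2 : ℕ) * gap (i / 2)

theorem pt_finite (R : ℝ) : {x : Set.range pt | (x : ℝ) ≤ R}.Finite := by
  obtain ⟨B, hB⟩ := exists_nat_gt R
  refine ((Set.finite_lt_nat (B + 2)).image fun i => (⟨pt i, i, rfl⟩ : Set.range pt)).subset ?_
  rintro ⟨_, i, rfl⟩ hi
  refine ⟨i, ?_, rfl⟩
  have h1 : ((2 * (i / 2) : ℕ) : ℝ) < B := by
    have h2 : (0 : ℝ) ≤ (i % 2 : ℕ) * gap (i / 2) := mul_nonneg (by positivity) (gap_nonneg _)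
    have h3 : pt i ≤ R := hi
    unfold pt at h3
    linarith
  have h4 : 2 * (i / 2) < B := by exact_mod_cast h1
  simp only [Set.mem_ofPred_eq]
  omega

theorem ball_finite (x : Set.range pt) (r : ℝ) : (Metric.ball x r).Finite := by
  refine (pt_finite (x + r)).subset fun y hy => ?_
  have h := Metric.mem_ball.1 hy
  rw [Subtype.dist_eq, Real.dist_eq] at h
  have := (abs_lt.1 h).2
  simp only [Set.mem_ofPred_eq]
  linarith

instance : CompleteSpace (Set.range pt) := by
  refine Metric.complete_of_cauchySeq_tendsto fun u hu => ?_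
  obtain ⟨R, -, hR⟩ := cauchySeq_bdd hu
  obtain ⟨x, -, hx⟩ := cauchySeq_tendsto_of_isComplete
    (ball_finite (u 0) R).isCompact.isComplete (fun n => Metric.mem_ball.2 (hR n 0)) hu
  exact ⟨x, hx⟩

instance : DiscreteTopology (Set.range pt) := by
  refine discreteTopology_iff_isOpen_singleton.2 fun x => ?_
  have h : ({x} : Set (Set.range pt)) = Metric.ball x 1 \ (Metric.ball x 1 \ {x}) := by
    rw [Set.sdiff_sdiff_cancel_left (by simp)]
  rw [h]
  exact Metric.isOpen_ball.sdiff ((ball_finite x 1).subset Set.sdiff_subset).isClosed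

instance : Infinite (Set.range pt) := by
  refine Infinite.of_injective (fun m : ℕ => (⟨pt (2 * m), _, rfl⟩ : Set.range pt)) ?_
  intro a b hab
  have h : pt (2 * a) = pt (2 * b) := congrArg Subtype.val hab
  unfold pt at h
  simpa using h

/-- the space of twins -/
noncomputable def twinCMS : CMS where
  carrier := Set.range pt
  c i := ⟨pt i, i, rfl⟩
  dense := Function.Surjective.denseRange fun ⟨_, i, h⟩ => ⟨i, Subtype.ext h⟩
  computable := by
    let g : ℕ → ℕ → ℕ := fun i n => 2 ^ n * (2 * (i / 2)) + (i % 2) * apx (i / 2) n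
    have hg : Computable fun z : ℕ × ℕ => g z.1 z.2 := by
      have h1 : Computable fun z : ℕ × ℕ => z.1 / 2 :=
        Primrec.nat_div.to_comp.comp Computable.fst (Computable.const 2)
      have h2 : Computable fun z : ℕ × ℕ => z.1 % 2 :=
        Primrec.nat_mod.to_comp.comp Computable.fst (Computable.const 2)
      have h3 : Computable fun z : ℕ × ℕ => apx (z.1 / 2) z.2 :=
        apx_primrec.to_comp.comp h1 Computable.snd
      simp only [g]
      fun_prop
    have hs : ∀ i n, (g i n : ℝ) ≤ 2 ^ n * pt i ∧ 2 ^ n * pt i ≤ g i n + 1 := by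
      intro i n
      obtain ⟨h1, h2⟩ := apx_spec (i / 2) n
      unfold pt
      simp only [g]
      rcases Nat.mod_two_eq_zero_or_one i with h | h <;> rw [h] <;> push_cast <;>
        constructor <;> nlinarith
    refine ⟨fun z => (g z.1 z.2.2 - g z.2.1 z.2.2) + (g z.2.1 z.2.2 - g z.1 z.2.2), ?_,
      fun i j n => ?_⟩
    · have h1 : Computable fun z : ℕ × ℕ × ℕ => g z.1 z.2.2 :=
        hg.comp (g := fun z : ℕ × ℕ × ℕ => (z.1, z.2.2)) (by fun_prop)
      have h2 : Computable fun z : ℕ × ℕ × ℕ => g z.2.1 z.2.2 :=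
        hg.comp (g := fun z : ℕ × ℕ × ℕ => (z.2.1, z.2.2)) (by fun_prop)
      fun_prop
    · have h : (((g i n - g j n) + (g j n - g i n) : ℕ) : ℝ) = |(g i n : ℝ) - g j n| := by
        rcases le_total (g i n) (g j n) with h | h
        · rw [Nat.sub_eq_zero_of_le h, zero_add, Nat.cast_sub h, abs_sub_comm,
            abs_of_nonneg (by simpa using h)]
        · rw [Nat.sub_eq_zero_of_le h, add_zero, Nat.cast_sub h, abs_of_nonneg (by simpa using h)]
      simp only [h, Subtype.dist_eq, Real.dist_eq]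
      have h1 : (2 : ℝ) ^ n * |pt i - pt j| = |2 ^ n * pt i - 2 ^ n * pt j| := by
        rw [← mul_sub, abs_mul, abs_of_pos (by positivity : (0 : ℝ) < 2 ^ n)]
      rw [h1]
      refine (abs_abs_sub_abs_le _ _).trans (abs_le.2 ?_)
      obtain ⟨h2, h3⟩ := hs i n
      obtain ⟨h4, h5⟩ := hs j n
      constructor <;> linarith

theorem twin_eq (m : ℕ) : twinCMS.c (2 * m) = twinCMS.c (2 * m + 1) ↔ m ∉ K := by
  rw [← gap_eq_zero]
  change (⟨pt (2 * m), _⟩ : Set.range pt) = ⟨pt (2 * m + 1), _⟩ ↔ _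
  rw [Subtype.mk.injEq]
  unfold pt
  have h1 : (2 * m + 1) / 2 = m := by omega
  have h2 : (2 * m + 1) % 2 = 1 := by omega
  rw [h1, h2]
  simp

theorem lower {A : Set ℕ} (h : twinCMS.carrier ≃ₜ natCMS.carrier)
    (hc : CompMap A twinCMS natCMS h) : TuringReducible (oracle K) (oracle A) := by
  obtain ⟨ψ, hψ, hc⟩ := hc
  rw [oracle_eq, TuringReducible, RecursiveIn.iff_nat] at hψ
  have hgr := graph_of_recursiveIn hψ
  have key : ∀ i (y : ℕ), (∃ k, y ∈ ψ (Nat.pair 1 (pre (fun _ => i) k))) ↔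
      y = h (twinCMS.c i) := by
    intro i y
    obtain ⟨q, h1, h2⟩ := hc _ _ (twinCMS.name_const i)
    have h3 : q 1 = h (twinCMS.c i) := by
      have h4 : dist (q 1) (show ℕ from h (twinCMS.c i)) ≤ 2⁻¹ ^ 1 := h1.dist_le 1
      by_contra hne
      have := Nat.pairwise_one_le_dist hne
      norm_num at h4
      linarith
    rw [← h3]
    exact ⟨fun ⟨k, hk⟩ => (h2 1).2 k y hk, fun hy => hy ▸ (h2 1).1⟩
  have hpre : Computable fun z : ℕ × ℕ => pre (fun _ => z.1) z.2 := by
    unfold pre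
    exact (Primrec.encode.comp (Primrec.list_map (Primrec.list_range.comp Primrec.snd)
      (Primrec.fst.comp Primrec.fst).to₂)).to_comp
  have hre : REIn A fun z : ℕ × ℕ => ∃ k, z.2 ∈ ψ (Nat.pair 1 (pre (fun _ => z.1) k)) := by
    refine REIn.ex (S := fun (z : ℕ × ℕ) k => z.2 ∈ ψ (Nat.pair 1 (pre (fun _ => z.1) k))) ?_
    have h1 : Computable fun y : (ℕ × ℕ) × ℕ => pre (fun _ => y.1.1) y.2 :=
      hpre.comp (g := fun y : (ℕ × ℕ) × ℕ => (y.1.1, y.2)) (by fun_prop)
    exact hgr.comp (f := fun y : (ℕ × ℕ) × ℕ => (Nat.pair 1 (pre (fun _ => y.1.1) y.2), y.1.2))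
      (by fun_prop)
  rw [oracle_eq, oracle_eq, turingReducible_iff]
  refine ⟨REIn.of_re K_re, ?_⟩
  have h1 : REIn A fun m : ℕ => ∃ y : ℕ,
      (∃ k, y ∈ ψ (Nat.pair 1 (pre (fun _ => 2 * m) k))) ∧
        ∃ k, y ∈ ψ (Nat.pair 1 (pre (fun _ => 2 * m + 1) k)) := by
    refine REIn.ex (S := fun (m y : ℕ) => (∃ k, y ∈ ψ (Nat.pair 1 (pre (fun _ => 2 * m) k))) ∧
        ∃ k, y ∈ ψ (Nat.pair 1 (pre (fun _ => 2 * m + 1) k))) ?_
    exact REIn.and (hre.comp (f := fun z : ℕ × ℕ => (2 * z.1, z.2)) (by fun_prop))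
      (hre.comp (f := fun z : ℕ × ℕ => (2 * z.1 + 1, z.2)) (by fun_prop))
  refine h1.of_eq fun m => ?_
  simp only [key]
  rw [← twin_eq]
  constructor
  · rintro ⟨y, h2, h3⟩
    exact h.injective (h2.symm.trans h3)
  · intro h2
    exact ⟨_, rfl, by rw [h2]⟩

theorem isDegCat_nat : IsDegCat K ℕ := by
  constructor
  · rintro M N ⟨e₁⟩ ⟨e₂⟩
    have := e₁.symm.discreteTopology
    have := e₂.symm.discreteTopology
    have := Infinite.of_injective _ e₁.symm.injective
    have := Infinite.of_injective _ e₂.symm.injective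
    exact upper M N
  · intro A hA
    have : Countable (Set.range pt) := (Set.countable_range pt).to_subtype
    obtain ⟨d⟩ := nonempty_denumerable (Set.range pt)
    obtain ⟨h, hc⟩ := hA twinCMS natCMS
      ⟨(Denumerable.eqv (Set.range pt)).toHomeomorphOfDiscrete⟩ ⟨Homeomorph.refl ℕ⟩
    exact lower h hc

end Pool.Agent.H317Z.TC
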