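import Pool.Agent.H953Z.St

/- Upper bound for the entropy of an invariant measure of a coded system. -/

set_option autoImplicit false
open MeasureTheory Filter
open scoped symmDiff
open Pool.Agent.H953Z

namespace Pool.Agent.H317Z.Upper

/-- sets of sequences that depend on a finite window -/
def Win (A : Type) : Set (Set (ℤ → A)) :=
  {s | ∃ r : ℕ, ∀ x y : ℤ → A, (∀ i : ℤ, |i| ≤ r → x i = y i) → (x ∈ s ↔ y ∈ s)}

lemma win_meas {A : Type} [Fintype A] [MeasurableSpace A] [DiscreteMeasurableSpace A]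
    {s : Set (ℤ → A)} (hs : s ∈ Win A) : MeasurableSet s := by
  obtain ⟨r, hr⟩ := hs
  let f : (ℤ → A) → (Finset.Icc (-(r : ℤ)) r → A) := fun x i => x i
  have hf : Measurable f := measurable_pi_lambda _ fun i => measurable_pi_apply _
  have h : s = f ⁻¹' (f '' s) := by
    ext x
    constructor
    · intro hx
      exact ⟨x, hx, rfl⟩
    · rintro ⟨y, hy, hxy⟩
      refine (hr y x fun i hi => ?_).1 hy
      have hi' : i ∈ Finset.Icc (-(r : ℤ)) r := by
        rw [Finset.mem_Icc]
        exact abs_le.1 hi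
      exact congrFun hxy ⟨i, hi'⟩
  rw [h]
  exact hf (Set.toFinite _).measurableSet

lemma win_ring (A : Type) : IsSetRing (Win A) where
  empty_mem := ⟨0, fun _ _ _ => Iff.rfl⟩
  union_mem := by
    rintro s t ⟨r, hr⟩ ⟨r', hr'⟩
    refine ⟨max r r', fun x y h => ?_⟩
    have h1 := hr x y fun i hi => h i (hi.trans (by exact_mod_cast le_max_left r r'))
    have h2 := hr' x y fun i hi => h i (hi.trans (by exact_mod_cast le_max_right r r'))
    simp only [Set.mem_union, h1, h2]
  sdiff_mem := by
    rintro s t ⟨r, hr⟩ ⟨r', hr'⟩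
    refine ⟨max r r', fun x y h => ?_⟩
    have h1 := hr x y fun i hi => h i (hi.trans (by exact_mod_cast le_max_left r r'))
    have h2 := hr' x y fun i hi => h i (hi.trans (by exact_mod_cast le_max_right r r'))
    simp only [Set.mem_sdiff, h1, h2]

lemma win_gen (A : Type) [Fintype A] [MeasurableSpace A] [DiscreteMeasurableSpace A] :
    (MeasurableSpace.pi : MeasurableSpace (ℤ → A)) = MeasurableSpace.generateFrom (Win A) := by
  apply le_antisymm
  · refine iSup_le fun i => ?_
    rintro s ⟨t, -, rfl⟩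
    refine MeasurableSpace.measurableSet_generateFrom ⟨i.natAbs, fun x y h => ?_⟩
    have := h i (by simp)
    simp only [Set.mem_preimage, this]
  · exact MeasurableSpace.generateFrom_le fun s hs => win_meas hs

lemma approx {X A : Type} [MeasurableSpace X] [StandardBorelSpace X] [Fintype A]
    [MeasurableSpace A] [DiscreteMeasurableSpace A] {nm : X → ℤ → A} {L : Set X}
    (hnm : Measurable nm) (hL : MeasurableSet L) (hinj : Set.InjOn nm L)
    (ν : Measure X) [IsProbabilityMeasure ν] {k : ℕ} (hk : 0 < k) (p : X → Fin k) (hp : MeasF p)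
    {δ : ℝ} (hδ : 0 < δ) :
    ∃ (r : ℕ) (q : (ℤ → A) → Fin k) (Err : Set X), MeasurableSet Err ∧ ν.real Err ≤ δ ∧
      (∀ x y : ℤ → A, (∀ i : ℤ, |i| ≤ r → x i = y i) → q x = q y) ∧
      ∀ z ∈ L, z ∉ Err → q (nm z) = p z := by
  classical
  have hkR : (0 : ℝ) < k := by exact_mod_cast hk
  let B : Fin k → Set (ℤ → A) := fun a => nm '' (L ∩ p ⁻¹' {a})
  have hB : ∀ a, MeasurableSet (B a) := fun a =>
    (hL.inter (hp a)).image_of_measurable_injOn hnm (hinj.mono Set.inter_subset_left)
  let μ : Measure (ℤ → A) := ν.map nm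
  have hex : ∀ a, ∃ t ∈ Win A, μ (t ∆ B a) < ENNReal.ofReal (δ / k) := fun a =>
    exists_measure_symmDiff_lt_of_generateFrom_isSetRing (win_ring A)
      ⟨{Set.univ}, Set.countable_singleton _, by
        rintro s rfl
        exact ⟨0, fun _ _ _ => Iff.rfl⟩, by simp⟩ (win_gen A) (hB a)
      (ENNReal.ofReal_pos.2 (div_pos hδ hkR))
  choose C hC hμ using hex
  have hCm : ∀ a, MeasurableSet (C a) := fun a => win_meas (hC a)
  choose ρ hρ using hC
  refine ⟨Finset.univ.sup ρ, fun σ => if h : ∃ a, σ ∈ C a then h.choose else ⟨0, hk⟩,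
    ⋃ a, nm ⁻¹' (C a ∆ B a), MeasurableSet.iUnion fun a => hnm ((hCm a).symmDiff (hB a)), ?_, ?_, ?_⟩
  · refine (measureReal_iUnion_fintype_le _).trans ?_
    have h1 : ∀ a, ν.real (nm ⁻¹' (C a ∆ B a)) ≤ δ / k := by
      intro a
      have h2 := hμ a
      rw [Measure.map_apply hnm ((hCm a).symmDiff (hB a))] at h2
      exact ENNReal.toReal_le_of_le_ofReal (div_pos hδ hkR).le h2.le
    refine (Finset.sum_le_sum fun a _ => h1 a).trans ?_
    rw [Finset.sum_const, Finset.card_univ, Fintype.card_fin, nsmul_eq_mul,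
      mul_div_cancel₀ _ hkR.ne']
  · intro x y h
    have h1 : (fun a => x ∈ C a) = fun a => y ∈ C a := by
      funext a
      refine propext (hρ a x y fun i hi => h i (hi.trans ?_))
      exact_mod_cast Finset.le_sup (f := ρ) (Finset.mem_univ a)
    simp only [h1]
  · intro z hz hE
    simp only [Set.mem_iUnion, not_exists, Set.mem_preimage, Set.mem_symmDiff, not_or, not_and,
      not_not] at hE
    have h1 : ∃ a, nm z ∈ C a := ⟨p z, (hE (p z)).2 ⟨z, ⟨hz, rfl⟩, rfl⟩⟩
    simp only [dif_pos h1]
    obtain ⟨z', ⟨hz', hp'⟩, he⟩ := (hE _).1 h1.choose_spec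
    rw [hinj hz' hz he] at hp'
    exact (Set.mem_singleton_iff.1 hp').symm

lemma nm_iter {X A : Type} [MeasurableSpace X] [MeasurableSpace A] {T : X → X}
    {nm : X → ℤ → A} {L : Set X} (hc : Coded T nm L) (m : ℕ) :
    ∀ (z : X) (j : ℤ), nm (T^[m] z) j = nm z (j + m) := by
  induction m with
  | zero => simp
  | succ m ih =>
    intro z j
    rw [Function.iterate_succ_apply, ih, hc.equiv]
    simp only [shift]
    congr 1
    push_cast
    ring

lemma iter_mem {X A : Type} [MeasurableSpace X] [MeasurableSpace A] {T : X → X}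
    {nm : X → ℤ → A} {L : Set X} (hc : Coded T nm L) (m : ℕ) :
    ∀ z ∈ L, T^[m] z ∈ L := by
  induction m with
  | zero => simp
  | succ m ih =>
    intro z hz
    rw [Function.iterate_succ_apply]
    apply ih
    have : z ∈ T ⁻¹' L := by rw [hc.inv]; exact hz
    exact this

/-- a word read around position `i + r` -/
def ext {A : Type} (n r : ℕ) (u : Fin (n + 2 * r) → A) (i : Fin n) : ℤ → A := fun j =>
  if h : (((i : ℕ) : ℤ) + r + j).toNat < n + 2 * r then u ⟨_, h⟩
  else u ⟨i, by have := i.2; omega⟩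

noncomputable def phi {k : ℕ} (α β : ℝ) (a b : Fin k) : ℝ := (if a = b then α else 0) + β

theorem thm_upper : S_gibbs → S_upper := by
  classical
  intro hG X A _ _ _ _ _ T nm L hc h hh hcount ν hν hT hae k p hp ε hε
  have hX : Nonempty X := nonempty_of_isProbabilityMeasure ν
  have hk : 0 < k := Fin.pos (p hX.some)
  have hkR : (1 : ℝ) ≤ k := by exact_mod_cast hk
  have hk0 : (0 : ℝ) < k := by linarith
  set e : ℝ := ε / 4 with he
  have he0 : 0 < e := by positivity
  set α : ℝ := Real.exp (-e) with hα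
  have hα0 : 0 < α := Real.exp_pos _
  have hα1 : α < 1 := by rw [hα]; exact Real.exp_lt_one_iff.2 (by linarith)
  set β : ℝ := (1 - α) / k with hβ
  have hβ0 : 0 < β := div_pos (by linarith) hk0
  have hβ1 : β ≤ 1 := by rw [hβ, div_le_one hk0]; linarith
  set γ : ℝ := -Real.log β with hγ
  have hγ0 : 0 ≤ γ := by
    have := Real.log_nonpos hβ0.le hβ1
    linarith
  obtain ⟨r, q, Err, hErr, hErrν, hq, hqp⟩ :=
    approx hc.meas hc.measL hc.inj ν hk p hp (δ := e / (γ + 1)) (by positivity)
  obtain ⟨C, hC⟩ := hcount e he0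
  have hlogk : 0 ≤ Real.log k := Real.log_nonneg hkR
  have hlog2 : 0 ≤ Real.log 2 := Real.log_nonneg (by norm_num)
  set K : ℝ := Real.log 2 + Real.log k + |C| + (h + e) * (2 * r) with hK
  have hev : ∀ᶠ n : ℕ in atTop, K / e ≤ (n : ℝ) :=
    tendsto_natCast_atTop_atTop.eventually_ge_atTop _
  filter_upwards [hev] with n hn
  have hKn : K ≤ n * e := (div_le_iff₀ he0).1 hn
  have hTm : ∀ m : ℕ, Measurable T^[m] := fun m => hc.measT.iterate m
  let Y : X → Fin n → Fin k := fun z i => p (T^[(i : ℕ)] (T^[r] z))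
  have hS : ∀ w : Fin n → Fin k,
      MeasurableSet {z | ∀ i : Fin n, p (T^[(i : ℕ)] z) = w i} := by
    intro w
    rw [Set.ofPred_forall]
    exact MeasurableSet.iInter fun i => hTm i (hp (w i))
  have hY : ∀ w, Y ⁻¹' {w} = T^[r] ⁻¹' {z | ∀ i : Fin n, p (T^[(i : ℕ)] z) = w i} := by
    intro w
    ext z
    simp only [Set.mem_preimage, Set.mem_singleton_iff, Set.mem_ofPred_eq, Y, funext_iff]
  have hH : Hn ν T p n = ∑ w, Real.negMulLog (ν (Y ⁻¹' {w})).toReal := by
    unfold Hn
    refine Finset.sum_congr rfl fun w _ => ?_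
    rw [hY, (hT.iterate r).measure_preimage (hS w).nullMeasurableSet]
  let Lg : Finset (Fin (n + 2 * r) → A) := (Set.toFinite (lang (nm '' L) (n + 2 * r))).toFinset
  have hLg : (Lg.card : ℝ) ≤ Real.exp (|C| + (h + e) * ((n + 2 * r : ℕ) : ℝ)) := by
    have h1 := hC (n + 2 * r)
    rw [Set.ncard_eq_toFinset_card _ (Set.toFinite _)] at h1
    refine h1.trans ?_
    rw [Real.exp_add]
    refine mul_le_mul_of_nonneg_right ?_ (Real.exp_pos _).le
    have := Real.add_one_le_exp |C|
    have := le_abs_self C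
    linarith
  have hphi0 : ∀ a b : Fin k, β ≤ phi α β a b := by
    intro a b
    unfold phi
    split_ifs <;> linarith
  have hphis : ∀ a : Fin k, ∑ b, phi α β a b = 1 := by
    intro a
    unfold phi
    rw [Finset.sum_add_distrib, Finset.sum_ite_eq, Finset.sum_const, Finset.card_univ,
      Fintype.card_fin, nsmul_eq_mul, hβ, mul_div_cancel₀ _ hk0.ne']
    simp
  let Q1 : (Fin n → Fin k) → ℝ := fun w =>
    (Lg.card : ℝ)⁻¹ * ∑ u ∈ Lg, ∏ i, phi α β (q (ext n r u i)) (w i)
  let Q2 : (Fin n → Fin k) → ℝ := fun w => ∑ a : Fin k, if (fun _ => a) = w then (k : ℝ)⁻¹ else 0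
  have hQ1 : ∀ w, 0 ≤ Q1 w := fun w =>
    mul_nonneg (by positivity) (Finset.sum_nonneg fun u _ =>
      Finset.prod_nonneg fun i _ => hβ0.le.trans (hphi0 _ _))
  have hQ2 : ∀ w, 0 ≤ Q2 w := fun w =>
    Finset.sum_nonneg fun a _ => by split_ifs <;> positivity
  have hQ1s : ∑ w, Q1 w ≤ 1 := by
    simp only [Q1]
    rw [← Finset.mul_sum, Finset.sum_comm]
    have h1 : ∀ u ∈ Lg, ∑ w : Fin n → Fin k, ∏ i, phi α β (q (ext n r u i)) (w i) = 1 := by
      intro u _
      rw [← Fintype.prod_sum (fun i b => phi α β (q (ext n r u i)) b)]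
      simp only [hphis, Finset.prod_const_one]
    rw [Finset.sum_congr rfl h1, Finset.sum_const, nsmul_eq_mul, mul_one]
    exact inv_mul_le_one_of_le₀ le_rfl (by positivity)
  have hQ2s : ∑ w, Q2 w ≤ 1 := by
    simp only [Q2]
    rw [Finset.sum_comm]
    simp only [Finset.sum_ite_eq, Finset.mem_univ, if_true, Finset.sum_const, Finset.card_univ,
      Fintype.card_fin, nsmul_eq_mul]
    rw [mul_inv_cancel₀ hk0.ne']
  let ind : Fin n → X → ℝ := fun i => (T^[(i : ℕ) + r] ⁻¹' Err).indicator fun _ => (1 : ℝ)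
  have hind0 : ∀ i z, 0 ≤ ind i z := fun i z => Set.indicator_nonneg (fun _ _ => zero_le_one) z
  have hindI : ∀ i, Integrable (ind i) ν := fun i =>
    (integrable_const (1 : ℝ)).indicator (hTm _ hErr)
  have hindv : ∀ i, ∫ z, ind i z ∂ν = ν.real Err := by
    intro i
    simp only [ind]
    rw [integral_indicator_const _ (hTm _ hErr), smul_eq_mul, mul_one,
      (hT.iterate _).measureReal_preimage hErr.nullMeasurableSet]
  let c : ℝ := (Real.log 2 + Real.log k) + (|C| + (h + e) * ((n + 2 * r : ℕ) : ℝ))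
  let l : X → ℝ := fun z => c + ∑ i : Fin n, (e + γ * ind i z)
  have hI1 : ∀ i, Integrable (fun z => e + γ * ind i z) ν := fun i =>
    (integrable_const e).add ((hindI i).const_mul γ)
  have hI2 : Integrable (fun z => ∑ i : Fin n, (e + γ * ind i z)) ν :=
    integrable_finsetSum _ fun i _ => hI1 i
  have hl : Integrable l ν := (integrable_const c).add hI2
  have hlv : ∫ z, l z ∂ν = c + n * (e + γ * ν.real Err) := by
    simp only [l]
    rw [integral_add (integrable_const c) hI2, integral_finsetSum _ fun i _ => hI1 i]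
    have h1 : ∀ i : Fin n, ∫ z, (e + γ * ind i z) ∂ν = e + γ * ν.real Err := by
      intro i
      rw [integral_add (integrable_const e) ((hindI i).const_mul γ), integral_const_mul, hindv]
      simp
    simp only [h1, Finset.sum_const, Finset.card_univ, Fintype.card_fin, nsmul_eq_mul]
    simp
  have hmain := hG X (Fin n → Fin k) ν Y (fun w => Q1 w / 2 + Q2 w / 2) l
    (fun w => by rw [hY]; exact hTm r (hS w))
    (fun w => by have := hQ1 w; have := hQ2 w; positivity)
    (by rw [Finset.sum_add_distrib, ← Finset.sum_div, ← Finset.sum_div]; linarith) hl ?_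
  · rw [hH]
    refine hmain.trans ?_
    rw [hlv]
    have h1 : γ * ν.real Err ≤ e := by
      refine (mul_le_mul_of_nonneg_left hErrν hγ0).trans ?_
      rw [← mul_div_assoc, div_le_iff₀ (by linarith)]
      nlinarith
    have h2 : (n : ℝ) * (e + γ * ν.real Err) ≤ n * (e + e) :=
      mul_le_mul_of_nonneg_left (by linarith) (Nat.cast_nonneg n)
    have h3 : c = K + n * (h + e) := by
      simp only [c, hK]
      push_cast
      ring
    have h4 : ε = 4 * e := by rw [he]; ring
    rw [h3, h4]
    nlinarith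
  · have hexp : Real.exp (-(Real.log 2 + Real.log k)) = (k : ℝ)⁻¹ / 2 := by
      rw [Real.exp_neg, Real.exp_add, Real.exp_log (by norm_num), Real.exp_log hk0]
      field_simp
    filter_upwards [hae] with z hz
    rcases hz with hz | hz
    · let u : Fin (n + 2 * r) → A := fun m => nm z ((m : ℕ) : ℤ)
      have hu : u ∈ Lg := by
        simp only [Lg, Set.Finite.mem_toFinset]
        exact ⟨nm z, ⟨z, hz, rfl⟩, fun _ => rfl⟩
      have hcard : (0 : ℝ) < Lg.card := by exact_mod_cast Finset.card_pos.2 ⟨u, hu⟩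
      have hfac : ∀ i : Fin n,
          Real.exp (-(e + γ * ind i z)) ≤ phi α β (q (ext n r u i)) (Y z i) := by
        intro i
        by_cases hE : T^[(i : ℕ) + r] z ∈ Err
        · have h1 : ind i z = 1 := Set.indicator_of_mem (s := T^[(i : ℕ) + r] ⁻¹' Err) hE _
          rw [h1, mul_one, neg_add, Real.exp_add, hγ, neg_neg, Real.exp_log hβ0]
          refine le_trans ?_ (hphi0 _ _)
          nlinarith
        · have h1 : ind i z = 0 := Set.indicator_of_notMem (s := T^[(i : ℕ) + r] ⁻¹' Err) hE _
          have h2 : q (ext n r u i) = Y z i := by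
            have h3 : Y z i = p (T^[(i : ℕ) + r] z) := by
              simp only [Y, Function.iterate_add_apply]
            rw [h3, ← hqp _ (iter_mem hc _ z hz) hE]
            refine hq _ _ fun j hj => ?_
            have hj' := abs_le.1 hj
            have hi := i.2
            have h4 : (((i : ℕ) : ℤ) + r + j).toNat < n + 2 * r := by omega
            rw [nm_iter hc]
            simp only [ext, dif_pos h4, u]
            congr 1
            push_cast
            omega
          rw [h1, mul_zero, add_zero, h2]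
          unfold phi
          rw [if_pos rfl]
          linarith
      have hprod : Real.exp (-∑ i : Fin n, (e + γ * ind i z)) ≤
          ∑ v ∈ Lg, ∏ i, phi α β (q (ext n r v i)) (Y z i) := by
        rw [← Finset.sum_neg_distrib, Real.exp_sum]
        refine (Finset.prod_le_prod (fun i _ => (Real.exp_pos _).le) fun i _ => hfac i).trans ?_
        exact Finset.single_le_sum (f := fun v => ∏ i, phi α β (q (ext n r v i)) (Y z i))
          (fun v _ => Finset.prod_nonneg fun i _ => hβ0.le.trans (hphi0 _ _)) hu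
      have hinv : Real.exp (-(|C| + (h + e) * ((n + 2 * r : ℕ) : ℝ))) ≤ (Lg.card : ℝ)⁻¹ := by
        rw [Real.exp_neg]
        exact inv_anti₀ hcard hLg
      have h5 : Real.exp (-(|C| + (h + e) * ((n + 2 * r : ℕ) : ℝ))) *
          Real.exp (-∑ i : Fin n, (e + γ * ind i z)) ≤ Q1 (Y z) :=
        mul_le_mul hinv hprod (Real.exp_pos _).le (by positivity)
      have h6 : (k : ℝ)⁻¹ ≤ 1 := inv_le_one_of_one_le₀ hkR
      have h7 := hQ2 (Y z)
      have h8 := hQ1 (Y z)
      simp only [l, c]
      rw [neg_add, neg_add, Real.exp_add, Real.exp_add, hexp, mul_assoc]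
      have h9 : (k : ℝ)⁻¹ / 2 * (Real.exp (-(|C| + (h + e) * ((n + 2 * r : ℕ) : ℝ))) *
          Real.exp (-∑ i : Fin n, (e + γ * ind i z))) ≤ 1 / 2 * Q1 (Y z) :=
        mul_le_mul (by linarith) h5 (by positivity) (by norm_num)
      linarith
    · have hfix : ∀ m : ℕ, T^[m] z = z := fun m => Function.iterate_fixed hz m
      have h1 : (fun _ => p z) = Y z := by
        funext i
        simp only [Y, hfix]
      have h2 : (k : ℝ)⁻¹ ≤ Q2 (Y z) := by
        have h3 := Finset.single_le_sum
          (f := fun a : Fin k => if (fun _ => a) = Y z then (k : ℝ)⁻¹ else 0)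
          (fun a _ => by split_ifs <;> positivity) (Finset.mem_univ (p z))
        simp only [if_pos h1] at h3
        exact h3
      have h4 : Real.exp (-l z) ≤ Real.exp (-(Real.log 2 + Real.log k)) := by
        refine Real.exp_le_exp.2 (neg_le_neg ?_)
        have h5 : 0 ≤ ∑ i : Fin n, (e + γ * ind i z) :=
          Finset.sum_nonneg fun i _ => add_nonneg he0.le (mul_nonneg hγ0 (hind0 i z))
        have h6 : 0 ≤ (h + e) * ((n + 2 * r : ℕ) : ℝ) := by positivity
        have h7 := abs_nonneg C
        simp only [l, c]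
        linarith
      have h8 := hQ1 (Y z)
      rw [hexp] at h4
      linarith

end Pool.Agent.H317Z.Upper
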